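import Pool.Agent.Lib_helper36.Graph13

set_option autoImplicit false

open Set Filter Topology

namespace Pool.Agent.Lib_helper36

/-- Strictly convex norms close to the sup norm contain the graph. -/
lemma contains {N : NormSp 2} (hN : N ∈ SC) (hU : ∀ x, |N.1 x - ‖x‖| ≤ 1 / 100 * ‖x‖) :
    ∃ φ : Fin 13 → (Fin 2 → ℝ), Function.Injective φ ∧
      ∀ u v, H13.Adj u v → N.1 (φ u - φ v) = 1 := by
  obtain ⟨u, v, hu, hv, huv, hsum, hdet⟩ := exists_hexpair hN hU
  -- the third unit vector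
  have hw : N.1 ((2 / 3 : ℝ) • (u + v)) = 1 := by
    rw [N.2.2.2, hsum]; norm_num
  obtain ⟨w', hw', hww', hdw'⟩ := exists_partner N hw
  -- express the partner in coordinates, flipping it to the side of `u`
  set w : Fin 2 → ℝ := (2 / 3 : ℝ) • (u + v) with hwdef
  set x : Fin 2 → ℝ := w - w' with hx
  have hx1 : N.1 x = 1 := hww'
  have hx2 : N.1 (w - x) = 1 := by
    have : w - x = w' := by rw [hx]; abel
    rw [this]; exact hw'
  have hx3 : det2 w x < 0 := by
    have h1 : det2 w x = - det2 w w' := by rw [hx]; simp [det2]; ring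
    have h2 := partner_det_ne hw hw' hww'
    have h3 : 0 < det2 w w' := lt_of_le_of_ne hdw' (Ne.symm h2)
    linarith
  have huv0 : det2 u v ≠ 0 := hdet.ne'
  obtain ⟨p, q, hpq⟩ : ∃ p q : ℝ, x = p • u + q • v := ⟨_, _, exists_coords u v x huv0⟩
  have hlt : q < p := by
    have h1 : det2 w x = (2 / 3) * (q - p) * det2 u v := by
      rw [hwdef, hpq]; simp [det2]; ring
    rw [h1] at hx3
    by_contra hcon
    push Not at hcon
    have : 0 ≤ (2 / 3) * (q - p) * det2 u v := by
      have : 0 ≤ q - p := by linarith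
      positivity
    linarith
  -- triangle inequalities
  have hvu : N.1 (v - u) = 1 := by rw [NormSp.sub_comm']; exact huv
  have hsum2 : N.1 ((2 : ℝ) • (u + v)) = 3 := by
    rw [N.2.2.2, hsum]; norm_num
  have b1 : N.1 ((2 : ℝ) • v - u) ≤ 2 := by
    have h1 := N.2.2.1 v (v - u)
    have h2 : v + (v - u) = (2 : ℝ) • v - u := by module
    rw [h2] at h1; linarith
  have b2 : N.1 ((2 : ℝ) • u - v) ≤ 2 := by
    have h1 := N.2.2.1 u (u - v)
    have h2 : u + (u - v) = (2 : ℝ) • u - v := by module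
    rw [h2] at h1; linarith
  have b3 : 2 ≤ N.1 ((2 : ℝ) • u + v) := by
    have h1 := N.2.2.1 ((2 : ℝ) • u + v) v
    have h2 : (2 : ℝ) • u + v + v = (2 : ℝ) • (u + v) := by module
    rw [h2] at h1; linarith
  have b4 : 2 ≤ N.1 (u + (2 : ℝ) • v) := by
    have h1 := N.2.2.1 (u + (2 : ℝ) • v) u
    have h2 : u + (2 : ℝ) • v + u = (2 : ℝ) • (u + v) := by module
    rw [h2] at h1; linarith
  have c1 : N.1 ((-(1 / 3) : ℝ) • u + (2 / 3 : ℝ) • v) ≠ 1 := by
    have h : (-(1 / 3) : ℝ) • u + (2 / 3 : ℝ) • v = (1 / 3 : ℝ) • ((2 : ℝ) • v - u) := by module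
    rw [h, N.2.2.2, abs_of_pos (by norm_num)]
    intro h; linarith
  have c2 : N.1 ((2 / 3 : ℝ) • u + (-(1 / 3) : ℝ) • v) ≠ 1 := by
    have h : (2 / 3 : ℝ) • u + (-(1 / 3) : ℝ) • v = (1 / 3 : ℝ) • ((2 : ℝ) • u - v) := by module
    rw [h, N.2.2.2, abs_of_pos (by norm_num)]
    intro h; linarith
  have hwx : ∀ p q : ℝ, w - (p • u + q • v) = (2 / 3 - p) • u + (2 / 3 - q) • v := by
    intro p q; rw [hwdef]; module
  have h1 : ¬ (p = 1 ∧ q = 0) := by
    rintro ⟨rfl, rfl⟩
    rw [hpq, hwx] at hx2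
    apply c1
    convert hx2 using 3 <;> norm_num
  have h2 : ¬ (p = 2 ∧ q = 1) := by
    rintro ⟨rfl, rfl⟩
    rw [hpq, one_smul] at hx1
    linarith
  have h3 : ¬ (p = 1 / 3 ∧ q = -2 / 3) := by
    rintro ⟨rfl, rfl⟩
    rw [hpq] at hx1
    apply c1
    have h : (-(1 / 3) : ℝ) • u + (2 / 3 : ℝ) • v = -((1 / 3 : ℝ) • u + (-2 / 3 : ℝ) • v) := by
      module
    rw [h, NormSp.map_neg]; exact hx1
  have h4 : ¬ (p = 4 / 3 ∧ q = 1 / 3) := by
    rintro ⟨rfl, rfl⟩
    rw [hpq, hwx] at hx2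
    apply c2
    have h : (2 / 3 : ℝ) • u + (-(1 / 3) : ℝ) • v
        = -((2 / 3 - 4 / 3 : ℝ) • u + (2 / 3 - 1 / 3 : ℝ) • v) := by
      module
    rw [h, NormSp.map_neg]; exact hx2
  have h5 : ¬ (p = -1 / 3 ∧ q = -4 / 3) := by
    rintro ⟨rfl, rfl⟩
    rw [hpq, hwx] at hx2
    have h : (2 / 3 - -1 / 3 : ℝ) • u + (2 / 3 - -4 / 3 : ℝ) • v = u + (2 : ℝ) • v := by
      module
    rw [h] at hx2; linarith
  have h6 : ¬ (p = 2 / 3 ∧ q = -1 / 3) := by
    rintro ⟨rfl, rfl⟩
    rw [hpq] at hx1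
    apply c2
    convert hx1 using 3; norm_num
  refine ⟨fun i => cx p i • u + cy q i • v, ?_, ?_⟩
  · intro i j hij
    simp only at hij
    have hd1 : (cx p i - cx p j) * det2 u v = 0 := by
      have h : det2 ((cx p i • u + cy q i • v) - (cx p j • u + cy q j • v)) v
          = (cx p i - cx p j) * det2 u v := by
        simp [det2]; ring
      rw [← h, hij, sub_self]; simp [det2]
    have hd2 : (cy q i - cy q j) * det2 u v = 0 := by
      have h : det2 u ((cx p i • u + cy q i • v) - (cx p j • u + cy q j • v))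
          = (cy q i - cy q j) * det2 u v := by
        simp [det2]; ring
      rw [← h, hij, sub_self]; simp [det2]
    have e1 : cx p i = cx p j := by
      have := (mul_eq_zero.mp hd1).resolve_right huv0
      linarith
    have e2 : cy q i = cy q j := by
      have := (mul_eq_zero.mp hd2).resolve_right huv0
      linarith
    exact coords_inj hlt h1 h2 h3 h4 h5 h6 e1 e2
  · -- unit distances
    have key : ∀ a b : Fin 13, (a, b) ∈ edges13 →
        N.1 ((cx p a • u + cy q a • v) - (cx p b • u + cy q b • v)) = 1 := by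
      have hneg_u : N.1 (-u) = 1 := by rw [NormSp.map_neg]; exact hu
      have hneg_v : N.1 (-v) = 1 := by rw [NormSp.map_neg]; exact hv
      have hneg_w : N.1 (-w) = 1 := by rw [NormSp.map_neg]; exact hw
      have hneg_x : N.1 (-x) = 1 := by rw [NormSp.map_neg]; exact hx1
      have hxw : N.1 (x - w) = 1 := by rw [NormSp.sub_comm']; exact hx2
      intro a b hab
      simp only [edges13, List.mem_cons, Prod.mk.injEq, List.not_mem_nil, or_false] at hab
      rcases hab with ⟨rfl, rfl⟩ | ⟨rfl, rfl⟩ | ⟨rfl, rfl⟩ | ⟨rfl, rfl⟩ | ⟨rfl, rfl⟩ | ⟨rfl, rfl⟩ |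
        ⟨rfl, rfl⟩ | ⟨rfl, rfl⟩ | ⟨rfl, rfl⟩ | ⟨rfl, rfl⟩ | ⟨rfl, rfl⟩ | ⟨rfl, rfl⟩ |
        ⟨rfl, rfl⟩ | ⟨rfl, rfl⟩ | ⟨rfl, rfl⟩ | ⟨rfl, rfl⟩ | ⟨rfl, rfl⟩ | ⟨rfl, rfl⟩ |
        ⟨rfl, rfl⟩ | ⟨rfl, rfl⟩ | ⟨rfl, rfl⟩ | ⟨rfl, rfl⟩ | ⟨rfl, rfl⟩ | ⟨rfl, rfl⟩
      · -- (0,1)
        convert hneg_u using 2; simp [cx, cy]
      · convert hneg_v using 2; simp [cx, cy]
      · convert huv using 2; simp [cx, cy]
      · -- (1,3)
        convert hneg_v using 2; simp [cx, cy]
      · convert hneg_u using 2; simp [cx, cy]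
      · -- (2,4)
        convert hneg_v using 2; simp [cx, cy]; module
      · convert huv using 2; simp [cx, cy]; module
      · -- (3,5)
        convert hneg_v using 2; simp [cx, cy]; module
      · convert hneg_u using 2; simp [cx, cy]
      · -- (3,6)
        convert hneg_u using 2; simp [cx, cy]; module
      · convert hvu using 2; simp [cx, cy]; module
      · -- (5,7)
        convert hneg_u using 2; simp [cx, cy]; module
      · convert hneg_v using 2; simp [cx, cy]; module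
      · -- (0,8)
        convert hneg_w using 2; rw [hwdef]; simp [cx, cy]
      · convert hneg_w using 2; rw [hwdef]; simp [cx, cy]; module
      · convert hneg_w using 2; rw [hwdef]; simp [cx, cy]; module
      · -- (0,10)
        convert hneg_x using 2; rw [hpq]; simp [cx, cy]
      · convert hxw using 2; rw [hpq, hwdef]; simp [cx, cy]
      · -- (8,11)
        convert hneg_x using 2; rw [hpq]; simp [cx, cy]; module
      · -- (10,11)
        convert hneg_w using 2; rw [hwdef]; simp [cx, cy]; module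
      · -- (11,9)
        convert hxw using 2; rw [hpq, hwdef]; simp [cx, cy]; module
      · -- (9,12)
        convert hneg_x using 2; rw [hpq]; simp [cx, cy]; module
      · -- (11,12)
        convert hneg_w using 2; rw [hwdef]; simp [cx, cy]; module
      · -- (12,7)
        convert hxw using 2; rw [hpq, hwdef]; simp [cx, cy]; module
    intro a b hab
    obtain ⟨-, h | h⟩ := (SimpleGraph.fromRel_adj _ _ _).mp hab
    · exact key a b h
    · rw [NormSp.sub_comm']; exact key b a h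

end Pool.Agent.Lib_helper36
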