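import Pool.Agent.Lib_helper36.HexPair

set_option autoImplicit false

open Set Filter Topology

namespace Pool.Agent.Lib_helper36

/-- The edges of the graph: two triangulated strips from vertex `0` to vertex `7`. -/
def edges13 : List (Fin 13 × Fin 13) :=
  [(0, 1), (0, 2), (1, 2), (1, 3), (2, 3), (2, 4), (3, 4), (3, 5), (4, 5), (3, 6), (5, 6), (5, 7),
   (6, 7), (0, 8), (8, 9), (9, 7), (0, 10), (10, 8), (8, 11), (10, 11), (11, 9), (9, 12), (11, 12),
   (12, 7)]

/-- The graph on 13 vertices. -/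
def H13 : SimpleGraph (Fin 13) := SimpleGraph.fromRel fun a b => (a, b) ∈ edges13

lemma adj_of_mem {a b : Fin 13} (h : (a, b) ∈ edges13) (hab : a ≠ b) : H13.Adj a b :=
  (SimpleGraph.fromRel_adj _ _ _).mpr ⟨hab, Or.inl h⟩

/-- For a strictly convex norm, an embedding of the graph gives a hexagonal pair with
`2 (u + v) = 3 w`. -/
lemma forced {N : NormSp 2} (hN : N ∈ SC) {φ : Fin 13 → (Fin 2 → ℝ)} (hinj : Function.Injective φ)
    (h : ∀ u v, H13.Adj u v → N.1 (φ u - φ v) = 1) :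
    (2 : ℝ) • ((φ 1 - φ 0) + (φ 2 - φ 0)) = (3 : ℝ) • (φ 8 - φ 0) := by
  have e : ∀ a b : Fin 13, (a, b) ∈ edges13 → a ≠ b → N.1 (φ a - φ b) = 1 :=
    fun a b hab hne => h a b (adj_of_mem hab hne)
  have e' : ∀ a b : Fin 13, (a, b) ∈ edges13 → a ≠ b → N.1 (φ b - φ a) = 1 :=
    fun a b hab hne => h b a (adj_of_mem hab hne).symm
  have r1 : φ 0 + φ 3 = φ 1 + φ 2 :=
    rhombus hN (e 0 1 (by decide) (by decide)) (e 0 2 (by decide) (by decide))
      (e' 1 3 (by decide) (by decide)) (e' 2 3 (by decide) (by decide))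
      (hinj.ne (by decide)) (hinj.ne (by decide))
  have r2 : φ 1 + φ 4 = φ 2 + φ 3 :=
    rhombus hN (e 1 2 (by decide) (by decide)) (e 1 3 (by decide) (by decide))
      (e' 2 4 (by decide) (by decide)) (e' 3 4 (by decide) (by decide))
      (hinj.ne (by decide)) (hinj.ne (by decide))
  have r3 : φ 2 + φ 5 = φ 3 + φ 4 :=
    rhombus hN (e 2 3 (by decide) (by decide)) (e 2 4 (by decide) (by decide))
      (e' 3 5 (by decide) (by decide)) (e' 4 5 (by decide) (by decide))
      (hinj.ne (by decide)) (hinj.ne (by decide))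
  have r4 : φ 4 + φ 6 = φ 3 + φ 5 :=
    rhombus hN (e' 3 4 (by decide) (by decide)) (e 4 5 (by decide) (by decide))
      (e' 3 6 (by decide) (by decide)) (e' 5 6 (by decide) (by decide))
      (hinj.ne (by decide)) (hinj.ne (by decide))
  have r5 : φ 3 + φ 7 = φ 5 + φ 6 :=
    rhombus hN (e 3 5 (by decide) (by decide)) (e 3 6 (by decide) (by decide))
      (e' 5 7 (by decide) (by decide)) (e' 6 7 (by decide) (by decide))
      (hinj.ne (by decide)) (hinj.ne (by decide))
  have s1 : φ 0 + φ 11 = φ 8 + φ 10 :=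
    rhombus hN (e 0 8 (by decide) (by decide)) (e 0 10 (by decide) (by decide))
      (e' 8 11 (by decide) (by decide)) (e' 10 11 (by decide) (by decide))
      (hinj.ne (by decide)) (hinj.ne (by decide))
  have s2 : φ 10 + φ 9 = φ 8 + φ 11 :=
    rhombus hN (e 10 8 (by decide) (by decide)) (e 10 11 (by decide) (by decide))
      (e' 8 9 (by decide) (by decide)) (e' 11 9 (by decide) (by decide))
      (hinj.ne (by decide)) (hinj.ne (by decide))
  have s3 : φ 8 + φ 12 = φ 9 + φ 11 :=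
    rhombus hN (e 8 9 (by decide) (by decide)) (e 8 11 (by decide) (by decide))
      (e' 9 12 (by decide) (by decide)) (e' 11 12 (by decide) (by decide))
      (hinj.ne (by decide)) (hinj.ne (by decide))
  have s4 : φ 11 + φ 7 = φ 9 + φ 12 :=
    rhombus hN (e 11 9 (by decide) (by decide)) (e 11 12 (by decide) (by decide))
      (e' 9 7 (by decide) (by decide)) (e' 12 7 (by decide) (by decide))
      (hinj.ne (by decide)) (hinj.ne (by decide))
  ext i
  have t1 := congrFun r1 i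
  have t2 := congrFun r2 i
  have t3 := congrFun r3 i
  have t4 := congrFun r4 i
  have t5 := congrFun r5 i
  have t6 := congrFun s1 i
  have t7 := congrFun s2 i
  have t8 := congrFun s3 i
  have t9 := congrFun s4 i
  simp only [Pi.add_apply, Pi.sub_apply, Pi.smul_apply, smul_eq_mul] at *
  linarith

/-- Strictly convex norms close to the Euclidean norm do not contain the graph. -/
lemma not_contains {N : NormSp 2} (hN : N ∈ SC) (hV : ∀ x, |N.1 x - euc x| ≤ 1 / 100 * euc x) :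
    ¬ ∃ φ : Fin 13 → (Fin 2 → ℝ), Function.Injective φ ∧
      ∀ u v, H13.Adj u v → N.1 (φ u - φ v) = 1 := by
  rintro ⟨φ, hinj, h⟩
  have hf := forced hN hinj h
  set u := φ 1 - φ 0 with hu
  set v := φ 2 - φ 0 with hv
  set w := φ 8 - φ 0 with hw
  have hu1 : N.1 u = 1 := h 1 0 (adj_of_mem (by decide) (by decide)).symm
  have hv1 : N.1 v = 1 := h 2 0 (adj_of_mem (by decide) (by decide)).symm
  have hw1 : N.1 w = 1 := h 8 0 (adj_of_mem (by decide) (by decide)).symm
  have huv1 : N.1 (u - v) = 1 := by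
    have : u - v = φ 1 - φ 2 := by rw [hu, hv]; abel
    rw [this]
    exact h 1 2 (adj_of_mem (by decide) (by decide))
  have hsum : N.1 (u + v) = 3 / 2 := by
    have h1 : N.1 ((2 : ℝ) • (u + v)) = N.1 ((3 : ℝ) • w) := by rw [hf]
    rw [N.2.2.2, N.2.2.2, hw1] at h1
    norm_num at h1
    linarith
  have k1 := abs_le.mp (hV u)
  have k2 := abs_le.mp (hV v)
  have k3 := abs_le.mp (hV (u - v))
  have k4 := abs_le.mp (hV (u + v))
  rw [hu1] at k1
  rw [hv1] at k2
  rw [huv1] at k3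
  rw [hsum] at k4
  have m1 : 49 / 50 ≤ euc u := by linarith [k1.1, k1.2]
  have m2 : 49 / 50 ≤ euc v := by linarith [k2.1, k2.2]
  have m3 : euc (u - v) ≤ 51 / 50 := by linarith [k3.1, k3.2]
  have m4 : euc (u + v) ≤ 152 / 100 := by linarith [k4.1, k4.2]
  have hpar : euc (u + v) ^ 2 + euc (u - v) ^ 2 = 2 * euc u ^ 2 + 2 * euc v ^ 2 := by
    simp only [euc_sq, Pi.add_apply, Pi.sub_apply]
    ring
  have n1 : (49 / 50 : ℝ) ^ 2 ≤ euc u ^ 2 := pow_le_pow_left₀ (by norm_num) m1 2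
  have n2 : (49 / 50 : ℝ) ^ 2 ≤ euc v ^ 2 := pow_le_pow_left₀ (by norm_num) m2 2
  have n3 : euc (u - v) ^ 2 ≤ (51 / 50 : ℝ) ^ 2 := pow_le_pow_left₀ (euc_nonneg _) m3 2
  have n4 : euc (u + v) ^ 2 ≤ (152 / 100 : ℝ) ^ 2 := pow_le_pow_left₀ (euc_nonneg _) m4 2
  norm_num at n1 n2 n3 n4
  linarith

/-- first coordinates of the embedding -/
noncomputable def cx (p : ℝ) : Fin 13 → ℝ :=
  ![0, 1, 0, 1, 0, 1, 2, 2, 2 / 3, 4 / 3, p, p + 2 / 3, p + 4 / 3]

/-- second coordinates of the embedding -/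
noncomputable def cy (q : ℝ) : Fin 13 → ℝ :=
  ![0, 0, 1, 1, 2, 2, 1, 2, 2 / 3, 4 / 3, q, q + 2 / 3, q + 4 / 3]

lemma coords_inj {p q : ℝ} (hpq : q < p) (h1 : ¬ (p = 1 ∧ q = 0)) (h2 : ¬ (p = 2 ∧ q = 1))
    (h3 : ¬ (p = 1 / 3 ∧ q = -2 / 3)) (h4 : ¬ (p = 4 / 3 ∧ q = 1 / 3))
    (h5 : ¬ (p = -1 / 3 ∧ q = -4 / 3)) (h6 : ¬ (p = 2 / 3 ∧ q = -1 / 3)) {i j : Fin 13}
    (hx : cx p i = cx p j) (hy : cy q i = cy q j) : i = j := by
  fin_cases i <;> fin_cases j <;> first
    | rfl
    | (exfalso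
       simp [cx, cy] at hx hy
       first
         | done
         | linarith
         | exact h1 ⟨by linarith, by linarith⟩
         | exact h2 ⟨by linarith, by linarith⟩
         | exact h3 ⟨by linarith, by linarith⟩
         | exact h4 ⟨by linarith, by linarith⟩
         | exact h5 ⟨by linarith, by linarith⟩
         | exact h6 ⟨by linarith, by linarith⟩)

end Pool.Agent.Lib_helper36
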