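import Pool.Agent.Lib_helper36.Rhombus

set_option autoImplicit false

open Set Filter Topology

namespace Pool.Agent.Lib_helper36

/-- The quarter turn. -/
def perp (u : Fin 2 → ℝ) : Fin 2 → ℝ := ![-u 1, u 0]

lemma det2_perp (u : Fin 2 → ℝ) : det2 u (perp u) = u 0 ^ 2 + u 1 ^ 2 := by
  simp [det2, perp]; ring

lemma sq_add_sq_pos {u : Fin 2 → ℝ} (hu : u ≠ 0) : 0 < u 0 ^ 2 + u 1 ^ 2 := by
  by_contra h
  push Not at h
  apply hu
  have h0 : u 0 = 0 := by nlinarith [sq_nonneg (u 0), sq_nonneg (u 1)]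
  have h1 : u 1 = 0 := by nlinarith [sq_nonneg (u 0), sq_nonneg (u 1)]
  ext i; fin_cases i <;> simp [h0, h1]

/-- Every unit vector `u` has a partner `v` on its left with `u`, `v`, `u - v` all unit. -/
lemma exists_partner (N : NormSp 2) {u : Fin 2 → ℝ} (hu : N.1 u = 1) :
    ∃ v, N.1 v = 1 ∧ N.1 (u - v) = 1 ∧ 0 ≤ det2 u v := by
  have hu0 : u ≠ 0 := by
    rintro rfl
    rw [NormSp.map_zero] at hu
    norm_num at hu
  set z : ℝ → (Fin 2 → ℝ) := fun s => s • u + (1 - |s|) • perp u with hz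
  have hzdet : ∀ s, det2 u (z s) = (1 - |s|) * (u 0 ^ 2 + u 1 ^ 2) := by
    intro s
    rw [hz]
    simp only [det2_add_right, det2_smul_right, det2_self, det2_perp]
    ring
  have hz0 : ∀ s, z s ≠ 0 := by
    intro s hs
    have h1 := hzdet s
    rw [hs] at h1
    have h2 : det2 u 0 = 0 := by simp [det2]
    rw [h2] at h1
    have h3 : 1 - |s| = 0 := by
      rcases mul_eq_zero.mp h1.symm with h | h
      · exact h
      · exact absurd h (sq_add_sq_pos hu0).ne'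
    have h4 : z s = s • u := by rw [hz]; simp only [h3, zero_smul, add_zero]
    rw [h4] at hs
    rcases smul_eq_zero.mp hs with h | h
    · rw [h, abs_zero] at h3; norm_num at h3
    · exact hu0 h
  have hzc : Continuous z := by
    rw [hz]; fun_prop
  have hNz : Continuous fun s => N.1 (z s) := N.1.continuous.comp hzc
  set g : ℝ → ℝ := fun s => N.1 (u - (N.1 (z s))⁻¹ • z s) with hg
  have hgc : Continuous g := by
    refine N.1.continuous.comp (continuous_const.sub ?_)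
    exact (hNz.inv₀ fun s => (N.pos (hz0 s)).ne').smul hzc
  have hg1 : g 1 = 0 := by
    have : z 1 = u := by rw [hz]; simp
    rw [hg]
    simp only [this, hu, inv_one, one_smul, sub_self]
    exact N.map_zero
  have hg2 : g (-1) = 2 := by
    have : z (-1) = -u := by rw [hz]; simp
    rw [hg]
    simp only [this, NormSp.map_neg, hu, inv_one, one_smul]
    have : u - -u = (2 : ℝ) • u := by module
    rw [this, N.2.2.2, hu]; norm_num
  obtain ⟨s, hs, hs1⟩ := intermediate_value_Icc' (show (-1 : ℝ) ≤ 1 by norm_num)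
    hgc.continuousOn (show (1 : ℝ) ∈ Icc (g 1) (g (-1)) by rw [hg1, hg2]; norm_num)
  refine ⟨(N.1 (z s))⁻¹ • z s, ?_, hs1, ?_⟩
  · rw [N.2.2.2, abs_of_pos (inv_pos.mpr (N.pos (hz0 s))), inv_mul_cancel₀ (N.pos (hz0 s)).ne']
  · rw [det2_smul_right, hzdet]
    have h1 : |s| ≤ 1 := abs_le.mpr hs
    have h2 := N.pos (hz0 s)
    have h3 := sq_add_sq_pos hu0
    have h4 : 0 ≤ 1 - |s| := by linarith
    positivity

/-- Partners are never parallel. -/
lemma partner_det_ne {N : NormSp 2} {u v : Fin 2 → ℝ} (hu : N.1 u = 1)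
    (hv : N.1 v = 1) (huv : N.1 (u - v) = 1) : det2 u v ≠ 0 := by
  intro h
  have hu0 : u ≠ 0 := by
    rintro rfl
    rw [NormSp.map_zero] at hu
    norm_num at hu
  obtain ⟨c, rfl⟩ := exists_smul_of_det2_eq_zero u v hu0 h
  have h1 : u - c • u = (1 - c) • u := by module
  rw [h1, N.2.2.2, hu, mul_one] at huv
  rw [N.2.2.2, hu, mul_one] at hv
  rcases abs_eq (zero_le_one) |>.mp hv with rfl | rfl <;> norm_num at huv

/-- Uniqueness of the left partner in strictly convex planes. -/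
lemma partner_unique {N : NormSp 2} (hN : N ∈ SC) {u v v' : Fin 2 → ℝ} (hu : N.1 u = 1)
    (hv : N.1 v = 1) (huv : N.1 (u - v) = 1) (hdet : 0 ≤ det2 u v)
    (hv' : N.1 v' = 1) (huv' : N.1 (u - v') = 1) (hdet' : 0 ≤ det2 u v') : v = v' := by
  have hu0 : u ≠ 0 := by
    rintro rfl
    rw [NormSp.map_zero] at hu
    norm_num at hu
  have hsum : v + (u - v) = v' + (u - v') := by abel
  have hne : v + (u - v) ≠ 0 := by
    have : v + (u - v) = u := by abel
    rw [this]; exact hu0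
  rcases unit_pairs hN hv hv' huv' huv hsum hne with h | h
  · exact h.symm
  · exfalso
    have h1 : det2 u v' = - det2 u v := by
      rw [h]; simp [det2]; ring
    have h2 := partner_det_ne hu hv huv
    have h3 : det2 u v = 0 := by linarith
    exact h2 h3

lemma norm_eq_max (x : Fin 2 → ℝ) : ‖x‖ = max |x 0| |x 1| := by
  apply le_antisymm
  · rw [pi_norm_le_iff_of_nonneg (le_max_of_le_left (abs_nonneg _))]
    intro i
    fin_cases i
    · exact le_max_left _ _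
    · exact le_max_right _ _
  · exact max_le (norm_le_pi_norm x 0) (norm_le_pi_norm x 1)

/-- unit vectors of a norm close to the sup norm are almost unit for the sup norm -/
lemma near_sup {N : NormSp 2} (hU : ∀ x, |N.1 x - ‖x‖| ≤ 1 / 100 * ‖x‖) {x : Fin 2 → ℝ}
    (hx : N.1 x = 1) : (|x 0| ≤ 51 / 50 ∧ |x 1| ≤ 51 / 50) ∧ (49 / 50 ≤ |x 0| ∨ 49 / 50 ≤ |x 1|) := by
  have h := hU x
  rw [hx] at h
  obtain ⟨h1, h2⟩ := abs_le.mp h
  have h3 : ‖x‖ ≤ 51 / 50 := by linarith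
  have h4 : 49 / 50 ≤ ‖x‖ := by linarith
  rw [norm_eq_max] at h3 h4
  exact ⟨max_le_iff.mp h3, le_max_iff.mp h4⟩

/-- the estimate: the partner of `u = c (1,t)` is close to `(0,1)` -/
lemma near_sup_partner {N : NormSp 2} (hU : ∀ x, |N.1 x - ‖x‖| ≤ 1 / 100 * ‖x‖) {t c : ℝ}
    (ht : t = 1 / 10 ∨ t = 9 / 10) (hc : 0 < c) {u v : Fin 2 → ℝ} (hu0 : u 0 = c)
    (hu1 : u 1 = t * c)
    (hu : N.1 u = 1) (hv : N.1 v = 1) (huv : N.1 (u - v) = 1) (hdet : 0 ≤ det2 u v) :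
    49 / 50 ≤ c ∧ c ≤ 51 / 50 ∧ |v 0| ≤ 1 / 25 ∧ 49 / 50 ≤ v 1 ∧ v 1 ≤ 51 / 50 := by
  obtain ⟨⟨a1, a2⟩, a3⟩ := near_sup hU hu
  obtain ⟨⟨b1, b2⟩, b3⟩ := near_sup hU hv
  obtain ⟨⟨c1, c2⟩, c3⟩ := near_sup hU huv
  rw [hu0] at a1 a3
  rw [hu1] at a2 a3
  simp only [Pi.sub_apply, hu0, hu1] at c1 c2 c3
  unfold det2 at hdet
  rw [hu0, hu1] at hdet
  have hd : t * v 0 ≤ v 1 := by
    by_contra hcon
    push Not at hcon
    have := mul_lt_mul_of_pos_left hcon hc
    nlinarith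
  simp only [le_abs] at a3 b3 c3
  rw [abs_le] at a1 a2 b1 b2 c1 c2 ⊢
  obtain ⟨a11, a12⟩ := a1
  obtain ⟨a21, a22⟩ := a2
  obtain ⟨b11, b12⟩ := b1
  obtain ⟨b21, b22⟩ := b2
  obtain ⟨c11, c12⟩ := c1
  obtain ⟨c21, c22⟩ := c2
  have hc1 : 49 / 50 ≤ c := by
    rcases ht with rfl | rfl <;> rcases a3 with (a3 | a3) | (a3 | a3) <;> linarith
  clear a3 a11 a21 a22 hdet hU hu hv huv hu0 hu1 N
  have hv1 : 49 / 50 ≤ v 1 := by
    rcases ht with rfl | rfl
    · rcases b3 with (b3 | b3) | (b3 | b3)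
      · rcases c3 with (c3 | c3) | (c3 | c3) <;> linarith
      · linarith
      · exact b3
      · linarith
    · rcases b3 with (b3 | b3) | (b3 | b3)
      · rcases c3 with (c3 | c3) | (c3 | c3) <;> linarith
      · linarith
      · exact b3
      · linarith
  have hv0 : v 0 ≤ c - 49 / 50 := by
    rcases ht with rfl | rfl <;> rcases c3 with (c3 | c3) | (c3 | c3) <;> linarith
  exact ⟨hc1, a12, ⟨by linarith, by linarith⟩, hv1, b22⟩

/-- the parametrised unit vector -/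
noncomputable def ut (N : NormSp 2) (t : ℝ) : Fin 2 → ℝ := (N.1 ![1, t])⁻¹ • ![1, t]

lemma vec_ne_zero (t : ℝ) : (![1, t] : Fin 2 → ℝ) ≠ 0 := by
  intro h
  have := congrFun h 0
  simp at this

lemma ut_unit (N : NormSp 2) (t : ℝ) : N.1 (ut N t) = 1 := by
  unfold ut
  rw [N.2.2.2, abs_of_pos (inv_pos.mpr (N.pos (vec_ne_zero t))),
    inv_mul_cancel₀ (N.pos (vec_ne_zero t)).ne']

lemma continuous_ut (N : NormSp 2) : Continuous (ut N) := by
  unfold ut
  have h1 : Continuous fun t : ℝ => (![1, t] : Fin 2 → ℝ) := by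
    refine continuous_pi fun i => ?_
    fin_cases i
    · exact continuous_const
    · exact continuous_id
  exact ((N.1.continuous.comp h1).inv₀ fun t => (N.pos (vec_ne_zero t)).ne').smul h1

/-- the compact set of pairs `(t, v)` -/
def Pset (N : NormSp 2) : Set (ℝ × (Fin 2 → ℝ)) :=
  {p | p.1 ∈ Icc (1 / 10 : ℝ) (9 / 10) ∧ N.1 p.2 = 1 ∧ N.1 (ut N p.1 - p.2) = 1 ∧
    0 ≤ det2 (ut N p.1) p.2}

lemma isCompact_Pset {N : NormSp 2} (hU : ∀ x, |N.1 x - ‖x‖| ≤ 1 / 100 * ‖x‖) :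
    IsCompact (Pset N) := by
  have hK : IsCompact (Icc (1 / 10 : ℝ) (9 / 10) ×ˢ Metric.closedBall (0 : Fin 2 → ℝ) 2) :=
    isCompact_Icc.prod (isCompact_closedBall _ _)
  refine hK.of_isClosed_subset ?_ ?_
  · have hut : Continuous fun p : ℝ × (Fin 2 → ℝ) => ut N p.1 :=
      (continuous_ut N).comp continuous_fst
    have hN2 : Continuous fun p : ℝ × (Fin 2 → ℝ) => N.1 p.2 := N.1.continuous.comp continuous_snd
    have hN3 : Continuous fun p : ℝ × (Fin 2 → ℝ) => N.1 (ut N p.1 - p.2) :=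
      N.1.continuous.comp (hut.sub continuous_snd)
    have hdet : Continuous fun p : ℝ × (Fin 2 → ℝ) => det2 (ut N p.1) p.2 := by
      unfold det2
      have h0 : Continuous fun p : ℝ × (Fin 2 → ℝ) => ut N p.1 0 := (continuous_apply 0).comp hut
      have h1 : Continuous fun p : ℝ × (Fin 2 → ℝ) => ut N p.1 1 := (continuous_apply 1).comp hut
      have h2 : Continuous fun p : ℝ × (Fin 2 → ℝ) => p.2 0 :=
        (continuous_apply 0).comp continuous_snd
      have h3 : Continuous fun p : ℝ × (Fin 2 → ℝ) => p.2 1 :=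
        (continuous_apply 1).comp continuous_snd
      exact (h0.mul h3).sub (h1.mul h2)
    exact (isClosed_Icc.preimage continuous_fst).inter
      ((isClosed_eq hN2 continuous_const).inter
        ((isClosed_eq hN3 continuous_const).inter (isClosed_le continuous_const hdet)))
  · rintro ⟨t, v⟩ ⟨h1, h2, -, -⟩
    refine ⟨h1, ?_⟩
    have h3 := hU v
    have h2' : N.1 v = 1 := h2
    rw [h2'] at h3
    have h4 := (abs_le.mp h3).1
    rw [mem_closedBall_zero_iff]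
    linarith

/-- **Key existence statement**: near the sup norm some hexagonal pair has `N (u + v) = 3/2`. -/
lemma exists_hexpair {N : NormSp 2} (hN : N ∈ SC)
    (hU : ∀ x, |N.1 x - ‖x‖| ≤ 1 / 100 * ‖x‖) :
    ∃ u v, N.1 u = 1 ∧ N.1 v = 1 ∧ N.1 (u - v) = 1 ∧ N.1 (u + v) = 3 / 2 ∧ 0 < det2 u v := by
  have hsum : Continuous fun p : ℝ × (Fin 2 → ℝ) => N.1 (ut N p.1 + p.2) :=
    N.1.continuous.comp (((continuous_ut N).comp continuous_fst).add continuous_snd)
  set A : Set ℝ := Prod.fst '' (Pset N ∩ {p | N.1 (ut N p.1 + p.2) ≤ 3 / 2}) with hA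
  set B : Set ℝ := Prod.fst '' (Pset N ∩ {p | 3 / 2 ≤ N.1 (ut N p.1 + p.2)}) with hB
  have hAc : IsClosed A :=
    (((isCompact_Pset hU).inter_right (isClosed_le hsum continuous_const)).image
      continuous_fst).isClosed
  have hBc : IsClosed B :=
    (((isCompact_Pset hU).inter_right (isClosed_le continuous_const hsum)).image
      continuous_fst).isClosed
  have hcover : Icc (1 / 10 : ℝ) (9 / 10) ⊆ A ∪ B := by
    intro t ht
    obtain ⟨v, hv, huv, hdet⟩ := exists_partner N (ut_unit N t)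
    have hmem : (t, v) ∈ Pset N := ⟨ht, hv, huv, hdet⟩
    rcases le_total (N.1 (ut N t + v)) (3 / 2) with h | h
    · exact Or.inl ⟨(t, v), ⟨hmem, h⟩, rfl⟩
    · exact Or.inr ⟨(t, v), ⟨hmem, h⟩, rfl⟩
  have hc : ∀ t, 0 < (N.1 ![1, t])⁻¹ := fun t => inv_pos.mpr (N.pos (vec_ne_zero t))
  have hA' : (Icc (1 / 10 : ℝ) (9 / 10) ∩ A).Nonempty := by
    refine ⟨1 / 10, ⟨le_rfl, by norm_num⟩, ?_⟩
    obtain ⟨v, hv, huv, hdet⟩ := exists_partner N (ut_unit N (1 / 10))
    refine ⟨(1 / 10, v), ⟨⟨⟨le_rfl, by norm_num⟩, hv, huv, hdet⟩, ?_⟩, rfl⟩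
    obtain ⟨k1, k2, k3, k4, k5⟩ := near_sup_partner hU (t := 1 / 10) (c := (N.1 ![1, 1 / 10])⁻¹)
      (Or.inl rfl) (hc _) (u := ut N (1 / 10)) (by simp [ut]) (by simp [ut, mul_comm])
      (ut_unit N _) hv huv hdet
    have h1 : ‖ut N (1 / 10) + v‖ ≤ 6 / 5 := by
      have e0 : ut N (1 / 10) 0 = (N.1 ![1, 1 / 10])⁻¹ := by simp [ut]
      have e1 : ut N (1 / 10) 1 = (1 / 10) * (N.1 ![1, 1 / 10])⁻¹ := by simp [ut, mul_comm]
      rw [norm_eq_max, Pi.add_apply, Pi.add_apply, e0, e1]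
      rw [abs_le] at k3
      refine max_le (abs_le.mpr ⟨by linarith, by linarith⟩) (abs_le.mpr ⟨by linarith, by linarith⟩)
    have h2 := (abs_le.mp (hU (ut N (1 / 10) + v))).2
    show N.1 (ut N (1 / 10) + v) ≤ 3 / 2
    linarith
  have hB' : (Icc (1 / 10 : ℝ) (9 / 10) ∩ B).Nonempty := by
    refine ⟨9 / 10, ⟨by norm_num, le_rfl⟩, ?_⟩
    obtain ⟨v, hv, huv, hdet⟩ := exists_partner N (ut_unit N (9 / 10))
    refine ⟨(9 / 10, v), ⟨⟨⟨by norm_num, le_rfl⟩, hv, huv, hdet⟩, ?_⟩, rfl⟩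
    obtain ⟨k1, k2, k3, k4, k5⟩ := near_sup_partner hU (t := 9 / 10) (c := (N.1 ![1, 9 / 10])⁻¹)
      (Or.inr rfl) (hc _) (u := ut N (9 / 10)) (by simp [ut]) (by simp [ut, mul_comm])
      (ut_unit N _) hv huv hdet
    have h1 : 9 / 5 ≤ ‖ut N (9 / 10) + v‖ := by
      have e1 : ut N (9 / 10) 1 = (9 / 10) * (N.1 ![1, 9 / 10])⁻¹ := by simp [ut, mul_comm]
      rw [norm_eq_max, Pi.add_apply, Pi.add_apply, e1]
      refine le_max_of_le_right (le_abs.mpr (Or.inl ?_))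
      linarith
    have h2 := (abs_le.mp (hU (ut N (9 / 10) + v))).1
    show 3 / 2 ≤ N.1 (ut N (9 / 10) + v)
    linarith
  obtain ⟨t, -, hta, htb⟩ := isPreconnected_closed_iff.mp
    (isPreconnected_Icc (a := (1 / 10 : ℝ)) (b := 9 / 10)) A B hAc hBc hcover hA' hB'
  obtain ⟨⟨t1, v⟩, ⟨⟨-, hv, huv, hdet⟩, hle⟩, rfl⟩ := hta
  obtain ⟨⟨t2, v'⟩, ⟨⟨-, hv', huv', hdet'⟩, hge⟩, ht⟩ := htb
  simp only at ht hv huv hdet hle hv' huv' hdet' hge
  subst ht
  have hvv := partner_unique hN (ut_unit N _) hv huv hdet hv' huv' hdet'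
  subst hvv
  refine ⟨ut N t2, v, ut_unit N _, hv, huv, le_antisymm hle hge, ?_⟩
  exact lt_of_le_of_ne hdet (partner_det_ne (ut_unit N _) hv huv).symm

end Pool.Agent.Lib_helper36
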