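import Pool.Agent.Lib_helper67.LR.Defs
import Mathlib.Analysis.SpecialFunctions.BinaryEntropy

/-!
Block ISO: fractional edge-isoperimetric inequality in the cube.
-/

set_option autoImplicit false

namespace Pool.Agent.Lib_helper67.LR

open Finset Pool.Agent.Lib_helper78.LR
open scoped BigOperators

theorem iso_ent (a b : ℕ) (hab : a ≤ b) :
    (a : ℝ) * Real.log a + b * Real.log b + 2 * a * Real.log 2 ≤
      ((a + b : ℕ) : ℝ) * Real.log ((a + b : ℕ) : ℝ) := by
  rcases Nat.eq_zero_or_pos a with rfl | ha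
  · simp
  have haR : (0 : ℝ) < a := by exact_mod_cast ha
  have hbR : (0 : ℝ) < b := by exact_mod_cast (lt_of_lt_of_le ha hab)
  have habR : (a : ℝ) ≤ b := by exact_mod_cast hab
  push_cast
  set n : ℝ := (a : ℝ) + b with hn
  have hn0 : 0 < n := by positivity
  set p : ℝ := a / n with hp
  have hp0 : 0 ≤ p := by positivity
  have hp1 : 2 * p ≤ 1 := by
    rw [hp, mul_div_assoc', div_le_one hn0]
    linarith
  have hconc := Real.strictConcave_binEntropy.concaveOn
  have h1 := hconc.2 (show (0 : ℝ) ∈ Set.Icc (0 : ℝ) 1 by simp)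
    (show (2⁻¹ : ℝ) ∈ Set.Icc (0 : ℝ) 1 by constructor <;> norm_num)
    (show 0 ≤ 1 - 2 * p by linarith) (show 0 ≤ 2 * p by linarith) (by ring)
  simp only [Real.binEntropy_zero, smul_eq_mul, mul_zero, zero_add, Real.binEntropy_two_inv] at h1
  have h2 : 2 * p * 2⁻¹ = p := by ring
  rw [h2] at h1
  have h3 : n * Real.binEntropy p = n * Real.log n - a * Real.log a - b * Real.log b := by
    unfold Real.binEntropy
    have e1 : (1 : ℝ) - p = b / n := by
      rw [hp]; field_simp; rw [hn]; ring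
    rw [e1, hp, inv_div, inv_div, Real.log_div hn0.ne' haR.ne', Real.log_div hn0.ne' hbR.ne']
    field_simp
    rw [hn]; ring
  have h4 : n * (2 * p * Real.log 2) ≤ n * Real.binEntropy p :=
    mul_le_mul_of_nonneg_left h1 hn0.le
  have h5 : n * (2 * p * Real.log 2) = 2 * a * Real.log 2 := by
    rw [hp]; field_simp
  linarith [h4, h5, h3]

theorem iso_ent' (a b : ℕ) :
    (a : ℝ) * Real.log a + b * Real.log b + 2 * (min a b : ℕ) * Real.log 2 ≤
      ((a + b : ℕ) : ℝ) * Real.log ((a + b : ℕ) : ℝ) := by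
  rcases le_total a b with h | h
  · rw [min_eq_left h]; exact iso_ent a b h
  · rw [min_eq_right h]
    have := iso_ent b a h
    rw [add_comm b a] at this
    linarith

theorem iso_split {ι : Type} [DecidableEq ι] (X : Finset ι) (p : ι → Prop) [DecidablePred p]
    (w : ι → ι → ℝ) :
    ∑ x ∈ X, ∑ y ∈ X, w x y =
      (∑ x ∈ X with p x, ∑ y ∈ X with p y, w x y) +
      (∑ x ∈ X with ¬ p x, ∑ y ∈ X with ¬ p y, w x y) +
      ((∑ x ∈ X with p x, ∑ y ∈ X with ¬ p y, w x y) +
      (∑ x ∈ X with ¬ p x, ∑ y ∈ X with p y, w x y)) := by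
  have h1 : ∀ x, ∑ y ∈ X, w x y = (∑ y ∈ X with p y, w x y) + ∑ y ∈ X with ¬ p y, w x y :=
    fun x => (Finset.sum_filter_add_sum_filter_not X p (w x)).symm
  simp_rw [h1]
  rw [← Finset.sum_filter_add_sum_filter_not X p, Finset.sum_add_distrib,
    Finset.sum_add_distrib]
  ring

theorem iso_aux {ι L : Type} [DecidableEq ι] [DecidableEq L]
    (Φ : ι → L → ZMod 2) (w : L → ι → ι → ℝ) (hw : ∀ l x y, 0 ≤ w l x y)
    (hsupp : ∀ l x y, w l x y ≠ 0 → ∀ l', Φ x l' + Φ y l' = if l' = l then 1 else 0)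
    (hdeg : ∀ l (X : Finset ι) x, ∑ y ∈ X, (w l x y + w l y x) ≤ 1) (T : Finset L) :
    ∀ X : Finset ι, (∑ l ∈ T, ∑ x ∈ X, ∑ y ∈ X, w l x y) * (2 * Real.log 2) ≤
      (X.card : ℝ) * Real.log X.card := by
  classical
  induction T using Finset.induction_on with
  | empty =>
    intro X
    simp only [Finset.sum_empty, zero_mul]
    exact mul_nonneg (Nat.cast_nonneg _) (Real.log_natCast_nonneg _)
  | insert l₀ T hl ih =>
    intro X
    set p : ι → Prop := fun x => Φ x l₀ = 0 with hp
    set X0 := X.filter p with hX0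
    set X1 := X.filter (fun x => ¬ p x) with hX1
    have hcard : X0.card + X1.card = X.card := Finset.card_filter_add_card_filter_not p
    have hne : ∀ x, ¬ p x → Φ x l₀ = 1 := by
      intro x hx
      have : ∀ z : ZMod 2, z ≠ 0 → z = 1 := by decide
      exact this _ hx
    -- colours in `T`
    have hT : ∀ l ∈ T, ∑ x ∈ X, ∑ y ∈ X, w l x y =
        (∑ x ∈ X0, ∑ y ∈ X0, w l x y) + ∑ x ∈ X1, ∑ y ∈ X1, w l x y := by
      intro l hlT
      have hll : l₀ ≠ l := fun h => hl (h ▸ hlT)
      rw [iso_split X p (w l)]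
      have c1 : ∑ x ∈ X with p x, ∑ y ∈ X with ¬ p y, w l x y = 0 := by
        refine Finset.sum_eq_zero fun x hx => Finset.sum_eq_zero fun y hy => ?_
        by_contra h
        have := hsupp l x y h l₀
        rw [if_neg hll, (Finset.mem_filter.1 hx).2, hne y (Finset.mem_filter.1 hy).2] at this
        exact absurd this (by decide)
      have c2 : ∑ x ∈ X with ¬ p x, ∑ y ∈ X with p y, w l x y = 0 := by
        refine Finset.sum_eq_zero fun x hx => Finset.sum_eq_zero fun y hy => ?_
        by_contra h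
        have := hsupp l x y h l₀
        rw [if_neg hll, (Finset.mem_filter.1 hy).2, hne x (Finset.mem_filter.1 hx).2] at this
        exact absurd this (by decide)
      rw [c1, c2, add_zero, add_zero]
    have h0 : ∑ x ∈ X, ∑ y ∈ X, w l₀ x y =
        (∑ x ∈ X0, ∑ y ∈ X1, w l₀ x y) + ∑ x ∈ X1, ∑ y ∈ X0, w l₀ x y := by
      rw [iso_split X p (w l₀)]
      have c1 : ∑ x ∈ X with p x, ∑ y ∈ X with p y, w l₀ x y = 0 := by
        refine Finset.sum_eq_zero fun x hx => Finset.sum_eq_zero fun y hy => ?_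
        by_contra h
        have := hsupp l₀ x y h l₀
        rw [if_pos rfl, (Finset.mem_filter.1 hx).2, (Finset.mem_filter.1 hy).2] at this
        exact absurd this (by decide)
      have c2 : ∑ x ∈ X with ¬ p x, ∑ y ∈ X with ¬ p y, w l₀ x y = 0 := by
        refine Finset.sum_eq_zero fun x hx => Finset.sum_eq_zero fun y hy => ?_
        by_contra h
        have := hsupp l₀ x y h l₀
        rw [if_pos rfl, hne x (Finset.mem_filter.1 hx).2, hne y (Finset.mem_filter.1 hy).2] at this
        exact absurd this (by decide)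
      rw [c1, c2, add_zero, zero_add]
    have hA : ∑ x ∈ X, ∑ y ∈ X, w l₀ x y ≤ X0.card := by
      rw [h0, Finset.sum_comm (s := X1) (t := X0), ← Finset.sum_add_distrib]
      calc ∑ x ∈ X0, (∑ y ∈ X1, w l₀ x y + ∑ y ∈ X1, w l₀ y x)
          = ∑ x ∈ X0, ∑ y ∈ X1, (w l₀ x y + w l₀ y x) := by
            simp_rw [Finset.sum_add_distrib]
        _ ≤ ∑ x ∈ X0, (1 : ℝ) := Finset.sum_le_sum fun x _ => hdeg l₀ X1 x
        _ = X0.card := by simp
    have hB : ∑ x ∈ X, ∑ y ∈ X, w l₀ x y ≤ X1.card := by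
      rw [h0, Finset.sum_comm (s := X0) (t := X1), add_comm, ← Finset.sum_add_distrib]
      calc ∑ x ∈ X1, (∑ y ∈ X0, w l₀ x y + ∑ y ∈ X0, w l₀ y x)
          = ∑ x ∈ X1, ∑ y ∈ X0, (w l₀ x y + w l₀ y x) := by
            simp_rw [Finset.sum_add_distrib]
        _ ≤ ∑ x ∈ X1, (1 : ℝ) := Finset.sum_le_sum fun x _ => hdeg l₀ X0 x
        _ = X1.card := by simp
    have hC : ∑ x ∈ X, ∑ y ∈ X, w l₀ x y ≤ ((min X0.card X1.card : ℕ) : ℝ) := by
      rw [Nat.cast_min]; exact le_min hA hB
    rw [Finset.sum_insert hl, Finset.sum_congr rfl hT, Finset.sum_add_distrib]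
    have i0 := ih X0
    have i1 := ih X1
    have he := iso_ent' X0.card X1.card
    rw [hcard] at he
    have hlog : 0 < Real.log 2 := Real.log_pos (by norm_num)
    have hC' := mul_le_mul_of_nonneg_right hC (show (0 : ℝ) ≤ 2 * Real.log 2 by positivity)
    linarith

theorem iso_energy {ι L : Type} [Fintype ι] [Fintype L] [DecidableEq L]
    (Φ : ι → L → ZMod 2) (A : L → ι → ι → ℝ) (hA : ∀ l x y, 0 ≤ A l x y)
    (hsupp : ∀ l x y, A l x y ≠ 0 → ∀ l', Φ x l' + Φ y l' = if l' = l then 1 else 0) :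
    ∑ l, (∑ x, ∑ y, A l x y) ^ 2 / (∑ x, (∑ y, (A l x y + A l y x)) ^ 2) ≤
      (Fintype.card ι : ℝ) * Real.logb 2 (Fintype.card ι) / 2 := by
  classical
  set d : L → ι → ℝ := fun l x => ∑ y, (A l x y + A l y x) with hd
  have hd0 : ∀ l x, 0 ≤ d l x := fun l x =>
    Finset.sum_nonneg fun y _ => add_nonneg (hA l x y) (hA l y x)
  have hAd : ∀ l x y, A l x y ≤ d l x := by
    intro l x y
    have h1 : A l x y + A l y x ≤ d l x :=
      Finset.single_le_sum (f := fun y => A l x y + A l y x)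
        (fun y _ => add_nonneg (hA l x y) (hA l y x)) (Finset.mem_univ y)
    linarith [hA l y x]
  have hAd' : ∀ l x y, A l x y ≤ d l y := by
    intro l x y
    have h1 : A l y x + A l x y ≤ d l y :=
      Finset.single_le_sum (f := fun z => A l y z + A l z y)
        (fun z _ => add_nonneg (hA l y z) (hA l z y)) (Finset.mem_univ x)
    linarith [hA l y x]
  set w : L → ι → ι → ℝ := fun l x y => A l x y / (d l x + d l y) with hw
  have hw0 : ∀ l x y, 0 ≤ w l x y := fun l x y =>
    div_nonneg (hA l x y) (add_nonneg (hd0 l x) (hd0 l y))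
  have hws : ∀ l x y, w l x y ≠ 0 → ∀ l', Φ x l' + Φ y l' = if l' = l then 1 else 0 := by
    intro l x y h
    refine hsupp l x y ?_
    intro h0
    exact h (by simp [hw, h0])
  have hdeg : ∀ l (X : Finset ι) x, ∑ y ∈ X, (w l x y + w l y x) ≤ 1 := by
    intro l X x
    have hle : ∀ y, w l x y + w l y x ≤ (A l x y + A l y x) / d l x := by
      intro y
      have e : w l x y + w l y x = (A l x y + A l y x) / (d l x + d l y) := by
        simp only [hw]
        rw [add_comm (d l y) (d l x), ← add_div]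
      rw [e]
      rcases eq_or_lt_of_le (hd0 l x) with h0 | h0
      · have a1 : A l x y = 0 := le_antisymm (by rw [h0]; exact hAd l x y) (hA l x y)
        have a2 : A l y x = 0 := le_antisymm (by rw [h0]; exact hAd' l y x) (hA l y x)
        simp [a1, a2]
      · exact div_le_div_of_nonneg_left (add_nonneg (hA l x y) (hA l y x)) h0
          (by linarith [hd0 l y])
    calc ∑ y ∈ X, (w l x y + w l y x) ≤ ∑ y ∈ X, (A l x y + A l y x) / d l x :=
          Finset.sum_le_sum fun y _ => hle y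
      _ ≤ ∑ y, (A l x y + A l y x) / d l x :=
          Finset.sum_le_sum_of_subset_of_nonneg (Finset.subset_univ _) fun y _ _ =>
            div_nonneg (add_nonneg (hA l x y) (hA l y x)) (hd0 l x)
      _ = d l x / d l x := by rw [← Finset.sum_div]
      _ ≤ 1 := div_self_le_one _
  have haux := iso_aux Φ w hw0 hws hdeg Finset.univ Finset.univ
  -- Cauchy-Schwarz
  have hcs : ∀ l, (∑ x, ∑ y, A l x y) ^ 2 / (∑ x, (∑ y, (A l x y + A l y x)) ^ 2) ≤
      ∑ x, ∑ y, w l x y := by
    intro l
    have hS : ∑ x, (∑ y, (A l x y + A l y x)) ^ 2 = ∑ x, d l x ^ 2 := rfl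
    rw [hS]
    have hWn : 0 ≤ ∑ x, ∑ y, w l x y :=
      Finset.sum_nonneg fun x _ => Finset.sum_nonneg fun y _ => hw0 l x y
    have hSn : 0 ≤ ∑ x, d l x ^ 2 := Finset.sum_nonneg fun x _ => sq_nonneg _
    have key : (∑ x, ∑ y, A l x y) ^ 2 ≤ (∑ x, ∑ y, w l x y) * ∑ x, d l x ^ 2 := by
      have e2 : ∑ x, d l x ^ 2 = ∑ x, ∑ y, A l x y * (d l x + d l y) := by
        have : ∀ x, d l x ^ 2 = ∑ y, (A l x y * d l x + A l y x * d l x) := by
          intro x
          rw [sq]
          conv_lhs => rw [show d l x * d l x = (∑ y, (A l x y + A l y x)) * d l x from rfl]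
          rw [Finset.sum_mul]
          refine Finset.sum_congr rfl fun y _ => by ring
        simp_rw [this, Finset.sum_add_distrib, mul_add, Finset.sum_add_distrib]
        congr 1
        rw [Finset.sum_comm]
      rw [e2, ← Finset.sum_product', ← Finset.sum_product', ← Finset.sum_product']
      refine Finset.sum_sq_le_sum_mul_sum_of_sq_eq_mul _ (fun z _ => hw0 l z.1 z.2)
        (fun z _ => mul_nonneg (hA l z.1 z.2) (add_nonneg (hd0 l z.1) (hd0 l z.2))) ?_
      intro z _
      rcases eq_or_lt_of_le (hA l z.1 z.2) with h0 | h0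
      · simp [hw, ← h0]
      · have : 0 < d l z.1 + d l z.2 := by
          have := hAd l z.1 z.2
          linarith [hd0 l z.2]
        simp only [hw]
        field_simp
    rcases eq_or_lt_of_le hSn with h0 | h0
    · rw [← h0, div_zero]; exact hWn
    · rw [div_le_iff₀ h0]; exact key
  have hlog : 0 < Real.log 2 := Real.log_pos (by norm_num)
  have hsum : ∑ l, (∑ x, ∑ y, A l x y) ^ 2 / (∑ x, (∑ y, (A l x y + A l y x)) ^ 2) ≤
      ∑ l, ∑ x, ∑ y, w l x y := Finset.sum_le_sum fun l _ => hcs l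
  refine hsum.trans ?_
  rw [Finset.card_univ] at haux
  rw [Real.logb, mul_div_assoc', div_div, le_div_iff₀ (by positivity)]
  linarith

end Pool.Agent.Lib_helper67.LR
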