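import Pool.Agent.Lib_helper67.LR.Defs

/-!
Block RS: restrictions to affine subspaces and minimal counterexamples.
-/

set_option autoImplicit false

namespace Pool.Agent.Lib_helper67.LR

open Finset Pool.Agent.Lib_helper78.LR
open scoped BigOperators

theorem sg_eq_one_iff (a : ZMod 2) : sg a = 1 ↔ a = 0 := by
  unfold sg
  by_cases h : a = 0
  · simp [h]
  · simp only [h, if_false, iff_false]; norm_num

theorem chi_eq_one_iff {Ω : Type} [Fintype Ω] (a z : G Ω) :
    chi a z = 1 ↔ dotProduct a z = 0 := by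
  unfold chi
  rw [sg_eq_one_iff]; rfl

theorem exists_restriction {Ω : Type} [Fintype Ω] [DecidableEq Ω] (T : Finset (G Ω)) :
    ∃ ψ π : G Ω →ₗ[ZMod 2] G Ω, (∀ a x, chi a (π x) = chi (ψ a) x) ∧
      (∀ a, ψ a = 0 ↔ a ∈ Submodule.span (ZMod 2) (T : Set (G Ω))) ∧
      (∀ z, (∀ a ∈ T, chi a z = 1) → π z = z) := by
  -- the orthogonal complement of `T`
  let P : Submodule (ZMod 2) (G Ω) :=
    { carrier := {z | ∀ a ∈ T, dotProduct a z = 0}
      add_mem' := by
        intro x y hx hy a ha
        rw [dotProduct_add, hx a ha, hy a ha, add_zero]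
      zero_mem' := by
        intro a _
        exact dotProduct_zero a
      smul_mem' := by
        intro c x hx a ha
        rw [dotProduct_smul, hx a ha, smul_zero] }
  have hP : ∀ z, z ∈ P ↔ ∀ a ∈ T, dotProduct a z = 0 := fun z => Iff.rfl
  obtain ⟨Q, hPQ⟩ := Submodule.exists_isCompl P
  set π : G Ω →ₗ[ZMod 2] G Ω := P.projection Q hPQ with hπ
  set M : Matrix Ω Ω (ZMod 2) := LinearMap.toMatrix' π with hM
  set ψ : G Ω →ₗ[ZMod 2] G Ω := Matrix.toLin' M.transpose with hψ
  have hdual : ∀ a x, dotProduct a (π x) = dotProduct (ψ a) x := by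
    intro a x
    have e1 : π x = M.mulVec x := by
      rw [hM, LinearMap.toMatrix'_mulVec]
    rw [e1, hψ, Matrix.toLin'_apply, Matrix.mulVec_transpose, Matrix.dotProduct_mulVec]
  refine ⟨ψ, π, ?_, ?_, ?_⟩
  · intro a x
    have := hdual a x
    unfold chi
    exact congrArg sg this
  · intro a
    constructor
    · intro h0
      by_contra hcon
      obtain ⟨f, hf, hf'⟩ := Submodule.exists_dual_map_eq_bot_of_notMem hcon inferInstance
      set z : G Ω := fun ω => f (Pi.single ω 1) with hz
      have hfz : ∀ b, f b = dotProduct b z := by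
        intro b
        conv_lhs => rw [pi_eq_sum_univ' b]
        rw [map_sum]
        unfold dotProduct
        refine Finset.sum_congr rfl fun ω _ => ?_
        rw [map_smul, smul_eq_mul]
      have hzP : z ∈ P := by
        rw [hP]
        intro b hb
        rw [← hfz]
        have : f b ∈ Submodule.map f (Submodule.span (ZMod 2) (T : Set (G Ω))) :=
          Submodule.mem_map_of_mem (Submodule.subset_span hb)
        rw [hf'] at this
        simpa using this
      have hπz : π z = z := by
        rw [hπ]; exact Submodule.projection_apply_of_mem_left hPQ hzP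
      have := hdual a z
      rw [h0, hπz, zero_dotProduct, ← hfz] at this
      exact hf this
    · intro ha
      have hT : ∀ b ∈ Submodule.span (ZMod 2) (T : Set (G Ω)), ∀ z ∈ P, dotProduct b z = 0 := by
        intro b hb z hz
        induction hb using Submodule.span_induction with
        | mem x hx => exact (hP z).1 hz x hx
        | zero => exact zero_dotProduct z
        | add x y _ _ hx hy => rw [add_dotProduct, hx, hy, add_zero]
        | smul c x _ hx => rw [smul_dotProduct, hx, smul_zero]
      funext ω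
      have h1 := hdual a (Pi.single ω 1)
      rw [hT a ha _ (Submodule.projection_apply_mem hPQ _), dotProduct_single, mul_one] at h1
      exact h1.symm
  · intro z hz
    have hzP : z ∈ P := (hP z).2 fun a ha => (chi_eq_one_iff a z).1 (hz a ha)
    rw [hπ]; exact Submodule.projection_apply_of_mem_left hPQ hzP

theorem nc_restriction {Ω : Type} [Fintype Ω] [DecidableEq Ω] (f : G Ω → ℝ)
    (ψ π : G Ω →ₗ[ZMod 2] G Ω) (h : ∀ a x, chi a (π x) = chi (ψ a) x) (x₀ β : G Ω) :
    nc (fun x => f (x₀ + π x)) β = ∑ α with ψ α = β, nc f α * chi α x₀ := by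
  have h2 : (2 : ℝ) ^ Fintype.card Ω ≠ 0 := by positivity
  have hinv : ∀ y, f y = ∑ α, nc f α * chi α y := by
    intro y
    have := inversion f y
    unfold nc
    rw [eq_comm]
    calc ∑ α, coef f α / 2 ^ Fintype.card Ω * chi α y
        = (∑ α, coef f α * chi α y) / 2 ^ Fintype.card Ω := by
          rw [Finset.sum_div]
          exact Finset.sum_congr rfl fun α _ => by ring
      _ = f y := by rw [this]; field_simp
  have horth : ∀ γ : G Ω, ∑ x, chi γ x * chi β x =
      if γ = β then (2 : ℝ) ^ Fintype.card Ω else 0 := by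
    intro γ
    have e : ∀ x, chi γ x * chi β x = chi x (γ + β) := by
      intro x; rw [chi_add, chi_comm x γ, chi_comm x β]
    simp_rw [e]
    rw [sum_chi]
    by_cases hγ : γ = β
    · rw [hγ, add_self]; simp
    · have : γ + β ≠ 0 := by
        intro h0
        apply hγ
        have := eq_neg_of_add_eq_zero_left h0
        rw [this, Lib_helper78.LR.neg_eq_self]
      simp [this, hγ]
  have hcoef : coef (fun x => f (x₀ + π x)) β =
      (∑ α with ψ α = β, nc f α * chi α x₀) * 2 ^ Fintype.card Ω := by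
    unfold coef
    have e1 : ∀ x, f (x₀ + π x) * chi β x =
        ∑ α, (nc f α * chi α x₀) * (chi (ψ α) x * chi β x) := by
      intro x
      rw [hinv (x₀ + π x), Finset.sum_mul]
      refine Finset.sum_congr rfl fun α _ => ?_
      rw [chi_add, h]; ring
    rw [Finset.sum_congr rfl (fun x _ => e1 x), Finset.sum_comm]
    simp_rw [← Finset.mul_sum, horth]
    rw [Finset.sum_mul, Finset.sum_filter]
    refine Finset.sum_congr rfl fun α _ => ?_
    split_ifs <;> simp
  unfold nc at hcoef ⊢
  rw [hcoef]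
  field_simp

theorem spread_of_minimal {Ω : Type} [Fintype Ω] [DecidableEq Ω] (A κ : ℝ) (hκ0 : 0 < κ)
    (hκ1 : κ < 1) (hA : 1 ≤ A * κ) (f : G Ω → ℝ) (hf : IsSign f)
    (ih : ∀ g : G Ω → ℝ, IsSign g → (spec g).card < (spec f).card →
      Kill g (A * ((spec g).card : ℝ) ^ κ))
    (hn : ¬ Kill f (A * ((spec f).card : ℝ) ^ κ)) :
    Spread (spec f) (2 * ((spec f).card : ℝ) ^ (1 - κ)) := by
  classical
  intro T
  by_contra hcon
  push Not at hcon
  apply hn
  set S := spec f with hS
  set Bd := Bad S T with hBd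
  have hA0 : 0 < A := by
    by_contra h
    push Not at h
    have : A * κ ≤ 0 := mul_nonpos_of_nonpos_of_nonneg h hκ0.le
    linarith
  have hBdpos : 0 < Bd.card := by
    have : (0 : ℝ) < Bd.card := lt_of_le_of_lt (by positivity) hcon
    exact_mod_cast this
  have hBdS : Bd ⊆ S := fun β hβ => ((mem_Bad S T β).1 hβ).1
  have hSpos : 0 < S.card := lt_of_lt_of_le hBdpos (Finset.card_le_card hBdS)
  obtain ⟨ψ, π, hψπ, hker, hfix⟩ := exists_restriction T
  set g : G Ω → ℝ := fun x => f (0 + π x) with hg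
  have hgs : IsSign g := fun x => hf _
  -- the spectrum of `g`
  have hspec : spec g ⊆ S.image ψ := by
    intro β hβ
    rw [mem_spec] at hβ
    have h1 := nc_restriction f ψ π hψπ 0 β
    have h2 : nc g β ≠ 0 := by
      unfold nc
      exact div_ne_zero hβ (by positivity)
    rw [show nc g β = nc (fun x => f (0 + π x)) β from rfl, h1] at h2
    obtain ⟨α, hα, hα'⟩ := Finset.exists_ne_zero_of_sum_ne_zero h2
    rw [Finset.mem_image]
    refine ⟨α, ?_, (Finset.mem_filter.1 hα).2⟩
    rw [hS, mem_spec]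
    intro h0
    apply hα'
    unfold nc
    rw [h0]; simp
  have himg : 2 * (Bd.image ψ).card ≤ Bd.card := by
    refine Finset.mul_card_image_le_card Bd 2 ?_
    intro b hb
    obtain ⟨β, hβ, rfl⟩ := Finset.mem_image.1 hb
    obtain ⟨hβS, β', hβ'S, hne, hsp⟩ := (mem_Bad S T β).1 hβ
    have hβ'B : β' ∈ Bd := by
      rw [hBd, mem_Bad]
      exact ⟨hβ'S, β, hβS, hne.symm, by rw [add_comm]; exact hsp⟩
    have heq : ψ β' = ψ β := by
      have := (hker _).2 hsp
      rw [map_add] at this
      have h3 := eq_neg_of_add_eq_zero_left this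
      rw [Lib_helper78.LR.neg_eq_self] at h3
      exact h3.symm
    have : ({β, β'} : Finset (G Ω)) ⊆ Bd.filter fun a => ψ a = ψ β := by
      intro a ha
      rw [Finset.mem_insert, Finset.mem_singleton] at ha
      rcases ha with rfl | rfl
      · exact Finset.mem_filter.2 ⟨hβ, rfl⟩
      · exact Finset.mem_filter.2 ⟨hβ'B, heq⟩
    calc 2 = ({β, β'} : Finset (G Ω)).card := (Finset.card_pair hne.symm).symm
      _ ≤ _ := Finset.card_le_card this
  have hcard : 2 * (spec g).card + Bd.card ≤ 2 * S.card := by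
    have h1 : S.image ψ ⊆ (S \ Bd).image ψ ∪ Bd.image ψ := by
      intro b hb
      obtain ⟨a, ha, rfl⟩ := Finset.mem_image.1 hb
      rw [Finset.mem_union]
      by_cases hab : a ∈ Bd
      · exact Or.inr (Finset.mem_image_of_mem _ hab)
      · exact Or.inl (Finset.mem_image_of_mem _ (Finset.mem_sdiff.2 ⟨ha, hab⟩))
    have h2 : (spec g).card ≤ (S \ Bd).card + (Bd.image ψ).card :=
      (Finset.card_le_card (hspec.trans h1)).trans
        ((Finset.card_union_le _ _).trans (Nat.add_le_add_right Finset.card_image_le _))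
    have h3 : (S \ Bd).card + Bd.card = S.card := Finset.card_sdiff_add_card_eq_card hBdS
    omega
  have hlt : (spec g).card < S.card := by omega
  obtain ⟨T', x₁, hT', hconst⟩ := ih g hgs hlt
  refine ⟨T ∪ T', 0 + π x₁, ?_, ?_⟩
  · -- the size
    have hsR : (0 : ℝ) < S.card := by exact_mod_cast hSpos
    have hcR : 2 * ((spec g).card : ℝ) + Bd.card ≤ 2 * S.card := by exact_mod_cast hcard
    set s : ℝ := (S.card : ℝ) with hs
    set δ : ℝ := (Bd.card : ℝ) / 2 with hδ
    have hBS : (Bd.card : ℝ) ≤ s := by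
      rw [hs]; exact_mod_cast Finset.card_le_card hBdS
    have hδ0 : 0 ≤ δ := by positivity
    have hδs : δ ≤ s := by rw [hδ]; linarith
    have h1 : ((spec g).card : ℝ) ≤ s - δ := by rw [hδ]; linarith
    have h2 : ((spec g).card : ℝ) ^ κ ≤ (s - δ) ^ κ :=
      Real.rpow_le_rpow (Nat.cast_nonneg _) h1 hκ0.le
    have h3 : (s - δ) ^ κ ≤ s ^ κ - κ * s ^ (κ - 1) * δ := by
      have e : s - δ = s * (1 + -(δ / s)) := by field_simp; ring
      have hb : (1 + -(δ / s)) ^ κ ≤ 1 + κ * -(δ / s) :=
        rpow_one_add_le_one_add_mul_self (by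
          have : δ / s ≤ 1 := (div_le_one hsR).2 hδs
          linarith) hκ0.le hκ1.le
      have hnn : 0 ≤ 1 + -(δ / s) := by
        have : δ / s ≤ 1 := (div_le_one hsR).2 hδs
        linarith
      rw [e, Real.mul_rpow hsR.le hnn]
      calc s ^ κ * (1 + -(δ / s)) ^ κ ≤ s ^ κ * (1 + κ * -(δ / s)) :=
            mul_le_mul_of_nonneg_left hb (Real.rpow_nonneg hsR.le _)
        _ = s ^ κ - κ * s ^ (κ - 1) * δ := by
            rw [Real.rpow_sub_one hsR.ne']
            field_simp
            ring
    have h4 : (T.card : ℝ) ≤ s ^ (κ - 1) * δ := by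
      have h5 : 2 * s ^ (1 - κ) * T.card < Bd.card := hcon
      have h6 : s ^ (1 - κ) * s ^ (κ - 1) = 1 := by
        rw [← Real.rpow_add hsR]; simp
      have h7 : 0 < s ^ (κ - 1) := Real.rpow_pos_of_pos hsR _
      have h8 : s ^ (κ - 1) * (2 * s ^ (1 - κ) * T.card) ≤ s ^ (κ - 1) * Bd.card :=
        mul_le_mul_of_nonneg_left h5.le h7.le
      have h9 : s ^ (κ - 1) * (2 * s ^ (1 - κ) * T.card) = 2 * T.card := by
        calc s ^ (κ - 1) * (2 * s ^ (1 - κ) * T.card)
            = 2 * (s ^ (1 - κ) * s ^ (κ - 1)) * T.card := by ring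
          _ = 2 * T.card := by rw [h6]; ring
      rw [hδ]
      linarith
    have h10 : s ^ (κ - 1) * δ ≤ A * (κ * s ^ (κ - 1) * δ) := by
      have h7 : 0 ≤ s ^ (κ - 1) * δ := mul_nonneg (Real.rpow_nonneg hsR.le _) hδ0
      nlinarith
    calc ((T ∪ T').card : ℝ) ≤ T.card + T'.card := by
          exact_mod_cast Finset.card_union_le _ _
      _ ≤ s ^ (κ - 1) * δ + A * ((spec g).card : ℝ) ^ κ := add_le_add h4 hT'
      _ ≤ A * (κ * s ^ (κ - 1) * δ) + A * (s ^ κ - κ * s ^ (κ - 1) * δ) :=
          add_le_add h10 (mul_le_mul_of_nonneg_left (h2.trans h3) hA0.le)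
      _ = A * s ^ κ := by ring
  · -- constancy
    intro y hy
    set y₀ : G Ω := 0 + π x₁ with hy₀
    set z : G Ω := y₀ + y with hz
    have hyz : y = y₀ + z := by
      rw [hz, ← add_assoc, add_self, zero_add]
    have hchi : ∀ a ∈ T ∪ T', chi a z = 1 := by
      intro a ha
      rw [hz, chi_add, hy a ha]
      exact chi_mul_self a y₀
    have hπz : π z = z := hfix z fun a ha => hchi a (Finset.mem_union_left _ ha)
    have hg1 : g (x₁ + z) = g x₁ := by
      refine hconst (x₁ + z) fun a ha => ?_
      rw [chi_add, hchi a (Finset.mem_union_right _ ha), mul_one]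
    have e1 : g (x₁ + z) = f y := by
      simp only [hg]
      rw [map_add, hπz, hyz, hy₀, add_assoc]
    have e2 : g x₁ = f y₀ := rfl
    rw [← e1, hg1, e2]

end Pool.Agent.Lib_helper67.LR
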