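import Pool.Agent.Lib_helper36.TMComp
import Pool.Prelude.Def_H_3587d628

set_option autoImplicit false

namespace Pool.Agent.Lib_helper36.TMComp

open N68a2faeb

/-- the polynomial-time functions of the prelude are closed under composition -/
theorem isPolyTime_comp {α β γ : Type} [N487b59b3 α] [N487b59b3 β] [N487b59b3 γ]
    {f : α → β} {g : β → γ} (hf : IsPolyTime f) (hg : IsPolyTime g) : IsPolyTime (g ∘ f) := by
  obtain ⟨hf⟩ := hf
  obtain ⟨hg⟩ := hg
  exact comp_polyTime hf hg

/-- `P` is closed under polynomial-time many-one reductions -/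
theorem mem_P_of_reduction {L : DecisionProblem} {f : List Bool → List Bool}
    {D : List Bool → Bool} (hf : IsPolyTime f) (hD : D ∈ P) (h : ∀ x, L x = D (f x)) : L ∈ P := by
  have : L = D ∘ f := funext h
  rw [this]
  exact isPolyTime_comp hf hD

end Pool.Agent.Lib_helper36.TMComp
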