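import Pool.Agent.Lib_helper57.PolyTime
import Pool.Agent.Lib_helper36.PolyComp

/-!
# Comparing the numbers of ones and zeros of a word is in `P`
-/

set_option autoImplicit false
set_option linter.unusedSimpArgs false

open Pool.Agent.Lib57
open Function (update)

namespace Pool.Agent.Lib_helper36.Majority

/-- a store with five registers -/
def st (x0 x1 x2 x3 x4 : List Bool) : Store
  | 0 => x0
  | 1 => x1
  | 2 => x2
  | 3 => x3
  | 4 => x4
  | _ => []

section upd

variable (x0 x1 x2 x3 x4 l : List Bool)

lemma upd0 : update (st x0 x1 x2 x3 x4) 0 l = st l x1 x2 x3 x4 := by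
  funext i
  rcases i with _ | _ | _ | _ | _ | i <;> simp [Function.update_apply, st]

lemma upd1 : update (st x0 x1 x2 x3 x4) 1 l = st x0 l x2 x3 x4 := by
  funext i
  rcases i with _ | _ | _ | _ | _ | i <;> simp [Function.update_apply, st]

lemma upd2 : update (st x0 x1 x2 x3 x4) 2 l = st x0 x1 l x3 x4 := by
  funext i
  rcases i with _ | _ | _ | _ | _ | i <;> simp [Function.update_apply, st]

lemma upd3 : update (st x0 x1 x2 x3 x4) 3 l = st x0 x1 x2 l x4 := by
  funext i
  rcases i with _ | _ | _ | _ | _ | i <;> simp [Function.update_apply, st]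

lemma upd4 : update (st x0 x1 x2 x3 x4) 4 l = st x0 x1 x2 x3 l := by
  funext i
  rcases i with _ | _ | _ | _ | _ | i <;> simp [Function.update_apply, st]

end upd

/-- counting loop -/
def bodyP : Prog :=
  .seq (.pop 0) (.seq (.case 0 .skip (.push 1 true) (.push 2 true)) (.seq (.pop 0) (.pop 0)))

/-- comparison loop -/
def cmpP : Prog := .seq (.pop 2) (.case 1 (.push 3 true) .skip (.pop 1))

/-- the program -/
def majP : Prog :=
  .seq (.loop 0 bodyP) (.seq (.loop 2 cmpP)
    (.seq (.case 3 (.push 4 true) .skip (.push 4 false)) (.seq (clearP 1) (clearP 3))))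

lemma bodyP_exec (b : Bool) (s : List Bool) (m n : ℕ) :
    ExecLe bodyP (st (tri (b :: s)) (un m) (un n) [] [])
      (st (tri s) (un (m + if b then 0 else 1)) (un (n + if b then 1 else 0)) [] []) 9 := by
  have h1 : ExecLe (.pop 0) (st (tri (b :: s)) (un m) (un n) [] [])
      (st (b :: false :: tri s) (un m) (un n) [] []) 1 := by
    refine (ExecLe.pop 0 _).congr ?_
    rw [upd0]
    simp [st, tri_cons]
  have h3 : ∀ m n, ExecLe (.seq (.pop 0) (.pop 0)) (st (b :: false :: tri s) (un m) (un n) [] [])
      (st (tri s) (un m) (un n) [] []) 3 := by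
    intro m n
    refine ((ExecLe.pop 0 _).seq (ExecLe.pop 0 _)).congr ?_
    simp only [upd0]
    simp [st]
  cases b with
  | false =>
    have h2 : ExecLe (.case 0 .skip (.push 1 true) (.push 2 true))
        (st (false :: false :: tri s) (un m) (un n) [] [])
        (st (false :: false :: tri s) (un (m + 1)) (un n) [] []) 2 := by
      refine (ExecLe.case_false (by simp [st]) (ExecLe.push 1 true _)).congr ?_
      rw [upd1]
      simp [st, List.replicate_succ]
    refine (h1.seq (h2.seq (h3 (m + 1) n))).mono (by omega)
  | true =>
    have h2 : ExecLe (.case 0 .skip (.push 1 true) (.push 2 true))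
        (st (true :: false :: tri s) (un m) (un n) [] [])
        (st (true :: false :: tri s) (un m) (un (n + 1)) [] []) 2 := by
      refine (ExecLe.case_true (by simp [st]) (ExecLe.push 2 true _)).congr ?_
      rw [upd2]
      simp [st, List.replicate_succ]
    refine (h1.seq (h2.seq (h3 m (n + 1)))).mono (by omega)

lemma ExecLe.loop_cons {r : ℕ} {p : Prog} {σ σ1 σ2 : Store} {T1 T2 : ℕ} (h : σ r ≠ [])
    (h1 : ExecLe p σ σ1 T1) (h2 : ExecLe (.loop r p) σ1 σ2 T2) :
    ExecLe (.loop r p) σ σ2 (T1 + T2 + 1) := by
  obtain ⟨t1, ht1, he1⟩ := h1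
  obtain ⟨t2, ht2, he2⟩ := h2
  exact ⟨t1 + t2 + 1, by omega, .loop_cons h he1 he2⟩

lemma ExecLe.loop_nil {r : ℕ} {p : Prog} {σ : Store} (h : σ r = []) :
    ExecLe (.loop r p) σ σ 1 := ⟨1, le_rfl, .loop_nil h⟩

lemma loop1_exec (s : List Bool) (m n : ℕ) :
    ExecLe (.loop 0 bodyP) (st (tri s) (un m) (un n) [] [])
      (st [] (un (m + s.count false)) (un (n + s.count true)) [] []) (s.length * 10 + 1) := by
  induction s generalizing m n with
  | nil => exact ExecLe.loop_nil (by simp [st, tri])
  | cons b s ih =>
    have h := ExecLe.loop_cons (by simp [st, tri_cons]) (bodyP_exec b s m n) (ih _ _)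
    refine (h.mono (by simp; omega)).congr ?_
    cases b <;> simp <;> ring_nf

lemma loop2_exec (a m n : ℕ) :
    ExecLe (.loop 2 cmpP) (st [] (un m) (un n) (un a) [])
      (st [] (un (m - n)) [] (un (a + (n - m))) []) (n * 5 + 1) := by
  induction n generalizing a m with
  | zero => exact (ExecLe.loop_nil (by simp [st])).congr (by simp)
  | succ n ih =>
    have h1 : ExecLe (.pop 2) (st [] (un m) (un (n + 1)) (un a) [])
        (st [] (un m) (un n) (un a) []) 1 := by
      refine (ExecLe.pop 2 _).congr ?_
      rw [upd2]
      simp [st, List.replicate_succ]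
    cases m with
    | zero =>
      have h2 : ExecLe (.case 1 (.push 3 true) .skip (.pop 1)) (st [] (un 0) (un n) (un a) [])
          (st [] (un 0) (un n) (un (a + 1)) []) 2 := by
        refine (ExecLe.case_nil (by simp [st]) (ExecLe.push 3 true _)).congr ?_
        rw [upd3]
        simp [st, List.replicate_succ]
      have h := ExecLe.loop_cons (by simp [st]) (h1.seq h2) (ih (a + 1) 0)
      refine (h.mono (by omega)).congr ?_
      simp
      ring_nf
    | succ m =>
      have h2 : ExecLe (.case 1 (.push 3 true) .skip (.pop 1))
          (st [] (un (m + 1)) (un n) (un a) []) (st [] (un m) (un n) (un a) []) 2 := by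
        refine (ExecLe.case_true (by simp [st, List.replicate_succ]) (ExecLe.pop 1 _)).congr ?_
        rw [upd1]
        simp [st, List.replicate_succ]
      have h := ExecLe.loop_cons (by simp [st]) (h1.seq h2) (ih a m)
      refine (h.mono (by omega)).congr ?_
      simp

/-- at most as many ones as zeros -/
def maj (s : List Bool) : Bool := decide (s.count true ≤ s.count false)

lemma majP_exec (s : List Bool) :
    ExecLe majP (st (tri s) [] [] [] []) (st [] [] [] [] [maj s]) (s.length * 20 + 20) := by
  have h1 := loop1_exec s 0 0
  have h2 := loop2_exec 0 (s.count false) (s.count true)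
  simp only [Nat.zero_add] at h1 h2
  have hc : s.count false + s.count true = s.length := by
    have := List.count_false_add_count_true s
    omega
  have h3 : ExecLe (.case 3 (.push 4 true) .skip (.push 4 false))
      (st [] (un (s.count false - s.count true)) [] (un (s.count true - s.count false)) [])
      (st [] (un (s.count false - s.count true)) [] (un (s.count true - s.count false)) [maj s])
      2 := by
    by_cases h : s.count true ≤ s.count false
    · have h0 : s.count true - s.count false = 0 := by omega
      refine (ExecLe.case_nil (by simp [st, h0]) (ExecLe.push 4 true _)).congr ?_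
      rw [upd4]
      simp [st, maj, h]
    · obtain ⟨d, hd⟩ : ∃ d, s.count true - s.count false = d + 1 :=
        ⟨s.count true - s.count false - 1, by omega⟩
      refine (ExecLe.case_true (by simp [st, hd, List.replicate_succ])
        (ExecLe.push 4 false _)).congr ?_
      rw [upd4]
      simp [st, maj, h]
  have h4 := clearP_exec 1
    (st [] (un (s.count false - s.count true)) [] (un (s.count true - s.count false)) [maj s])
  rw [upd1] at h4
  have h5 := clearP_exec 3 (st [] [] [] (un (s.count true - s.count false)) [maj s])
  rw [upd3] at h5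
  have h0 : (st (tri s) [] [] [] []) = st (tri s) (un 0) (un 0) [] [] := rfl
  rw [h0]
  refine (h1.seq (h2.seq (h3.seq (h4.seq h5)))).mono ?_
  have e1 : ((st [] (un (s.count false - s.count true)) [] (un (s.count true - s.count false))
    [maj s]) 1).length = s.count false - s.count true := by simp [st]
  have e3 : ((st [] [] [] (un (s.count true - s.count false)) [maj s]) 3).length =
    s.count true - s.count false := by simp [st]
  rw [e1, e3]
  omega

/-- comparing the numbers of ones and zeros is computable in polynomial time -/
theorem maj_mem_P : maj ∈ N68a2faeb.P := by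
  refine computable_of_prog (α := List Bool) (β := Bool) N487b59b3.bitEncode
    N487b59b3.bitEncode _ majP 0 4 (20 * Polynomial.X + 20) ?_
  intro s
  obtain ⟨t, ht, he⟩ := majP_exec s
  refine ⟨t, ht.trans ?_, ?_⟩
  · rw [bitEncode_eq_tri]
    have : s.length ≤ (tri s).length := by
      clear * -
      induction s with
      | nil => simp
      | cons a l ih => rw [tri_cons]; simp; omega
    simp only [Polynomial.eval_add, Polynomial.eval_mul, Polynomial.eval_X,
      Polynomial.eval_ofNat]
    omega
  · convert he using 1
    · rw [bitEncode_eq_tri]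
      funext i
      rcases i with _ | _ | _ | _ | _ | i <;> simp [Function.update_apply, st]
    · funext i
      rcases i with _ | _ | _ | _ | _ | i <;> simp [Function.update_apply, st]
      rfl

end Pool.Agent.Lib_helper36.Majority
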