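import Mathlib

set_option autoImplicit false

open Set Filter Topology

namespace Pool.Agent.Lib_helper36

/-- The space of norms on `ℝ^d`, verbatim as in the frozen statement. -/
abbrev NormSp (d : ℕ) : Type :=
  {f : C(Fin d → ℝ, ℝ) //
              (∀ x, f x = 0 → x = 0) ∧
              (∀ x y, f (x + y) ≤ f x + f y) ∧
              (∀ (c : ℝ) x, f (c • x) = |c| * f x)}

namespace NormSp

variable {d : ℕ} (N : NormSp d)

lemma map_zero : N.1 0 = 0 := by
  have := N.2.2.2 0 0
  simpa using this

lemma map_neg (x : Fin d → ℝ) : N.1 (-x) = N.1 x := by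
  have h2 := N.2.2.2 (-1) x
  simpa using h2

lemma nonneg (x : Fin d → ℝ) : 0 ≤ N.1 x := by
  have h1 := N.2.2.1 x (-x)
  rw [add_neg_cancel, NormSp.map_zero, NormSp.map_neg] at h1
  linarith

lemma pos {x : Fin d → ℝ} (hx : x ≠ 0) : 0 < N.1 x :=
  lt_of_le_of_ne (NormSp.nonneg N x) fun h => hx (N.2.1 x h.symm)

lemma sub_comm' (x y : Fin d → ℝ) : N.1 (x - y) = N.1 (y - x) := by
  rw [← NormSp.map_neg N (x - y), neg_sub]

end NormSp

/-- The closed set of seminorms. -/
abbrev SemiSp (d : ℕ) : Type :=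
  {f : C(Fin d → ℝ, ℝ) // (∀ x y, f (x + y) ≤ f x + f y) ∧ (∀ (c : ℝ) x, f (c • x) = |c| * f x)}

lemma isClosed_semi (d : ℕ) : IsClosed {f : C(Fin d → ℝ, ℝ) |
    (∀ x y, f (x + y) ≤ f x + f y) ∧ (∀ (c : ℝ) x, f (c • x) = |c| * f x)} := by
  simp only [Set.ofPred_and, Set.ofPred_forall]
  refine IsClosed.inter ?_ ?_
  · refine isClosed_iInter fun x => isClosed_iInter fun y => ?_
    exact isClosed_le (continuous_eval_const _)
      ((continuous_eval_const _).add (continuous_eval_const _))
  · refine isClosed_iInter fun c => isClosed_iInter fun x => ?_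
    exact isClosed_eq (continuous_eval_const _)
      (continuous_const.mul (continuous_eval_const _))

instance (d : ℕ) : BaireSpace (SemiSp d) := by
  have h1 : TopologicalSpace.IsCompletelyPseudoMetrizableSpace C(Fin d → ℝ, ℝ) := by
    have : TopologicalSpace.PseudoMetrizableSpace C(Fin d → ℝ, ℝ) := inferInstance
    infer_instance
  have h2 : TopologicalSpace.IsCompletelyPseudoMetrizableSpace (SemiSp d) :=
    (isClosed_semi d).isCompletelyPseudoMetrizableSpace
  infer_instance

/-- inclusion of norms into seminorms -/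
def toSemi (d : ℕ) (N : NormSp d) : SemiSp d := ⟨N.1, N.2.2⟩

lemma isOpenEmbedding_toSemi (d : ℕ) : IsOpenEmbedding (toSemi d) := by
  refine ⟨⟨?_, ?_⟩, ?_⟩
  · have h : IsInducing (fun N : NormSp d => (toSemi d N).1) := IsInducing.subtypeVal
    exact (IsInducing.subtypeVal (t := {f : C(Fin d → ℝ, ℝ) |
      (∀ x y, f (x + y) ≤ f x + f y) ∧ (∀ (c : ℝ) x, f (c • x) = |c| * f x)})).of_comp_iff.mp h
  · intro N M h
    have : (toSemi d N).1 = (toSemi d M).1 := congrArg Subtype.val h
    exact Subtype.ext this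
  · have hr : range (toSemi d) = {f : SemiSp d | MapsTo f.1 (Metric.sphere 0 1) (Ioi 0)} := by
      ext f
      constructor
      · rintro ⟨N, rfl⟩ x hx
        refine NormSp.pos N ?_
        rintro rfl
        simp at hx
      · intro hf
        refine ⟨⟨f.1, ?_, f.2⟩, rfl⟩
        intro x hx
        by_contra hne
        have hn : 0 < ‖x‖ := norm_pos_iff.mpr hne
        have h1 : (‖x‖⁻¹ • x) ∈ Metric.sphere (0 : Fin d → ℝ) 1 := by
          simp [norm_smul, inv_mul_cancel₀ hn.ne']
        have h2 := hf h1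
        rw [f.2.2, hx] at h2
        simp at h2
    rw [hr]
    exact (ContinuousMap.isOpen_setOfPred_mapsTo (isCompact_sphere _ _) isOpen_Ioi).preimage
      continuous_subtype_val

instance (d : ℕ) : BaireSpace (NormSp d) := (isOpenEmbedding_toSemi d).baireSpace

end Pool.Agent.Lib_helper36
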