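import Pool.Agent.Lib_helper36.TreeUltra

set_option autoImplicit false

open scoped NNReal Topology
open Set Filter
open SimpleGraph (Walk Reachable)

namespace Pool.Agent.Lib_helper36

/-- a path along a sequence of consecutively adjacent distinct vertices -/
lemma exists_seq_path {V : Type*} {R : SimpleGraph V} {x : ℕ → V} (hinj : Function.Injective x)
    (i n : ℕ) (hadj : ∀ k, i ≤ k → k < i + n → R.Adj (x k) (x (k + 1))) :
    ∃ p : R.Walk (x i) (x (i + n)), p.IsPath ∧
      ∀ w, w ∈ p.support ↔ ∃ k, i ≤ k ∧ k ≤ i + n ∧ w = x k := by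
  induction n with
  | zero =>
    refine ⟨Walk.nil, by simp, fun w => ?_⟩
    simp only [Walk.support_nil, List.mem_singleton, add_zero]
    constructor
    · rintro rfl; exact ⟨i, le_rfl, le_rfl, rfl⟩
    · rintro ⟨k, h1, h2, rfl⟩
      have : k = i := le_antisymm h2 h1
      rw [this]
  | succ n ih =>
    obtain ⟨p, hp, hs⟩ := ih fun k h1 h2 => hadj k h1 (by omega)
    have hlast : R.Adj (x (i + n)) (x (i + n + 1)) := hadj (i + n) (by omega) (by omega)
    have hnot : x (i + n + 1) ∉ p.support := by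
      rw [hs]
      rintro ⟨k, h1, h2, h3⟩
      have := hinj h3
      omega
    refine ⟨p.concat hlast, hp.concat hnot hlast, fun w => ?_⟩
    rw [Walk.support_concat, List.mem_append, hs, List.mem_singleton]
    constructor
    · rintro (⟨k, h1, h2, rfl⟩ | rfl)
      · exact ⟨k, h1, by omega, rfl⟩
      · exact ⟨i + n + 1, by omega, by omega, rfl⟩
    · rintro ⟨k, h1, h2, rfl⟩
      by_cases hk : k ≤ i + n
      · exact Or.inl ⟨k, h1, hk, rfl⟩
      · right
        have : k = i + n + 1 := by omega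
        rw [this]; rfl

set_option linter.unusedSectionVars false

section RayToTree

variable {X : Type*} [MetricSpace X] [IsUltrametricDist X]

/-- The data extracted from a totally bounded dense subset generated by a labeled ray. -/
structure RayData (y : ℕ → X) (a : ℕ → ℝ≥0) (c : X) : Prop where
  inj : Function.Injective y
  le_dist : ∀ i j k, i < j → i ≤ k → k ≤ j → (a k : ℝ) ≤ dist (y i) (y j)
  dist_eq : ∀ i j, i < j → ∃ k, i ≤ k ∧ k ≤ j ∧ dist (y i) (y j) = a k
  tendsto : Tendsto y atTop (𝓝 c)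
  ne : ∀ i, y i ≠ c
  cover : ∀ z, z = c ∨ ∃ i, z = y i
  small : ∀ ε : ℝ, 0 < ε → {n | ε ≤ a n}.Finite

namespace RayData

variable {y : ℕ → X} {a : ℕ → ℝ≥0} {c : X} (D : RayData y a c)

include D

lemma label_le (i k : ℕ) (hik : i ≤ k) : (a k : ℝ) ≤ dist (y i) c := by
  have h1 : Tendsto (fun j => dist (y i) (y j)) atTop (𝓝 (dist (y i) c)) :=
    tendsto_const_nhds.dist D.tendsto
  refine ge_of_tendsto h1 ?_
  filter_upwards [eventually_gt_atTop k] with j hj
  exact D.le_dist i j k (by omega) hik hj.le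

lemma exists_le (i : ℕ) : ∃ k, i ≤ k ∧ dist (y i) c = a k := by
  have hpos : 0 < dist (y i) c := dist_pos.mpr (D.ne i)
  have h1 : ∀ᶠ j in atTop, dist (y j) c < dist (y i) c :=
    (tendsto_iff_dist_tendsto_zero.mp D.tendsto).eventually_lt_const hpos
  obtain ⟨j, hj1, hj2⟩ := (h1.and (eventually_gt_atTop i)).exists
  obtain ⟨k, hk1, hk2, hk3⟩ := D.dist_eq i j hj2
  refine ⟨k, hk1, le_antisymm ?_ (D.label_le i k hk1)⟩
  rw [← hk3]
  have h2 := dist_triangle_max (y i) (y j) c
  rcases le_total (dist (y i) (y j)) (dist (y j) c) with h | h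
  · rw [max_eq_right h] at h2; linarith
  · rwa [max_eq_left h] at h2

lemma exists_last (i : ℕ) : ∃ m, i ≤ m ∧ (∀ k, m < k → a k < a m) ∧ dist (y i) c = a m := by
  classical
  have hpos : 0 < dist (y i) c := dist_pos.mpr (D.ne i)
  obtain ⟨k0, hk0, hk0'⟩ := D.exists_le i
  have hfin : {k | i ≤ k ∧ dist (y i) c = a k}.Finite := by
    refine (D.small (dist (y i) c) hpos).subset ?_
    rintro k ⟨-, hk⟩
    exact hk.le
  obtain ⟨m, hm1, hm2⟩ := hfin.exists_maximal ⟨k0, hk0, hk0'⟩
  refine ⟨m, hm1.1, fun k hk => ?_, hm1.2⟩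
  have h1 := D.label_le i k (hm1.1.trans hk.le)
  rw [hm1.2] at h1
  rcases lt_or_eq_of_le h1 with h | h
  · exact_mod_cast h
  · exfalso
    have h3 : k ≤ m := hm2 ⟨hm1.1.trans hk.le, hm1.2.trans h.symm⟩ hk.le
    omega

end RayData

/-- cut indices -/
def Cut (a : ℕ → ℝ≥0) (m : ℕ) : Prop := ∀ k, m < k → a k < a m

namespace RayData

open Classical in
/-- index of a point -/
noncomputable def idx (y : ℕ → X) (z : X) : ℕ := if h : ∃ i, z = y i then h.choose else 0

open Classical in
/-- parent function of the tree -/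
noncomputable def par (y : ℕ → X) (a : ℕ → ℝ≥0) (c : X) (z : X) : X :=
  if z = c then c else if Cut a (idx y z) then c else y (idx y z + 1)

open Classical in
/-- labels of the tree -/
noncomputable def lab (y : ℕ → X) (a : ℕ → ℝ≥0) (c : X) (z : X) : ℝ≥0 :=
  if z = c then 0 else a (idx y z)

variable {y : ℕ → X} {a : ℕ → ℝ≥0} {c : X}

lemma lab_c : lab y a c c = 0 := by simp [lab]

variable (D : RayData y a c)

include D

lemma exists_cut (i : ℕ) : ∃ m, i ≤ m ∧ Cut a m := by
  obtain ⟨m, h1, h2, -⟩ := D.exists_last i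
  exact ⟨m, h1, h2⟩

open Classical in
/-- the next cut -/
noncomputable def nc (i : ℕ) : ℕ := Nat.find (D.exists_cut i)

lemma le_nc (i : ℕ) : i ≤ D.nc i := by
  classical
  exact (Nat.find_spec (D.exists_cut i)).1

lemma cut_nc (i : ℕ) : Cut a (D.nc i) := by
  classical
  exact (Nat.find_spec (D.exists_cut i)).2

lemma nc_le {i m : ℕ} (him : i ≤ m) (hm : Cut a m) : D.nc i ≤ m := by
  classical
  exact Nat.find_min' (D.exists_cut i) ⟨him, hm⟩

lemma nc_eq_of_cut {i : ℕ} (hi : Cut a i) : D.nc i = i :=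
  le_antisymm (D.nc_le le_rfl hi) (D.le_nc i)

lemma lt_nc_of_not_cut {i : ℕ} (hi : ¬ Cut a i) : i < D.nc i := by
  refine lt_of_le_of_ne (D.le_nc i) fun h => hi ?_
  have := D.cut_nc i
  rwa [← h] at this

lemma nc_succ {i : ℕ} (hi : ¬ Cut a i) : D.nc (i + 1) = D.nc i :=
  le_antisymm (D.nc_le (D.lt_nc_of_not_cut hi) (D.cut_nc i))
    (D.nc_le ((Nat.le_succ i).trans (D.le_nc (i + 1))) (D.cut_nc (i + 1)))

lemma dist_eq_nc (i : ℕ) : dist (y i) c = a (D.nc i) := by
  obtain ⟨m, h1, h2, h3⟩ := D.exists_last i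
  have h4 : D.nc i ≤ m := D.nc_le h1 h2
  rcases lt_or_eq_of_le h4 with h | h
  · exfalso
    have h5 := D.cut_nc i m h
    have h6 := D.label_le i (D.nc i) (D.le_nc i)
    rw [h3] at h6
    have h7 : (a m : ℝ) < a (D.nc i) := by exact_mod_cast h5
    linarith
  · rw [h, h3]

lemma idx_y (i : ℕ) : idx y (y i) = i := by
  have h : ∃ j, y i = y j := ⟨i, rfl⟩
  unfold idx
  rw [dif_pos h]
  exact (D.inj h.choose_spec).symm

open Classical in
/-- rank function of the tree -/
noncomputable def rk (z : X) : ℕ :=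
  if z = c then 0 else D.nc (idx y z) - idx y z + 1

lemma par_cut {i : ℕ} (hi : Cut a i) : par y a c (y i) = c := by
  simp [par, D.ne i, D.idx_y, hi]

lemma par_not_cut {i : ℕ} (hi : ¬ Cut a i) : par y a c (y i) = y (i + 1) := by
  simp [par, D.ne i, D.idx_y, hi]

lemma rk_y (i : ℕ) : D.rk (y i) = D.nc i - i + 1 := by
  simp [rk, D.ne i, D.idx_y]

lemma lab_y (i : ℕ) : lab y a c (y i) = a i := by
  simp [lab, D.ne i, D.idx_y]

lemma rk_par_lt (z : X) (hz : z ≠ c) : D.rk (par y a c z) < D.rk z := by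
  obtain ⟨i, rfl⟩ := (D.cover z).resolve_left hz
  by_cases hi : Cut a i
  · rw [D.par_cut hi, D.rk_y]
    simp [rk]
  · rw [D.par_not_cut hi, D.rk_y, D.rk_y, D.nc_succ hi]
    have := D.lt_nc_of_not_cut hi
    omega

/-- the tree -/
noncomputable def tree : SimpleGraph X where
  Adj u v := (u ≠ c ∧ par y a c u = v) ∨ (v ≠ c ∧ par y a c v = u)
  symm := ⟨fun _ _ h => h.symm⟩
  loopless := ⟨fun u h => by
    rcases h with ⟨h1, h2⟩ | ⟨h1, h2⟩ <;>
    · have h3 := D.rk_par_lt u h1
      rw [h2] at h3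
      exact lt_irrefl _ h3⟩

lemma parentData : ParentData D.tree c (par y a c) D.rk :=
  ⟨D.rk_par_lt, fun _ _ => Iff.rfl⟩

lemma adj_cut {i : ℕ} (hi : Cut a i) : D.tree.Adj (y i) c := Or.inl ⟨D.ne i, D.par_cut hi⟩

lemma adj_not_cut {i : ℕ} (hi : ¬ Cut a i) : D.tree.Adj (y i) (y (i + 1)) :=
  Or.inl ⟨D.ne i, D.par_not_cut hi⟩

lemma dist_succ (i : ℕ) : dist (y i) (y (i + 1)) = max (a i : ℝ) (a (i + 1)) := by
  apply le_antisymm
  · obtain ⟨k, h1, h2, h3⟩ := D.dist_eq i (i + 1) (by omega)
    rw [h3]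
    rcases (show k = i ∨ k = i + 1 by omega) with rfl | rfl
    · exact le_max_left _ _
    · exact le_max_right _ _
  · exact max_le (D.le_dist i (i + 1) i (by omega) le_rfl (by omega))
      (D.le_dist i (i + 1) (i + 1) (by omega) (by omega) le_rfl)

lemma tree_edge (u v : X) (h : D.tree.Adj u v) :
    dist u v = max (lab y a c u : ℝ) (lab y a c v) := by
  have key : ∀ u v, u ≠ c → par y a c u = v →
      dist u v = max (lab y a c u : ℝ) (lab y a c v) := by
    rintro u v hu rfl
    obtain ⟨i, rfl⟩ := (D.cover u).resolve_left hu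
    by_cases hi : Cut a i
    · rw [D.par_cut hi, D.lab_y, lab_c, D.dist_eq_nc, D.nc_eq_of_cut hi]
      simp
    · rw [D.par_not_cut hi, D.lab_y, D.lab_y, D.dist_succ]
  rcases h with ⟨h1, h2⟩ | ⟨h1, h2⟩
  · exact key u v h1 h2
  · rw [dist_comm, max_comm]
    exact key v u h1 h2

/-- walk from `y i` to the centre inside the ball -/
lemma walk_centre (i : ℕ) : ∃ p : D.tree.Walk (y i) c, ∀ w ∈ p.support, dist (y i) w ≤ dist (y i) c := by
  have gen : ∀ n i, D.nc i - i = n →
      ∃ p : D.tree.Walk (y i) c, ∀ w ∈ p.support, dist (y i) w ≤ dist (y i) c := by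
    intro n
    induction n with
    | zero =>
      intro i hi
      have hc : Cut a i := by
        by_contra hcon
        have := D.lt_nc_of_not_cut hcon
        omega
      refine ⟨Walk.cons (D.adj_cut hc) Walk.nil, fun w hw => ?_⟩
      simp at hw
      rcases hw with rfl | rfl
      · rw [dist_self]; exact dist_nonneg
      · exact le_rfl
    | succ n ih =>
      intro i hi
      have hc : ¬ Cut a i := by
        intro hcon
        have := D.nc_eq_of_cut hcon
        omega
      have h1 := D.nc_succ hc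
      obtain ⟨p, hp⟩ := ih (i + 1) (by omega)
      refine ⟨Walk.cons (D.adj_not_cut hc) p, fun w hw => ?_⟩
      rw [Walk.support_cons, List.mem_cons] at hw
      rcases hw with rfl | hw
      · rw [dist_self]; exact dist_nonneg
      · have h2 := hp w hw
        have h3 : dist (y (i + 1)) c = dist (y i) c := by
          rw [D.dist_eq_nc, D.dist_eq_nc, h1]
        have h4 : dist (y i) (y (i + 1)) ≤ dist (y i) c := by
          rw [D.dist_succ]
          exact max_le (D.label_le i i le_rfl) (D.label_le i (i + 1) (by omega))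
        have h5 := dist_triangle_max (y i) (y (i + 1)) w
        exact h5.trans (max_le h4 (by rw [← h3]; exact h2))
  exact gen _ i rfl

omit D in
lemma walk_symm {T : SimpleGraph X} {u v : X}
    (h : ∃ p : T.Walk u v, ∀ w ∈ p.support, dist u w ≤ dist u v) :
    ∃ p : T.Walk v u, ∀ w ∈ p.support, dist v w ≤ dist v u := by
  obtain ⟨p, hp⟩ := h
  refine ⟨p.reverse, fun w hw => ?_⟩
  rw [Walk.support_reverse, List.mem_reverse] at hw
  have h1 := hp w hw
  have h2 := dist_triangle_max v u w
  rw [dist_comm v u] at h2 ⊢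
  exact h2.trans (max_le le_rfl h1)

lemma walk_lt {i j : ℕ} (hij : i < j) :
    ∃ p : D.tree.Walk (y i) (y j), ∀ w ∈ p.support, dist (y i) w ≤ dist (y i) (y j) := by
  by_cases hc : D.nc i < j
  · obtain ⟨p, hp⟩ := D.walk_centre i
    obtain ⟨q, hq⟩ := D.walk_centre j
    have h1 : dist (y i) c ≤ dist (y i) (y j) := by
      rw [D.dist_eq_nc]
      exact D.le_dist i j _ hij (D.le_nc i) hc.le
    refine ⟨p.append q.reverse, fun w hw => ?_⟩
    rw [Walk.mem_support_append_iff, Walk.support_reverse, List.mem_reverse] at hw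
    rcases hw with hw | hw
    · exact (hp w hw).trans h1
    · have h2 := hq w hw
      have h3 := dist_triangle_max (y j) (y i) c
      have h4 := dist_triangle_max (y i) (y j) w
      rw [dist_comm (y j) (y i)] at h3
      exact h4.trans (max_le le_rfl (h2.trans (h3.trans (max_le le_rfl h1))))
  · obtain ⟨n, rfl⟩ : ∃ n, j = i + n := ⟨j - i, by omega⟩
    push Not at hc
    obtain ⟨p, -, hs⟩ := exists_seq_path (R := D.tree) D.inj i n fun k h1 h2 => by
      refine D.adj_not_cut fun hk => ?_
      have := D.nc_le h1 hk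
      omega
    refine ⟨p, fun w hw => ?_⟩
    obtain ⟨k, h1, h2, rfl⟩ := (hs w).mp hw
    rcases Nat.eq_or_lt_of_le h1 with h | h
    · rw [← h, dist_self]; exact dist_nonneg
    · obtain ⟨k', h3, h4, h5⟩ := D.dist_eq i k h
      rw [h5]
      exact D.le_dist i (i + n) k' hij h3 (by omega)

lemma generates : Generates D.tree (lab y a c) := by
  refine generates_of_criterion D.parentData.isTree D.tree_edge fun u v => ?_
  rcases D.cover u with rfl | ⟨i, rfl⟩
  · rcases D.cover v with rfl | ⟨j, rfl⟩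
    · exact ⟨Walk.nil, fun w hw => by simp at hw; rw [hw]⟩
    · exact walk_symm (D.walk_centre j)
  · rcases D.cover v with rfl | ⟨j, rfl⟩
    · exact D.walk_centre i
    · rcases lt_trichotomy i j with h | rfl | h
      · exact D.walk_lt h
      · exact ⟨Walk.nil, fun w hw => by simp at hw; rw [hw]⟩
      · exact walk_symm (D.walk_lt h)

lemma starlike : IsStarlike D.tree := by
  refine ⟨c, ?_, ?_⟩
  · -- the centre has infinite degree
    have hinf : (D.tree.neighborSet c).Infinite := by
      have h1 : {n | Cut a n}.Infinite := by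
        rw [Set.infinite_iff_exists_gt]
        intro n
        obtain ⟨m, hm1, hm2⟩ := D.exists_cut (n + 1)
        exact ⟨m, hm2, by omega⟩
      have h2 : (y '' {n | Cut a n}).Infinite := h1.image D.inj.injOn
      refine h2.mono ?_
      rintro _ ⟨n, hn, rfl⟩
      exact (D.adj_cut hn).symm
    show 2 < (D.tree.neighborSet c).encard
    rw [hinf.encard_eq]
    exact ENat.natCast_lt_top 2
  · intro v hv
    by_contra hvc
    obtain ⟨i, rfl⟩ := (D.cover v).resolve_left hvc
    have hsub : D.tree.neighborSet (y i) ⊆ {par y a c (y i), y (i - 1)} := by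
      intro w hw
      rcases hw with ⟨-, h2⟩ | ⟨h1, h2⟩
      · left; exact h2.symm
      · right
        obtain ⟨j, rfl⟩ := (D.cover w).resolve_left h1
        by_cases hj : Cut a j
        · rw [D.par_cut hj] at h2
          exact absurd h2.symm (D.ne i)
        · rw [D.par_not_cut hj] at h2
          have := D.inj h2
          subst this
          simp
    have h1 : (D.tree.neighborSet (y i)).encard ≤ 2 :=
      (Set.encard_le_encard hsub).trans (Set.encard_insert_le _ _ |>.trans (by simp [one_add_one_eq_two]))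
    exact absurd hv (not_lt.mpr h1)

lemma rayless : IsRayless D.tree := by
  rintro ⟨z, hz, hadj⟩
  -- eventually off the centre
  obtain ⟨N, hN⟩ : ∃ N, ∀ n, N ≤ n → z n ≠ c := by
    by_cases h : ∃ n, z n = c
    · obtain ⟨n, hn⟩ := h
      refine ⟨n + 1, fun m hm hmc => ?_⟩
      have := hz (hmc.trans hn.symm)
      omega
    · push Not at h
      exact ⟨0, fun n _ => h n⟩
  have hidx : ∀ n, N ≤ n → z n = y (idx y (z n)) := by
    intro n hn
    obtain ⟨i, hi⟩ := (D.cover (z n)).resolve_left (hN n hn)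
    rw [hi, D.idx_y]
  have hstep : ∀ n, N ≤ n → D.nc (idx y (z (n + 1))) = D.nc (idx y (z n)) := by
    intro n hn
    obtain ⟨i, hi⟩ := (D.cover (z n)).resolve_left (hN n hn)
    obtain ⟨j, hj⟩ := (D.cover (z (n + 1))).resolve_left (hN (n + 1) (by omega))
    have h := hadj n
    rw [hi, hj] at h ⊢
    rw [D.idx_y, D.idx_y]
    rcases h with ⟨-, h2⟩ | ⟨-, h2⟩
    · by_cases hc : Cut a i
      · rw [D.par_cut hc] at h2
        exact absurd h2.symm (D.ne j)
      · rw [D.par_not_cut hc] at h2
        rw [← D.inj h2]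
        exact D.nc_succ hc
    · by_cases hc : Cut a j
      · rw [D.par_cut hc] at h2
        exact absurd h2.symm (D.ne i)
      · rw [D.par_not_cut hc] at h2
        rw [← D.inj h2]
        exact (D.nc_succ hc).symm
  have hconst : ∀ n, D.nc (idx y (z (N + n))) = D.nc (idx y (z N)) := by
    intro n
    induction n with
    | zero => rfl
    | succ n ih => rw [← add_assoc, hstep (N + n) (by omega), ih]
  have hle : ∀ n, idx y (z (N + n)) ≤ D.nc (idx y (z N)) := fun n => by
    rw [← hconst n]; exact D.le_nc _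
  have hinj : Function.Injective fun n => idx y (z (N + n)) := by
    intro m n hmn
    have h1 : z (N + m) = z (N + n) := by
      rw [hidx (N + m) (by omega), hidx (N + n) (by omega)]
      exact congrArg y hmn
    have := hz h1
    omega
  have hfin : (Set.univ : Set ℕ).Finite := by
    refine Set.Finite.of_finite_image (f := fun n => idx y (z (N + n)))
      ((Set.finite_Iic (D.nc (idx y (z N)))).subset ?_) hinj.injOn
    rintro _ ⟨n, -, rfl⟩
    exact hle n
  exact Set.infinite_univ hfin

end RayData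

/-- extraction of the data -/
lemma exists_rayData (X₀ : Set X) (htb : TotallyBounded X₀)
    (hray : ∃ (R : SimpleGraph X₀) (l : X₀ → ℝ≥0), IsRay R ∧ Generates R l)
    (hcomp : CompleteSpace X) (hdense : Dense X₀) :
    ∃ (y : ℕ → X) (a : ℕ → ℝ≥0) (c : X), RayData y a c := by
  obtain ⟨R, l, ⟨x, hx, hadj⟩, hG⟩ := hray
  have hseq : ∀ n, R.Adj (x n) (x (n + 1)) := fun n => (hadj _ _).mpr ⟨n, Or.inl ⟨rfl, rfl⟩⟩
  set y : ℕ → X := fun n => (x n : X) with hy
  set a : ℕ → ℝ≥0 := fun n => l (x n) with ha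
  have hyinj : Function.Injective y := Subtype.val_injective.comp hx.1
  have hpath : ∀ i j, i < j → IsGreatest {r : ℝ | ∃ k, i ≤ k ∧ k ≤ j ∧ r = a k}
      (dist (y i) (y j)) := by
    intro i j hij
    obtain ⟨n, rfl⟩ : ∃ n, j = i + n := ⟨j - i, by omega⟩
    obtain ⟨p, hp, hs⟩ := exists_seq_path hx.1 i n fun k _ _ => hseq k
    have h1 := hG.2 (x i) (x (i + n)) (fun h => by have := hx.1 h; omega) p hp
    have h2 : {r : ℝ | ∃ w ∈ p.support, r = l w} = {r : ℝ | ∃ k, i ≤ k ∧ k ≤ i + n ∧ r = a k} := by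
      ext r
      constructor
      · rintro ⟨w, hw, rfl⟩
        obtain ⟨k, h1, h2, rfl⟩ := (hs w).mp hw
        exact ⟨k, h1, h2, rfl⟩
      · rintro ⟨k, h1, h2, rfl⟩
        exact ⟨x k, (hs _).mpr ⟨k, h1, h2, rfl⟩, rfl⟩
    rw [h2] at h1
    exact h1
  have hle : ∀ i j k, i < j → i ≤ k → k ≤ j → (a k : ℝ) ≤ dist (y i) (y j) :=
    fun i j k h1 h2 h3 => (hpath i j h1).2 ⟨k, h2, h3, rfl⟩
  have heq : ∀ i j, i < j → ∃ k, i ≤ k ∧ k ≤ j ∧ dist (y i) (y j) = a k :=
    fun i j h1 => (hpath i j h1).1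
  have hsmall : ∀ ε : ℝ, 0 < ε → {n | ε ≤ a n}.Finite := by
    intro ε hε
    obtain ⟨t, htf, ht⟩ := Metric.totallyBounded_iff.mp htb ε hε
    by_contra hinf
    have hch : ∀ n, ∃ z ∈ t, y n ∈ Metric.ball z ε := by
      intro n
      have := ht (x n).2
      simpa using this
    choose f hf1 hf2 using hch
    obtain ⟨m, hm, n, hn, hmn, hfmn⟩ := Set.Infinite.exists_ne_map_eq_of_mapsTo
      (s := {n | ε ≤ (a n : ℝ)}) (t := t) (f := f) hinf (fun n _ => hf1 n) htf
    have hlt : dist (y m) (y n) < ε := by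
      have h1 := hf2 m
      have h2 := hf2 n
      rw [← hfmn] at h2
      rw [Metric.mem_ball] at h1 h2
      have h3 := dist_triangle_max (y m) (f m) (y n)
      rw [dist_comm (f m) (y n)] at h3
      exact lt_of_le_of_lt h3 (max_lt h1 h2)
    rcases lt_or_gt_of_ne hmn with h | h
    · have h4 := hle m n m h le_rfl h.le
      have h5 : ε ≤ a m := hm
      linarith
    · have h4 := hle n m n h le_rfl h.le
      have h5 : ε ≤ a n := hn
      rw [dist_comm] at hlt
      linarith
  have hcauchy : CauchySeq y := by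
    rw [Metric.cauchySeq_iff]
    intro ε hε
    obtain ⟨N, hN⟩ := (hsmall ε hε).bddAbove
    refine ⟨N + 1, fun m hm n hn => ?_⟩
    have hlt : ∀ i j, N + 1 ≤ i → i < j → dist (y i) (y j) < ε := by
      intro i j hi hij
      obtain ⟨k, h1, -, h3⟩ := heq i j hij
      rw [h3]
      by_contra hcon
      push Not at hcon
      have : k ≤ N := hN hcon
      omega
    rcases lt_trichotomy m n with h | rfl | h
    · exact hlt m n hm h
    · rw [dist_self]; exact hε
    · rw [dist_comm]; exact hlt n m hn h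
  obtain ⟨c, hc⟩ := cauchySeq_tendsto_of_complete hcauchy
  refine ⟨y, a, c, ⟨hyinj, hle, heq, hc, ?_, ?_, hsmall⟩⟩
  · -- the limit is not on the ray
    intro i hi
    have hpos : 0 < max (a i : ℝ) (a (i + 1)) := by
      have h1 : 0 < dist (y i) (y (i + 1)) := dist_pos.mpr fun h => by
        have := hyinj h; omega
      obtain ⟨k, h2, h3, h4⟩ := heq i (i + 1) (by omega)
      rw [h4] at h1
      rcases (show k = i ∨ k = i + 1 by omega) with rfl | rfl
      · exact lt_of_lt_of_le h1 (le_max_left _ _)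
      · exact lt_of_lt_of_le h1 (le_max_right _ _)
    have h1 : ∀ᶠ j in atTop, dist (y j) c < max (a i : ℝ) (a (i + 1)) :=
      (tendsto_iff_dist_tendsto_zero.mp hc).eventually_lt_const hpos
    obtain ⟨j, hj1, hj2⟩ := (h1.and (eventually_gt_atTop i)).exists
    have h2 : max (a i : ℝ) (a (i + 1)) ≤ dist (y i) (y j) :=
      max_le (hle i j i hj2 le_rfl hj2.le) (hle i j (i + 1) hj2 (by omega) hj2)
    rw [← hi, dist_comm] at hj1
    linarith
  · intro z
    have hcl : IsClosed (insert c (range y)) := (hc.isCompact_insert_range).isClosed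
    have hsub : X₀ ⊆ insert c (range y) := by
      intro w hw
      obtain ⟨n, hn⟩ := hx.2 ⟨w, hw⟩
      right
      exact ⟨n, by rw [hy]; simp [hn]⟩
    have : z ∈ closure X₀ := hdense z
    have h2 := hcl.closure_subset_iff.mpr hsub this
    rcases h2 with h | ⟨n, hn⟩
    · exact Or.inl h
    · exact Or.inr ⟨n, hn.symm⟩

end RayToTree

end Pool.Agent.Lib_helper36
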