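import Pool.Agent.Lib_helper36.StrictConv

set_option autoImplicit false

open Set Filter Topology

namespace Pool.Agent.Lib_helper36

lemma det2_smul_left (c : ℝ) (x y : Fin 2 → ℝ) : det2 (c • x) y = c * det2 x y := by
  simp [det2]; ring

lemma det2_smul_right (c : ℝ) (x y : Fin 2 → ℝ) : det2 x (c • y) = c * det2 x y := by
  simp [det2]; ring

lemma det2_add_left (x x' y : Fin 2 → ℝ) : det2 (x + x') y = det2 x y + det2 x' y := by
  simp [det2]; ring

lemma det2_add_right (x y y' : Fin 2 → ℝ) : det2 x (y + y') = det2 x y + det2 x y' := by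
  simp [det2]; ring

lemma det2_self (x : Fin 2 → ℝ) : det2 x x = 0 := by
  simp [det2]; ring

lemma det2_swap (x y : Fin 2 → ℝ) : det2 x y = - det2 y x := by
  simp [det2]; ring

/-- If `det2 p m ≠ 0` every vector is a combination of `p` and `m`. -/
lemma exists_coords (p m q : Fin 2 → ℝ) (h : det2 p m ≠ 0) :
    q = (det2 q m / det2 p m) • p + (det2 p q / det2 p m) • m := by
  have h' := h
  unfold det2 at h'
  ext i
  fin_cases i
  · simp only [det2, Fin.zero_eta, Pi.add_apply, Pi.smul_apply, smul_eq_mul]
    rw [div_mul_eq_mul_div, div_mul_eq_mul_div, ← add_div, eq_div_iff h']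
    ring
  · simp only [det2, Fin.mk_one, Pi.add_apply, Pi.smul_apply, smul_eq_mul]
    rw [div_mul_eq_mul_div, div_mul_eq_mul_div, ← add_div, eq_div_iff h']
    ring

/-- parallel vectors -/
lemma exists_smul_of_det2_eq_zero (x y : Fin 2 → ℝ) (hx : x ≠ 0) (h : det2 x y = 0) :
    ∃ c : ℝ, y = c • x := by
  unfold det2 at h
  by_cases h0 : x 0 = 0
  · have h1 : x 1 ≠ 0 := by
      intro h1
      apply hx
      ext i; fin_cases i <;> simp [h0, h1]
    refine ⟨y 1 / x 1, ?_⟩
    have h2 : y 0 = 0 := by
      rw [h0] at h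
      have : x 1 * y 0 = 0 := by linarith
      exact (mul_eq_zero.mp this).resolve_left h1
    ext i; fin_cases i
    · simp [h0, h2]
    · simp; field_simp
  · refine ⟨y 0 / x 0, ?_⟩
    ext i; fin_cases i
    · simp; field_simp
    · simp; field_simp; linarith

variable {N : NormSp 2}

/-- Strict quasiconvexity along a line that misses the origin. -/
lemma line_lt (hN : N ∈ SC) {z w : Fin 2 → ℝ} (h : det2 z w ≠ 0) {r s t M : ℝ}
    (hrs : r < s) (hst : s < t) (h1 : N.1 (z + r • w) ≤ M) (h2 : N.1 (z + t • w) ≤ M) :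
    N.1 (z + s • w) < M := by
  have hrt : 0 < t - r := by linarith
  set l : ℝ := (t - s) / (t - r) with hl
  have hl0 : 0 < l := div_pos (by linarith) hrt
  have hl1 : 0 < 1 - l := by
    rw [hl, sub_pos, div_lt_one hrt]; linarith
  have hls : l * r + (1 - l) * t = s := by
    rw [hl]; field_simp; ring
  have key : z + s • w = l • (z + r • w) + (1 - l) • (z + t • w) := by
    rw [← hls]
    module
  have hdet : det2 (l • (z + r • w)) ((1 - l) • (z + t • w)) ≠ 0 := by
    have : det2 (l • (z + r • w)) ((1 - l) • (z + t • w))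
        = l * (1 - l) * (t - r) * det2 z w := by
      simp [det2]; ring
    rw [this]
    exact mul_ne_zero (mul_ne_zero (mul_ne_zero hl0.ne' hl1.ne') hrt.ne') h
  have h3 := hN _ _ hdet
  rw [← key, N.2.2.2, N.2.2.2, abs_of_pos hl0, abs_of_pos hl1] at h3
  have h4 := mul_le_mul_of_nonneg_left h1 hl0.le
  have h5 := mul_le_mul_of_nonneg_left h2 hl1.le
  linarith

/-- Two unit vectors with parallel directions and nonzero sum are equal. -/
lemma eq_of_parallel {a d : Fin 2 → ℝ} (ha : N.1 a = 1) (hd : N.1 d = 1) (hs : a + d ≠ 0)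
    (h : det2 a d = 0) : d = a := by
  have ha0 : a ≠ 0 := by
    rintro rfl
    rw [NormSp.map_zero] at ha
    norm_num at ha
  obtain ⟨c, rfl⟩ := exists_smul_of_det2_eq_zero a d ha0 h
  rw [N.2.2.2, ha, mul_one] at hd
  rcases abs_eq (zero_le_one) |>.mp hd with rfl | rfl
  · simp
  · exfalso; apply hs; simp

lemma cross_aux (hN : N ∈ SC) {p m q : Fin 2 → ℝ} (hpm : det2 p m ≠ 0)
    {x y : ℝ} (hq : q = x • p + y • m) (hx0 : x ≠ 0) (hx1 : |x| < 1)
    (h1 : N.1 (m + p) = 1) (h2 : N.1 (m - p) = 1) (h3 : N.1 (m + q) = 1) (h4 : N.1 (m - q) = 1) :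
    False := by
  obtain ⟨hxl, hxr⟩ := abs_lt.mp hx1
  have hmp : det2 m p ≠ 0 := by rw [det2_swap]; exact neg_ne_zero.mpr hpm
  have e1 : N.1 (m + (1 : ℝ) • p) ≤ 1 := by rw [one_smul]; exact h1.le
  have e2 : N.1 (m + (-1 : ℝ) • p) ≤ 1 := by
    have : m + (-1 : ℝ) • p = m - p := by module
    rw [this]; exact h2.le
  have f1 : N.1 (m + x • p) < 1 := line_lt hN hmp hxl hxr e2 e1
  have f2 : N.1 (m + (-x) • p) < 1 := line_lt hN hmp (by linarith) (by linarith) e2 e1
  have hdet : det2 (x • p) m ≠ 0 := by
    rw [det2_smul_left]; exact mul_ne_zero hx0 hpm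
  have g1 : N.1 (x • p + (1 : ℝ) • m) < 1 := by
    have : x • p + (1 : ℝ) • m = m + x • p := by module
    rw [this]; exact f1
  have g2 : N.1 (x • p + (-1 : ℝ) • m) < 1 := by
    have : x • p + (-1 : ℝ) • m = -(m + (-x) • p) := by module
    rw [this, NormSp.map_neg]; exact f2
  have g3 : N.1 (x • p + (y + 1) • m) = 1 := by
    have : x • p + (y + 1) • m = m + q := by rw [hq]; module
    rw [this]; exact h3
  have g4 : N.1 (x • p + (y - 1) • m) = 1 := by
    have : x • p + (y - 1) • m = -(m - q) := by rw [hq]; module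
    rw [this, NormSp.map_neg]; exact h4
  rcases lt_trichotomy y 0 with hy | hy | hy
  · have := line_lt hN hdet (r := y - 1) (s := y + 1) (t := 1) (by linarith) (by linarith)
      g4.le g1.le
    linarith
  · subst hy
    rw [zero_sub] at g4
    linarith
  · have := line_lt hN hdet (r := -1) (s := y - 1) (t := y + 1) (by linarith) (by linarith)
      g2.le g3.le
    linarith

/-- In a strictly convex plane a nonzero vector is a sum of two unit vectors in at most one
way. -/
lemma unit_pairs (hN : N ∈ SC) {a b c d : Fin 2 → ℝ} (ha : N.1 a = 1) (hb : N.1 b = 1)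
    (hc : N.1 c = 1) (hd : N.1 d = 1) (hsum : a + d = b + c) (hne : a + d ≠ 0) :
    b = a ∨ b = d := by
  -- helper: if one pair is parallel then so is the other, and everything agrees
  have par : ∀ {a b c d : Fin 2 → ℝ}, N.1 a = 1 → N.1 b = 1 → N.1 c = 1 → N.1 d = 1 →
      a + d = b + c → a + d ≠ 0 → det2 a d = 0 → b = a := by
    intro a b c d ha hb hc hd hsum hne h
    have hda := eq_of_parallel ha hd hne h
    subst hda
    have h2 : N.1 (b + c) = 2 := by
      rw [← hsum]
      have : d + d = (2 : ℝ) • d := by module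
      rw [this, N.2.2.2, hd]; norm_num
    have hbc : det2 b c = 0 := by
      by_contra hcon
      have := hN b c hcon
      linarith
    have hcb := eq_of_parallel hb hc (by rw [← hsum]; exact hne) hbc
    subst hcb
    ext i
    have := congrFun hsum i
    simp only [Pi.add_apply] at this
    linarith
  by_cases h1 : det2 a d = 0
  · exact Or.inl (par ha hb hc hd hsum hne h1)
  by_cases h2 : det2 b c = 0
  · have := par hb ha hd hc hsum.symm (by rw [← hsum]; exact hne) h2
    exact Or.inl this.symm
  set m : Fin 2 → ℝ := (1 / 2 : ℝ) • (a + d) with hm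
  set p : Fin 2 → ℝ := (1 / 2 : ℝ) • (a - d) with hp
  set q : Fin 2 → ℝ := (1 / 2 : ℝ) • (b - c) with hq
  have hm' : m = (1 / 2 : ℝ) • (b + c) := by rw [hm, hsum]
  have ea : m + p = a := by rw [hm, hp]; module
  have ed : m - p = d := by rw [hm, hp]; module
  have eb : m + q = b := by rw [hm', hq]; module
  have ec : m - q = c := by rw [hm', hq]; module
  have hpm : det2 p m ≠ 0 := by
    have : det2 p m = (1 / 2) * det2 a d := by
      rw [← ea, ← ed]; simp [det2]; ring
    rw [this]; exact mul_ne_zero (by norm_num) h1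
  have hqm : det2 q m ≠ 0 := by
    have : det2 q m = (1 / 2) * det2 b c := by
      rw [← eb, ← ec]; simp [det2]; ring
    rw [this]; exact mul_ne_zero (by norm_num) h2
  obtain ⟨x, y, hqxy, hx0⟩ : ∃ x y : ℝ, q = x • p + y • m ∧ x ≠ 0 :=
    ⟨_, _, exists_coords p m q hpm, div_ne_zero hqm hpm⟩
  rcases lt_trichotomy |x| 1 with hx | hx | hx
  · exact (cross_aux hN hpm hqxy hx0 hx (by rw [ea]; exact ha) (by rw [ed]; exact hd)
      (by rw [eb]; exact hb) (by rw [ec]; exact hc)).elim
  · -- `|x| = 1`
    rcases abs_eq (zero_le_one) |>.mp hx with rfl | rfl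
    · left
      -- the line `a + t m`
      have hdet : det2 a m ≠ 0 := by
        have : det2 a m = det2 p m := by rw [← ea]; simp [det2]; ring
        rw [this]; exact hpm
      have k0 : N.1 (a + (0 : ℝ) • m) = 1 := by simpa using ha
      have k1 : N.1 (a + (-2 : ℝ) • m) = 1 := by
        have : a + (-2 : ℝ) • m = - d := by rw [← ea, ← ed]; module
        rw [this, NormSp.map_neg]; exact hd
      have k2 : N.1 (a + y • m) = 1 := by
        have : a + y • m = b := by rw [← ea, ← eb, hqxy]; module
        rw [this]; exact hb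
      have k3 : N.1 (a + (y - 2) • m) = 1 := by
        have : a + (y - 2) • m = -c := by rw [← ea, ← ec, hqxy]; module
        rw [this, NormSp.map_neg]; exact hc
      rcases lt_trichotomy y 0 with hy | hy | hy
      · have := line_lt hN hdet (r := y - 2) (s := -2) (t := 0) (by linarith) (by linarith)
          k3.le k0.le
        linarith
      · subst hy
        rw [← eb, hqxy, ← ea]; module
      · have := line_lt hN hdet (r := -2) (s := 0) (t := y) (by linarith) (by linarith)
          k1.le k2.le
        linarith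
    · right
      have hdet : det2 d m ≠ 0 := by
        have : det2 d m = - det2 p m := by rw [← ed]; simp [det2]; ring
        rw [this]; exact neg_ne_zero.mpr hpm
      have k0 : N.1 (d + (0 : ℝ) • m) = 1 := by simpa using hd
      have k1 : N.1 (d + (-2 : ℝ) • m) = 1 := by
        have : d + (-2 : ℝ) • m = - a := by rw [← ea, ← ed]; module
        rw [this, NormSp.map_neg]; exact ha
      have k2 : N.1 (d + y • m) = 1 := by
        have : d + y • m = b := by rw [← ed, ← eb, hqxy]; module
        rw [this]; exact hb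
      have k3 : N.1 (d + (y - 2) • m) = 1 := by
        have : d + (y - 2) • m = -c := by rw [← ed, ← ec, hqxy]; module
        rw [this, NormSp.map_neg]; exact hc
      rcases lt_trichotomy y 0 with hy | hy | hy
      · have := line_lt hN hdet (r := y - 2) (s := -2) (t := 0) (by linarith) (by linarith)
          k3.le k0.le
        linarith
      · subst hy
        rw [← eb, hqxy, ← ed]; module
      · have := line_lt hN hdet (r := -2) (s := 0) (t := y) (by linarith) (by linarith)
          k1.le k2.le
        linarith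
  · -- swap the two pairs
    have hp' : p = (1 / x) • q + (-(y / x)) • m := by
      rw [hqxy]
      have : (1 / x) • (x • p + y • m) + (-(y / x)) • m = ((1 / x) * x) • p
          + ((1 / x) * y - y / x) • m := by module
      rw [this]
      have e1 : (1 / x) * x = 1 := by field_simp
      have e2 : (1 / x) * y - y / x = 0 := by field_simp; ring
      rw [e1, e2]; simp
    have hx' : |1 / x| < 1 := by
      rw [abs_div, abs_one, div_lt_one (by linarith)]; exact hx
    exact (cross_aux hN hqm hp' (one_div_ne_zero hx0) hx' (by rw [eb]; exact hb)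
      (by rw [ec]; exact hc) (by rw [ea]; exact ha) (by rw [ed]; exact hd)).elim

/-- Four-cycles are parallelograms. -/
lemma rhombus (hN : N ∈ SC) {X Y Z W : Fin 2 → ℝ} (h1 : N.1 (X - Z) = 1) (h2 : N.1 (X - W) = 1)
    (h3 : N.1 (Y - Z) = 1) (h4 : N.1 (Y - W) = 1) (hXY : X ≠ Y) (hZW : Z ≠ W) :
    X + Y = Z + W := by
  have ha : N.1 (Z - X) = 1 := by rw [NormSp.sub_comm']; exact h1
  have hb : N.1 (W - X) = 1 := by rw [NormSp.sub_comm']; exact h2
  have hsum : (Z - X) + (Y - Z) = (W - X) + (Y - W) := by abel
  have hne : (Z - X) + (Y - Z) ≠ 0 := by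
    have : (Z - X) + (Y - Z) = Y - X := by abel
    rw [this, sub_ne_zero]
    exact hXY.symm
  rcases unit_pairs hN ha hb h4 h3 hsum hne with h | h
  · exact absurd (sub_left_injective h).symm hZW
  · have : W = Y - Z + X := by rw [← h]; abel
    rw [this]; abel

end Pool.Agent.Lib_helper36
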