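import Pool.Agent.Lib_helper36.StabInst

set_option autoImplicit false
set_option linter.unusedSectionVars false
set_option linter.unusedSimpArgs false

open Finset
open scoped Classical

namespace Pool.Agent.Lib_helper36.Stab

/-- a family of disjoint pairs forming a matching -/
lemma offMatching_of_pairs {V ι : Type*} [Fintype V] [DecidableEq V] {G : SimpleGraph V} {S : Finset V}
    (J : Finset ι) (u w : ι → V) (hu : ∀ i ∈ J, ∀ j ∈ J, u i = u j → i = j)
    (hw : ∀ i ∈ J, ∀ j ∈ J, w i = w j → i = j) (huw : ∀ i ∈ J, ∀ j ∈ J, u i ≠ w j)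
    (hadj : ∀ i ∈ J, G.Adj (u i) (w i)) (huS : ∀ i ∈ J, u i ∉ S) (hwS : ∀ i ∈ J, w i ∉ S) :
    OffMatching G S (J.image fun i => s(u i, w i)) ∧
      (J.image fun i => s(u i, w i)).card = J.card := by
  have hshare : ∀ i ∈ J, ∀ j ∈ J, ∀ v, v ∈ s(u i, w i) → v ∈ s(u j, w j) → i = j := by
    intro i hi j hj v hv hv'
    rw [Sym2.mem_iff] at hv hv'
    rcases hv with hv | hv <;> rcases hv' with hv' | hv'
    · exact hu i hi j hj (hv.symm.trans hv')
    · exact absurd (hv.symm.trans hv') (huw i hi j hj)
    · exact absurd (hv'.symm.trans hv) (huw j hj i hi)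
    · exact hw i hi j hj (hv.symm.trans hv')
  refine ⟨⟨⟨?_, ?_⟩, ?_⟩, ?_⟩
  · intro e he
    rw [Finset.mem_image] at he
    obtain ⟨i, hi, rfl⟩ := he
    exact hadj i hi
  · intro e he e' he' v hv hv'
    rw [Finset.mem_image] at he he'
    obtain ⟨i, hi, rfl⟩ := he
    obtain ⟨j, hj, rfl⟩ := he'
    rw [hshare i hi j hj v hv hv']
  · intro e he v hv
    rw [Finset.mem_image] at he
    obtain ⟨i, hi, rfl⟩ := he
    rw [Sym2.mem_iff] at hv
    rcases hv with rfl | rfl
    · exact huS i hi
    · exact hwS i hi
  · refine Finset.card_image_of_injOn ?_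
    intro i hi j hj hij
    refine hshare i hi j hj (u i) (Sym2.mem_mk_left _ _) ?_
    simp only at hij
    rw [← hij]
    exact Sym2.mem_mk_left _ _

section

variable {k : ℕ} (I : Csp k) (σ τ : Fin I.n → Fin k)

/-- the constraint `j` is satisfied by the labeling -/
def sat (j : Fin I.m) : Prop := I.rel j (σ (I.left j)) (τ (I.right j)) = true

/-- the vertices deleted for a labeling -/
def inDel : Fin I.m × Kind k → Prop
  | (j, .tri i) => i = 0 ∧ ¬ sat I σ τ j
  | (_, .cho _ _) => False
  | (j, .sng s c _) => (s = false ∧ c = σ (I.left j)) ∨ (s = true ∧ c = τ (I.right j))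

/-- the set of vertices deleted for a labeling -/
noncomputable def del : Finset (Fin I.m × Kind k) := univ.filter (inDel I σ τ)

lemma mem_del (v : Fin I.m × Kind k) : v ∈ del I σ τ ↔ inDel I σ τ v := by
  simp only [del, Finset.mem_filter, Finset.mem_univ, true_and]

/-- first ends of the matching edges -/
def uu : Fin I.m ⊕ (Fin I.m × Fin k × Fin k) → Fin I.m × Kind k
  | .inl j => (j, .tri 1)
  | .inr (j, a, b) => (j, .cho a b)

/-- second ends of the matching edges -/
noncomputable def ww : Fin I.m ⊕ (Fin I.m × Fin k × Fin k) → Fin I.m × Kind k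
  | .inl j => (j, .tri 2)
  | .inr (j, a, b) =>
    if a ≠ σ (I.left j) then (j, .sng false a ⟨b.1, by have := b.2; omega⟩)
    else if b ≠ τ (I.right j) then (j, .sng true b ⟨a.1, by have := a.2; omega⟩)
    else (j, .tri 0)

/-- the index set of the matching -/
noncomputable def JJ : Finset (Fin I.m ⊕ (Fin I.m × Fin k × Fin k)) :=
  univ.filter fun x => match x with
    | .inl _ => True
    | .inr (j, a, b) => I.rel j a b = true

/-- the fractional vertex cover -/
noncomputable def yy : Fin I.m × Kind k → ℝ
  | (j, .tri i) => if i = 0 then (if sat I σ τ j then 1 / 2 else 0) else 1 / 2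
  | (j, .cho a b) => if I.rel j a b = true then
      (if a = σ (I.left j) ∧ b = τ (I.right j) then 1 / 2 else 1) else 0
  | (_, .sng _ _ _) => 0

lemma card_JJ : ((JJ I).card : ℝ) = ∑ j : Fin I.m, (1 + ∑ a : Fin k, ∑ b : Fin k,
    if I.rel j a b = true then (1 : ℝ) else 0) := by
  unfold JJ
  rw [Finset.card_filter, Fintype.sum_sum_type]
  push_cast
  simp only [Fintype.sum_prod_type, if_true, Finset.sum_add_distrib]

lemma sum_yy : ∑ v, yy I σ τ v = (JJ I).card := by
  rw [card_JJ, Fintype.sum_prod_type]
  refine Finset.sum_congr rfl fun j _ => ?_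
  rw [sum_kind]
  have h1 : ∑ i : Fin 3, yy I σ τ (j, .tri i) = 1 + (if sat I σ τ j then 1 / 2 else 0) := by
    rw [Fin.sum_univ_three]
    simp only [yy, if_true, if_neg (show (1 : Fin 3) ≠ 0 by decide),
      if_neg (show (2 : Fin 3) ≠ 0 by decide)]
    ring
  have h2 : ∑ a : Fin k, ∑ b : Fin k, yy I σ τ (j, .cho a b) =
      ∑ a : Fin k, ∑ b : Fin k, ((if I.rel j a b = true then (1 : ℝ) else 0)
        - (if a = σ (I.left j) then (if b = τ (I.right j) then
            (if sat I σ τ j then (1 / 2 : ℝ) else 0) else 0) else 0)) := by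
    refine Finset.sum_congr rfl fun a _ => Finset.sum_congr rfl fun b _ => ?_
    simp only [yy]
    by_cases ha : a = σ (I.left j)
    · by_cases hb : b = τ (I.right j)
      · subst ha; subst hb
        by_cases hr : I.rel j (σ (I.left j)) (τ (I.right j)) = true
        · simp only [sat, hr, and_self, if_true]
          norm_num
        · simp only [sat, hr, and_self, if_true, if_false, Bool.false_eq_true]
          norm_num
      · simp [hb]
    · simp [ha]
  have h3 : ∑ s : Bool, ∑ c : Fin k, ∑ r : Fin (2 * k), yy I σ τ (j, .sng s c r) = 0 := by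
    simp [yy]
  rw [h1, h2, h3]
  simp only [Finset.sum_sub_distrib, Finset.sum_ite_eq', Finset.mem_univ, if_true]
  have h4 : ∑ a : Fin k, ∑ b : Fin k, (if a = σ (I.left j) then (if b = τ (I.right j) then
            (if sat I σ τ j then (1 / 2 : ℝ) else 0) else 0) else 0) =
            (if sat I σ τ j then (1 / 2 : ℝ) else 0) := by
    rw [Finset.sum_eq_single (σ (I.left j))]
    · simp
    · intro b _ hb; simp [hb]
    · intro h; exact absurd (Finset.mem_univ _) h
  rw [h4]
  ring

lemma pair_del : OffMatching (gad I) (del I σ τ) ((JJ I).image fun i => s(uu I i, ww I σ τ i)) ∧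
      ((JJ I).image fun i => s(uu I i, ww I σ τ i)).card = (JJ I).card := by
  refine offMatching_of_pairs (G := gad I) (S := del I σ τ) (JJ I) (uu I)
    (ww I σ τ) ?_ ?_ ?_ ?_ ?_ ?_
  · -- injectivity of `uu`
    intro x _ y _ hxy
    rcases x with j | ⟨j, a, b⟩ <;> rcases y with j' | ⟨j', a', b'⟩
    · simp_all [uu]
    · simp_all [uu]
    · simp_all [uu]
    · simp_all [uu]
  · intro x _ y _ hxy
    rcases x with j | ⟨j, a, b⟩ <;> rcases y with j' | ⟨j', a', b'⟩
    · simp_all [ww]
    · simp only [ww] at hxy
      split_ifs at hxy <;> simp at hxy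
    · simp only [ww] at hxy
      split_ifs at hxy <;> simp at hxy
    · simp only [ww] at hxy
      split_ifs at hxy with h1 h2 h3 h4 h5 h6 h7 h8
      all_goals simp only [Prod.mk.injEq, Kind.sng.injEq, Fin.mk.injEq, reduceCtorEq, and_false,
        false_and, Bool.true_eq_false, Bool.false_eq_true, true_and, and_true] at hxy
      · obtain ⟨rfl, rfl, hb⟩ := hxy
        rw [Fin.ext hb]
      · obtain ⟨rfl, rfl, ha⟩ := hxy
        rw [Fin.ext ha]
      · subst hxy
        simp_all
  · intro x _ y _ hxy
    rcases x with j | ⟨j, a, b⟩ <;> rcases y with j' | ⟨j', a', b'⟩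
    · simp_all [uu, ww]
    · simp only [uu, ww] at hxy
      split_ifs at hxy <;> simp at hxy
    · simp [uu, ww] at hxy
    · simp only [uu, ww] at hxy
      split_ifs at hxy <;> simp at hxy
  · -- adjacency
    intro x hx
    rcases x with j | ⟨j, a, b⟩
    · left
      show j = j ∧ (1 : Fin 3) < 2
      exact ⟨rfl, by decide⟩
    · simp only [JJ, Finset.mem_filter, Finset.mem_univ, true_and] at hx
      simp only [uu, ww]
      split_ifs with h1 h2
      · left
        exact ⟨hx, Or.inl ⟨rfl, rfl, rfl⟩⟩
      · left
        exact ⟨hx, Or.inr ⟨rfl, rfl, rfl⟩⟩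
      · right
        exact ⟨rfl, rfl, hx⟩
  · intro x _
    rcases x with j | ⟨j, a, b⟩
    · simp only [uu, mem_del]
      rintro ⟨h, -⟩
      exact absurd h (by decide)
    · simp only [uu, mem_del]
      exact fun h => h
  · intro x hx
    rcases x with j | ⟨j, a, b⟩
    · simp only [ww, mem_del]
      rintro ⟨h, -⟩
      exact absurd h (by decide)
    · simp only [JJ, Finset.mem_filter, Finset.mem_univ, true_and] at hx
      simp only [ww]
      split_ifs with h1 h2
      · rw [mem_del]
        rintro (⟨-, h⟩ | ⟨h, -⟩)
        · exact h1 h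
        · exact absurd h (by decide)
      · rw [mem_del]
        rintro (⟨h, -⟩ | ⟨-, h⟩)
        · exact absurd h (by decide)
        · exact h2 h
      · rw [mem_del]
        rintro ⟨-, h⟩
        push Not at h1 h2
        apply h
        rw [sat, ← h1, ← h2]
        exact hx

lemma feasible_del : Feasible (gad I) (del I σ τ) := by
  obtain ⟨hM, hcard⟩ := pair_del I σ τ
  refine feasible_of_cover hM (yy I σ τ) ?_ ?_ (by rw [hcard, sum_yy])
  · rintro ⟨j, κ⟩
    cases κ <;> simp only [yy] <;> (try split_ifs) <;> norm_num
  · have key : ∀ u v, arc I u v → u ∉ del I σ τ → v ∉ del I σ τ →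
        1 ≤ yy I σ τ u + yy I σ τ v := by
      rintro ⟨j, κ⟩ ⟨j', κ'⟩ h hu hv
      simp only [del, Finset.mem_filter, Finset.mem_univ, true_and] at hu hv
      cases κ with
      | tri i =>
        cases κ' with
        | tri i' =>
          simp only [arc] at h
          obtain ⟨rfl, hlt⟩ := h
          have hi' : i' ≠ 0 := by
            rintro rfl
            exact absurd hlt (Fin.not_lt_zero i)
          simp only [yy, if_neg hi']
          by_cases hi : i = 0
          · have hs : sat I σ τ j := by
              by_contra hns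
              exact hu ⟨hi, hns⟩
            simp only [hi, if_true, hs]
            norm_num
          · simp only [if_neg hi]
            norm_num
        | cho a b =>
          simp only [arc] at h
          obtain ⟨rfl, rfl, hrel⟩ := h
          have hs : sat I σ τ j := by
            by_contra hns
            exact hu ⟨rfl, hns⟩
          simp only [yy, hs, hrel, if_true]
          split_ifs <;> norm_num
        | sng s c r => simp [arc] at h
      | cho a b =>
        cases κ' with
        | tri i' => simp [arc] at h
        | cho a' b' => simp [arc] at h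
        | sng s c r =>
          simp only [arc] at h
          obtain ⟨hrel, h⟩ := h
          have hns : ¬ (a = σ (I.left j) ∧ b = τ (I.right j)) := by
            rintro ⟨rfl, rfl⟩
            rcases h with ⟨rfl, hl, rfl⟩ | ⟨rfl, hr, rfl⟩
            · exact hv (Or.inl ⟨rfl, by rw [hl]⟩)
            · exact hv (Or.inr ⟨rfl, by rw [hr]⟩)
          simp only [yy, hrel, if_true, if_neg hns]
          norm_num
      | sng s c r => cases κ' <;> simp [arc] at h
    intro u v huv hu hv
    rcases huv with h | h
    · exact key u v h hu hv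
    · rw [add_comm]; exact key v u h hv hu

lemma cost_del (K : ℕ) : ∑ v ∈ del I σ τ, kcost K v.2 =
    4 * k * I.m + K * (I.m - I.numSat σ τ) := by
  have h0 : ∑ v ∈ del I σ τ, kcost K v.2 =
      ∑ j : Fin I.m, (4 * k + K * (if sat I σ τ j then 0 else 1)) := by
    unfold del
    rw [Finset.sum_filter, Fintype.sum_prod_type]
    refine Finset.sum_congr rfl fun j _ => ?_
    rw [sum_kind]
    have h1 : ∑ i : Fin 3, (if inDel I σ τ (j, .tri i) then kcost K (Kind.tri i : Kind k) else 0) =
        K * (if sat I σ τ j then 0 else 1) := by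
      rw [Fin.sum_univ_three]
      simp only [inDel, kcost]
      by_cases h : sat I σ τ j <;> simp [h]
    have h2 : ∑ a : Fin k, ∑ b : Fin k,
        (if inDel I σ τ (j, .cho a b) then kcost K (Kind.cho a b : Kind k) else 0) = 0 := by
      simp [inDel]
    have h3 : ∑ s : Bool, ∑ c : Fin k, ∑ r : Fin (2 * k),
        (if inDel I σ τ (j, .sng s c r) then kcost K (Kind.sng s c r : Kind k) else 0)
        = 4 * k := by
      simp only [inDel, kcost, Fintype.sum_bool]
      simp only [Bool.true_eq_false, false_and, Bool.false_eq_true, true_and, false_or, or_false,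
        Finset.sum_const, Finset.card_univ, Fintype.card_fin, smul_eq_mul]
      rw [← Finset.mul_sum, ← Finset.mul_sum]
      simp only [Finset.sum_ite_eq', Finset.mem_univ, if_true]
      ring
    simp only at h1 h2 h3 ⊢
    rw [h1, h2, h3]
    ring
  rw [h0, Finset.sum_add_distrib, ← Finset.mul_sum]
  congr 1
  · simp; ring
  · rw [← Finset.mul_sum]
    congr 1
    unfold Csp.numSat
    have h1 : ∑ j : Fin I.m, (if sat I σ τ j then 0 else 1) =
        (univ.filter fun j => ¬ sat I σ τ j).card := by
      rw [Finset.card_filter]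
      refine Finset.sum_congr rfl fun j _ => ?_
      by_cases h : sat I σ τ j <;> simp [h]
    rw [h1]
    have h2 := Finset.card_filter_add_card_filter_not (s := (univ : Finset (Fin I.m)))
      (fun j => sat I σ τ j)
    simp only [Finset.card_univ, Fintype.card_fin] at h2
    have h3 : (univ.filter fun j => I.rel j (σ (I.left j)) (τ (I.right j)) = true).card =
        (univ.filter fun j => sat I σ τ j).card := by
      exact congrArg Finset.card (Finset.filter_congr fun j _ => Iff.rfl)
    rw [h3]
    omega

end

end Pool.Agent.Lib_helper36.Stab
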