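import Pool.Agent.Lib_helper36.StabDefs

set_option autoImplicit false
set_option linter.unusedSectionVars false

open Finset
open scoped Classical

namespace Pool.Agent.Lib_helper36.Stab

section general

lemma fsum_eq {V : Type*} [Fintype V] (x : Sym2 V → ℝ) : ∑ᶠ e, x e = ∑ e, x e :=
  finsum_eq_sum_of_fintype x

lemma vsum_eq {V : Type*} [Fintype V] (x : Sym2 V → ℝ) (v : V)
    [DecidablePred fun e : Sym2 V => v ∈ e] :
    ∑ᶠ e ∈ {e : Sym2 V | v ∈ e}, x e = ∑ e ∈ univ.filter (fun e => v ∈ e), x e := by
  rw [finsum_mem_def, finsum_eq_sum_of_fintype, Finset.sum_filter]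
  refine Finset.sum_congr rfl fun e _ => ?_
  rw [Set.indicator_apply]
  simp only [Set.mem_ofPred_eq]

variable {V : Type*} [Fintype V] {G : SimpleGraph V}

/-- double counting of a fractional matching against vertex weights -/
lemma frac_le_cover {x : Sym2 V → ℝ} (hx : IsFracMatching G x) (y : V → ℝ) (hy : ∀ v, 0 ≤ y v)
    (hcov : ∀ u v, G.Adj u v → x s(u, v) ≠ 0 → 1 ≤ y u + y v) : ∑ e, x e ≤ ∑ v, y v := by
  have h1 : ∀ e : Sym2 V, x e ≤ x e * ∑ v ∈ univ.filter (fun v => v ∈ e), y v := by
    intro e
    by_cases h0 : x e = 0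
    · rw [h0]; simp
    · have he : e ∈ G.edgeSet := by
        by_contra hcon
        exact h0 (hx.2.1 e hcon)
      induction e using Sym2.ind with
      | _ u v =>
        have hadj : G.Adj u v := he
        have hne : u ≠ v := hadj.ne
        have hs : univ.filter (fun w => w ∈ s(u, v)) = {u, v} := by
          ext w; simp
        rw [hs, Finset.sum_pair hne]
        have := hcov u v hadj h0
        have h3 := hx.1 s(u, v)
        nlinarith
  calc ∑ e, x e ≤ ∑ e, x e * ∑ v ∈ univ.filter (fun v => v ∈ e), y v :=
        Finset.sum_le_sum fun e _ => h1 e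
    _ = ∑ e, ∑ v, (if v ∈ e then x e * y v else 0) := by
        refine Finset.sum_congr rfl fun e _ => ?_
        rw [Finset.mul_sum, Finset.sum_filter]
    _ = ∑ v, ∑ e, (if v ∈ e then x e * y v else 0) := Finset.sum_comm
    _ = ∑ v, y v * ∑ᶠ e ∈ {e : Sym2 V | v ∈ e}, x e := by
        refine Finset.sum_congr rfl fun v _ => ?_
        rw [vsum_eq, Finset.mul_sum, Finset.sum_filter]
        refine Finset.sum_congr rfl fun e _ => ?_
        split_ifs
        · ring
        · ring
    _ ≤ ∑ v, y v * 1 := by
        refine Finset.sum_le_sum fun v _ => ?_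
        exact mul_le_mul_of_nonneg_left (hx.2.2 v) (hy v)
    _ = ∑ v, y v := by simp

lemma frac_bdd : BddAbove {r : ℝ | ∃ x, IsFracMatching G x ∧ ∑ᶠ e, x e = r} := by
  refine ⟨∑ _v : V, (1 : ℝ), ?_⟩
  rintro r ⟨x, hx, rfl⟩
  rw [fsum_eq]
  exact frac_le_cover hx (fun _ => 1) (fun _ => zero_le_one) fun u v _ _ => by norm_num

/-- the indicator of a matching is a fractional matching -/
lemma indicator_frac {M : Finset (Sym2 V)} (hM : IsMatching G M) :
    IsFracMatching G (fun e => if e ∈ M then 1 else 0) := by
  refine ⟨fun e => by positivity, fun e he => ?_, fun v => ?_⟩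
  · have : e ∉ M := fun h => he (hM.1 e h)
    simp [this]
  · rw [vsum_eq, Finset.sum_ite_mem]
    simp only [Finset.sum_const, nsmul_eq_mul, mul_one]
    have : ((univ.filter fun e => v ∈ e) ∩ M).card ≤ 1 := by
      rw [Finset.card_le_one]
      intro a ha b hb
      simp only [Finset.mem_inter, Finset.mem_filter, Finset.mem_univ, true_and] at ha hb
      exact hM.2 a ha.2 b hb.2 v ha.1 hb.1
    exact_mod_cast this

lemma card_le_nuf {M : Finset (Sym2 V)} (hM : IsMatching G M) : (M.card : ℝ) ≤ nuf G := by
  refine le_csSup frac_bdd ⟨_, indicator_frac hM, ?_⟩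
  rw [fsum_eq]
  simp

lemma matching_bdd : BddAbove {t : ℕ | ∃ M, IsMatching G M ∧ M.card = t} := by
  refine ⟨Fintype.card (Sym2 V), ?_⟩
  rintro t ⟨M, -, rfl⟩
  exact Finset.card_le_univ M

lemma exists_max_matching (G : SimpleGraph V) : ∃ M, IsMatching G M ∧ M.card = nu G := by
  have hne : {t : ℕ | ∃ M, IsMatching G M ∧ M.card = t}.Nonempty :=
    ⟨0, ∅, ⟨by simp, by simp⟩, rfl⟩
  exact Nat.sSup_mem hne matching_bdd

lemma card_le_nu {M : Finset (Sym2 V)} (hM : IsMatching G M) : M.card ≤ nu G :=
  le_csSup matching_bdd ⟨M, hM, rfl⟩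

lemma frac_le_nuf {x : Sym2 V → ℝ} (hx : IsFracMatching G x) : ∑ e, x e ≤ nuf G :=
  le_csSup frac_bdd ⟨x, hx, fsum_eq x⟩

/-- stability in terms of one matching dominating every fractional matching -/
lemma stable_iff : Stable G ↔ ∃ M, IsMatching G M ∧ ∀ x, IsFracMatching G x → ∑ e, x e ≤ M.card := by
  constructor
  · intro h
    obtain ⟨M, hM, hcard⟩ := exists_max_matching G
    refine ⟨M, hM, fun x hx => ?_⟩
    have := frac_le_nuf hx
    rw [hcard]
    rw [Stable] at h
    rw [h]; exact this
  · rintro ⟨M, hM, h⟩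
    have h1 : nuf G ≤ M.card := by
      refine csSup_le ⟨_, fun _ => 0, ⟨fun _ => le_rfl, fun _ _ => rfl, fun v => by simp⟩, rfl⟩ ?_
      rintro r ⟨x, hx, rfl⟩
      rw [fsum_eq]
      exact h x hx
    have h2 : (M.card : ℝ) ≤ nu G := by exact_mod_cast card_le_nu hM
    obtain ⟨M', hM', hcard⟩ := exists_max_matching G
    have h3 := card_le_nuf hM'
    rw [hcard] at h3
    exact le_antisymm h3 (h1.trans h2)

end general

section off

variable {V : Type*} [Fintype V] {G : SimpleGraph V} {S : Finset V}

/-- matchings of `G` avoiding `S` -/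
def OffMatching (G : SimpleGraph V) (S : Finset V) (M : Finset (Sym2 V)) : Prop :=
  IsMatching G M ∧ ∀ e ∈ M, ∀ v ∈ e, v ∉ S

/-- fractional matchings of `G` avoiding `S` -/
def OffFrac (G : SimpleGraph V) (S : Finset V) (x : Sym2 V → ℝ) : Prop :=
  IsFracMatching G x ∧ ∀ e, ∀ v ∈ e, v ∈ S → x e = 0

/-- the vertex set of the induced subgraph -/
abbrev Sub (S : Finset V) : Type _ := ({v | v ∉ S} : Set V)

/-- the inclusion on edges -/
def emb (S : Finset V) : Sym2 (Sub S) ↪ Sym2 V :=
  ⟨Sym2.map Subtype.val, Sym2.map.injective Subtype.val_injective⟩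

lemma mem_emb {e : Sym2 (Sub S)} {v : V} : v ∈ emb S e ↔ ∃ h : v ∉ S, (⟨v, h⟩ : Sub S) ∈ e := by
  simp only [emb, Function.Embedding.coeFn_mk, Sym2.mem_map]
  constructor
  · rintro ⟨⟨a, ha⟩, h, rfl⟩; exact ⟨ha, h⟩
  · rintro ⟨h, h'⟩; exact ⟨⟨v, h⟩, h', rfl⟩

lemma exists_emb {e : Sym2 V} (h : ∀ v ∈ e, v ∉ S) : ∃ e', emb S e' = e := by
  induction e using Sym2.ind with
  | _ u v => exact ⟨s((⟨u, h u (by simp)⟩ : Sub S), (⟨v, h v (by simp)⟩ : Sub S)), rfl⟩

lemma emb_mem_edgeSet {e : Sym2 (Sub S)} :
    e ∈ (G.induce {v | v ∉ S}).edgeSet ↔ emb S e ∈ G.edgeSet := by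
  induction e using Sym2.ind with
  | _ u v => rfl

lemma feasible_iff : Feasible G S ↔ ∃ M, OffMatching G S M ∧ ∀ x, OffFrac G S x →
    ∑ e, x e ≤ M.card := by
  have hfin : Feasible G S ↔ ∃ M, IsMatching (G.induce {v | v ∉ S}) M ∧
      ∀ x, IsFracMatching (G.induce {v | v ∉ S}) x → ∑ e : Sym2 (Sub S), x e ≤ M.card := by
    unfold Feasible
    exact stable_iff
  rw [hfin]
  constructor
  · rintro ⟨M, hM, h⟩
    refine ⟨M.map (emb S), ⟨⟨?_, ?_⟩, ?_⟩, ?_⟩
    · intro e he
      rw [Finset.mem_map] at he
      obtain ⟨e', he', rfl⟩ := he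
      exact emb_mem_edgeSet.mp (hM.1 e' he')
    · intro e he e2 he2 v hv hv2
      rw [Finset.mem_map] at he he2
      obtain ⟨e', he', rfl⟩ := he
      obtain ⟨e2', he2', rfl⟩ := he2
      obtain ⟨h1, h2⟩ := mem_emb.mp hv
      obtain ⟨h3, h4⟩ := mem_emb.mp hv2
      rw [hM.2 e' he' e2' he2' ⟨v, h1⟩ h2 h4]
    · intro e he v hv
      rw [Finset.mem_map] at he
      obtain ⟨e', he', rfl⟩ := he
      exact (mem_emb.mp hv).1
    · intro x hx
      rw [Finset.card_map]
      have hx0 : IsFracMatching (G.induce {v | v ∉ S}) (fun e : Sym2 (Sub S) => x (emb S e)) := by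
        refine ⟨fun e => hx.1.1 _, fun e he => hx.1.2.1 _ fun h => he (emb_mem_edgeSet.mpr h),
          fun v => ?_⟩
        have h1 : ∑ e ∈ (univ : Finset (Sym2 (Sub S))).filter (fun e => v ∈ e), x (emb S e)
            = ∑ e ∈ ((univ : Finset (Sym2 (Sub S))).filter (fun e => v ∈ e)).map (emb S),
              x e := by
          rw [Finset.sum_map]
        have h0 := hx.1.2.2 v.1
        rw [vsum_eq] at h0 ⊢
        refine h1.le.trans (le_trans ?_ h0)
        refine Finset.sum_le_sum_of_subset_of_nonneg ?_ fun e _ _ => hx.1.1 e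
        intro e he
        rw [Finset.mem_map] at he
        obtain ⟨e', he', rfl⟩ := he
        simp only [Finset.mem_filter, Finset.mem_univ, true_and] at he' ⊢
        exact mem_emb.mpr ⟨v.2, he'⟩
      have h2 := h _ hx0
      have h3 : ∑ e, x e = ∑ e, x (emb S e) := by
        rw [← Finset.sum_map univ (emb S) x]
        symm
        refine Finset.sum_subset (Finset.subset_univ _) fun e _ he => ?_
        by_cases hv : ∀ v ∈ e, v ∉ S
        · obtain ⟨e', rfl⟩ := exists_emb hv
          exact absurd (Finset.mem_map_of_mem _ (Finset.mem_univ e')) he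
        · push Not at hv
          obtain ⟨v, hv1, hv2⟩ := hv
          exact hx.2 e v hv1 hv2
      rw [h3]; exact h2
  · rintro ⟨M, hM, h⟩
    have hcard : ((univ : Finset (Sym2 (Sub S))).filter (fun e => emb S e ∈ M)).card = M.card := by
      rw [← Finset.card_map (emb S)]
      congr 1
      ext e
      simp only [Finset.mem_map, Finset.mem_filter, Finset.mem_univ, true_and]
      constructor
      · rintro ⟨e', he', rfl⟩; exact he'
      · intro he
        obtain ⟨e', rfl⟩ := exists_emb (hM.2 e he)
        exact ⟨e', he, rfl⟩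
    refine ⟨(univ : Finset (Sym2 (Sub S))).filter (fun e => emb S e ∈ M), ⟨?_, ?_⟩, ?_⟩
    · intro e he
      simp only [Finset.mem_filter, Finset.mem_univ, true_and] at he
      exact emb_mem_edgeSet.mpr (hM.1.1 _ he)
    · intro e he e' he' v hv hv'
      simp only [Finset.mem_filter, Finset.mem_univ, true_and] at he he'
      exact (emb S).injective (hM.1.2 _ he _ he' v.1 (mem_emb.mpr ⟨v.2, hv⟩)
        (mem_emb.mpr ⟨v.2, hv'⟩))
    · intro x hx
      rw [hcard]
      -- extend `x` by zero
      set x' : Sym2 V → ℝ := fun e => if h : ∃ e', emb S e' = e then x h.choose else 0 with hx'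
      have hval : ∀ e, x' (emb S e) = x e := by
        intro e
        have hex : ∃ e', emb S e' = emb S e := ⟨e, rfl⟩
        rw [hx']
        simp only [dif_pos hex]
        congr 1
        exact (emb S).injective hex.choose_spec
      have hzero : ∀ e, (¬ ∃ e', emb S e' = e) → x' e = 0 := by
        intro e he
        rw [hx']
        simp only [dif_neg he]
      have hsum : ∀ (p : Sym2 V → Prop) [DecidablePred p], ∑ e ∈ univ.filter p, x' e =
          ∑ e ∈ (univ : Finset (Sym2 (Sub S))).filter (fun e => p (emb S e)), x e := by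
        intro p _
        have h1 : ∑ e ∈ (univ : Finset (Sym2 (Sub S))).filter (fun e => p (emb S e)), x e
            = ∑ e ∈ ((univ : Finset (Sym2 (Sub S))).filter (fun e => p (emb S e))).map (emb S),
              x' e := by
          rw [Finset.sum_map]
          exact Finset.sum_congr rfl fun e _ => (hval e).symm
        rw [h1]
        symm
        refine Finset.sum_subset ?_ ?_
        · intro e he
          rw [Finset.mem_map] at he
          obtain ⟨e', he', rfl⟩ := he
          simp only [Finset.mem_filter, Finset.mem_univ, true_and] at he' ⊢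
          exact he'
        · intro e he hne
          apply hzero
          rintro ⟨e', rfl⟩
          apply hne
          simp only [Finset.mem_filter, Finset.mem_univ, true_and] at he
          exact Finset.mem_map_of_mem _ (by simpa using he)
      have hfrac : OffFrac G S x' := by
        refine ⟨⟨fun e => ?_, fun e he => ?_, fun v => ?_⟩, fun e v hv hvS => ?_⟩
        · by_cases hex : ∃ e', emb S e' = e
          · obtain ⟨e', rfl⟩ := hex
            rw [hval]; exact hx.1 e'
          · rw [hzero e hex]
        · by_cases hex : ∃ e', emb S e' = e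
          · obtain ⟨e', rfl⟩ := hex
            rw [hval]
            exact hx.2.1 e' fun h => he (emb_mem_edgeSet.mp h)
          · exact hzero e hex
        · rw [vsum_eq, hsum]
          by_cases hvS : v ∈ S
          · have : ((univ : Finset (Sym2 (Sub S))).filter fun e => v ∈ emb S e) = ∅ := by
              ext e
              simp only [Finset.mem_filter, Finset.mem_univ, true_and, Finset.notMem_empty,
                iff_false]
              intro hmem
              exact (mem_emb.mp hmem).1 hvS
            rw [this]; simp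
          · have : ((univ : Finset (Sym2 (Sub S))).filter fun e => v ∈ emb S e) =
                univ.filter (fun e => (⟨v, hvS⟩ : Sub S) ∈ e) := by
              ext e
              simp only [Finset.mem_filter, Finset.mem_univ, true_and]
              constructor
              · intro hmem
                exact (mem_emb.mp hmem).2
              · intro hmem
                exact mem_emb.mpr ⟨hvS, hmem⟩
            rw [this]
            have h0 := hx.2.2 ⟨v, hvS⟩
            rwa [vsum_eq] at h0
        · apply hzero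
          rintro ⟨e', rfl⟩
          exact (mem_emb.mp hv).1 hvS
      have h1 := h x' hfrac
      have h2 := hsum (fun _ => True)
      simp only [Finset.filter_true] at h2
      rw [← h2]; exact h1

/-- feasibility certificate: a matching and a fractional vertex cover of the same size -/
lemma feasible_of_cover {M : Finset (Sym2 V)} (hM : OffMatching G S M) (y : V → ℝ)
    (hy : ∀ v, 0 ≤ y v) (hcov : ∀ u v, G.Adj u v → u ∉ S → v ∉ S → 1 ≤ y u + y v)
    (hsum : ∑ v, y v ≤ M.card) : Feasible G S := by
  rw [feasible_iff]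
  refine ⟨M, hM, fun x hx => (frac_le_cover hx.1 y hy ?_).trans hsum⟩
  intro u v huv hne
  refine hcov u v huv (fun hu => hne (hx.2 _ u (by simp) hu)) (fun hv => hne (hx.2 _ v (by simp) hv))

/-- an optimal matching: it dominates every fractional matching -/
def Opt (G : SimpleGraph V) (S : Finset V) (M : Finset (Sym2 V)) : Prop :=
  OffMatching G S M ∧ ∀ x, OffFrac G S x → ∑ e, x e ≤ M.card

/-- In an optimal matching the hub `a` of a pendant triangle `a b c` is matched outside. -/
lemma hub_matched {M : Finset (Sym2 V)} (hM : Opt G S M) {a b c : V}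
    (ha : a ∉ S) (hb : b ∉ S) (hc : c ∉ S) (hab : G.Adj a b) (hac : G.Adj a c) (hbc : G.Adj b c)
    (hNb : ∀ z, G.Adj b z → z = a ∨ z = c) (hNc : ∀ z, G.Adj c z → z = a ∨ z = b) :
    ∃ z, s(a, z) ∈ M ∧ z ≠ b ∧ z ≠ c := by
  by_contra hcon
  push Not at hcon
  have hab' := hab.ne
  have hac' := hac.ne
  have hbc' := hbc.ne
  set D : Finset (Sym2 V) := {s(a, b), s(b, c), s(a, c)} with hD
  set M0 := M.filter (fun e => a ∉ e ∧ b ∉ e ∧ c ∉ e) with hM0
  have hDM : ∀ e ∈ M, e ∉ M0 → e ∈ D := by
    intro e he hne
    have h1 : a ∈ e ∨ b ∈ e ∨ c ∈ e := by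
      by_contra h
      push Not at h
      exact hne (Finset.mem_filter.mpr ⟨he, h⟩)
    have hedge := hM.1.1.1 e he
    rcases h1 with h | h | h
    · obtain ⟨z, rfl⟩ := Sym2.mem_iff_exists.mp h
      by_cases hz : z = b
      · subst hz; simp [hD]
      · have := hcon z he hz
        subst this; simp [hD]
    · obtain ⟨z, rfl⟩ := Sym2.mem_iff_exists.mp h
      rcases hNb z hedge with rfl | rfl
      · rw [Sym2.eq_swap]; simp [hD]
      · simp [hD]
    · obtain ⟨z, rfl⟩ := Sym2.mem_iff_exists.mp h
      rcases hNc z hedge with rfl | rfl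
      · rw [Sym2.eq_swap]; simp [hD]
      · rw [Sym2.eq_swap]; simp [hD]
  have hshare : ∀ e ∈ D, ∀ e' ∈ D, ∃ v, v ∈ e ∧ v ∈ e' := by
    intro e he e' he'
    simp only [hD, Finset.mem_insert, Finset.mem_singleton] at he he'
    have e1 : a ∈ s(a, b) := Sym2.mem_mk_left _ _
    have e2 : b ∈ s(a, b) := Sym2.mem_mk_right _ _
    have e3 : b ∈ s(b, c) := Sym2.mem_mk_left _ _
    have e4 : c ∈ s(b, c) := Sym2.mem_mk_right _ _
    have e5 : a ∈ s(a, c) := Sym2.mem_mk_left _ _
    have e6 : c ∈ s(a, c) := Sym2.mem_mk_right _ _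
    rcases he with rfl | rfl | rfl <;> rcases he' with rfl | rfl | rfl
    · exact ⟨a, e1, e1⟩
    · exact ⟨b, e2, e3⟩
    · exact ⟨a, e1, e5⟩
    · exact ⟨b, e3, e2⟩
    · exact ⟨b, e3, e3⟩
    · exact ⟨c, e4, e6⟩
    · exact ⟨a, e5, e1⟩
    · exact ⟨c, e6, e4⟩
    · exact ⟨a, e5, e5⟩
  have hcard : M.card ≤ M0.card + 1 := by
    have h1 : (M \ M0).card ≤ 1 := by
      rw [Finset.card_le_one]
      intro e he e' he'
      rw [Finset.mem_sdiff] at he he'
      obtain ⟨v, hv, hv'⟩ := hshare e (hDM e he.1 he.2) e' (hDM e' he'.1 he'.2)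
      exact hM.1.1.2 e he.1 e' he'.1 v hv hv'
    have h2 : (M \ M0).card + M0.card = M.card := by
      rw [Finset.card_sdiff_add_card_eq_card (Finset.filter_subset _ _)]
    omega
  have hDcard : D.card = 3 := by
    rw [hD]
    refine Finset.card_eq_three.mpr ⟨_, _, _, ?_, ?_, ?_, rfl⟩
    · simp only [ne_eq, Sym2.eq_iff]; tauto
    · simp only [ne_eq, Sym2.eq_iff]; tauto
    · simp only [ne_eq, Sym2.eq_iff]; tauto
  have hdisj : ∀ e ∈ M0, e ∉ D := by
    intro e he heD
    have h := (Finset.mem_filter.mp he).2
    simp only [hD, Finset.mem_insert, Finset.mem_singleton] at heD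
    rcases heD with rfl | rfl | rfl
    · exact h.1 (by simp)
    · exact h.2.1 (by simp)
    · exact h.1 (by simp)
  -- the half-integral fractional matching
  have hfrac : OffFrac G S (fun e => (if e ∈ M0 then (1 : ℝ) else 0) + (if e ∈ D then 1 / 2 else 0)) := by
    refine ⟨⟨fun e => by positivity, fun e he => ?_, fun v => ?_⟩, fun e v hv hvS => ?_⟩
    · have h1 : e ∉ M0 := fun h => he (hM.1.1.1 e (Finset.mem_filter.mp h).1)
      have h2 : e ∉ D := by
        intro h
        simp only [hD, Finset.mem_insert, Finset.mem_singleton] at h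
        rcases h with rfl | rfl | rfl
        · exact he hab
        · exact he hbc
        · exact he hac
      simp [h1, h2]
    · rw [vsum_eq, Finset.sum_add_distrib, Finset.sum_ite_mem, Finset.sum_ite_mem]
      simp only [Finset.sum_const, nsmul_eq_mul, mul_one]
      by_cases hv : v = a ∨ v = b ∨ v = c
      · have h1 : (univ.filter fun e => v ∈ e) ∩ M0 = ∅ := by
          ext e
          simp only [Finset.mem_inter, Finset.mem_filter, Finset.mem_univ, true_and,
            Finset.notMem_empty, iff_false, not_and]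
          intro hve he
          have h := (Finset.mem_filter.mp he).2
          rcases hv with rfl | rfl | rfl
          · exact h.1 hve
          · exact h.2.1 hve
          · exact h.2.2 hve
        have h2 : ((univ.filter fun e => v ∈ e) ∩ D).card ≤ 2 := by
          have hsub : ∃ e ∈ D, v ∉ e := by
            rcases hv with rfl | rfl | rfl
            · exact ⟨s(b, c), by simp [hD], by simp [hab', hac']⟩
            · exact ⟨s(a, c), by simp [hD], by simp [hab'.symm, hbc']⟩
            · exact ⟨s(a, b), by simp [hD], by simp [hac'.symm, hbc'.symm]⟩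
          obtain ⟨e0, he0, hve0⟩ := hsub
          have hsub2 : (univ.filter fun e => v ∈ e) ∩ D ⊆ D.erase e0 := by
            intro e he
            simp only [Finset.mem_inter, Finset.mem_filter, Finset.mem_univ, true_and] at he
            refine Finset.mem_erase.mpr ⟨?_, he.2⟩
            rintro rfl
            exact hve0 he.1
          have := Finset.card_le_card hsub2
          rw [Finset.card_erase_of_mem he0, hDcard] at this
          exact this
        rw [h1]
        simp only [Finset.card_empty, Nat.cast_zero, zero_add]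
        have h3 : (((univ.filter fun e => v ∈ e) ∩ D).card : ℝ) ≤ 2 := by exact_mod_cast h2
        linarith
      · push Not at hv
        have h1 : (univ.filter fun e => v ∈ e) ∩ D = ∅ := by
          ext e
          simp only [Finset.mem_inter, Finset.mem_filter, Finset.mem_univ, true_and,
            Finset.notMem_empty, iff_false, not_and]
          intro hve he
          simp only [hD, Finset.mem_insert, Finset.mem_singleton] at he
          rcases he with rfl | rfl | rfl <;> · simp at hve; tauto
        have h2 : ((univ.filter fun e => v ∈ e) ∩ M0).card ≤ 1 := by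
          rw [Finset.card_le_one]
          intro e he e' he'
          simp only [Finset.mem_inter, Finset.mem_filter, Finset.mem_univ, true_and] at he he'
          exact hM.1.1.2 e (Finset.mem_filter.mp he.2).1 e' (Finset.mem_filter.mp he'.2).1 v
            he.1 he'.1
        rw [h1]
        simp only [Finset.card_empty, Nat.cast_zero, zero_mul, add_zero]
        exact_mod_cast h2
    · have h1 : e ∉ M0 := fun h => hM.1.2 e (Finset.mem_filter.mp h).1 v hv hvS
      have h2 : e ∉ D := by
        intro h
        simp only [hD, Finset.mem_insert, Finset.mem_singleton] at h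
        rcases h with rfl | rfl | rfl <;>
        · simp only [Sym2.mem_iff] at hv
          rcases hv with rfl | rfl <;> contradiction
      simp [h1, h2]
  have h1 := hM.2 _ hfrac
  rw [Finset.sum_add_distrib, Finset.sum_ite_mem, Finset.sum_ite_mem] at h1
  simp only [Finset.univ_inter, Finset.sum_const, nsmul_eq_mul, mul_one, hDcard] at h1
  have h2 : (M.card : ℝ) ≤ M0.card + 1 := by exact_mod_cast hcard
  norm_num at h1
  linarith

/-- If the hub is matched to `z`, all other remaining neighbours of `z` are covered. -/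
lemma neighbours_covered {M : Finset (Sym2 V)} (hM : Opt G S M) {a b c : V}
    (ha : a ∉ S) (hb : b ∉ S) (hc : c ∉ S) (hab : G.Adj a b) (hac : G.Adj a c) (hbc : G.Adj b c)
    (hNb : ∀ z, G.Adj b z → z = a ∨ z = c) (hNc : ∀ z, G.Adj c z → z = a ∨ z = b)
    {z : V} (hz : s(a, z) ∈ M) (hzb : z ≠ b) (hzc : z ≠ c) {w : V} (hw : w ∉ S) (hwa : w ≠ a)
    (hzw : G.Adj z w) : ∃ e ∈ M, w ∈ e := by
  by_contra hcon
  push Not at hcon
  have haz : G.Adj a z := hM.1.1.1 _ hz
  have hzS : z ∉ S := hM.1.2 _ hz z (by simp)
  have hnew : s(z, w) ∉ M := fun h => hcon _ h (by simp)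
  set M' := insert s(z, w) (M.erase s(a, z)) with hM'
  have hcard : M'.card = M.card := by
    rw [hM', Finset.card_insert_of_notMem (fun h => hnew (Finset.mem_of_mem_erase h)),
      Finset.card_erase_of_mem hz]
    have : 0 < M.card := Finset.card_pos.mpr ⟨_, hz⟩
    omega
  have hz_unique : ∀ e ∈ M.erase s(a, z), z ∉ e := by
    intro e he hze
    have h1 := hM.1.1.2 e (Finset.mem_of_mem_erase he) _ hz z hze (by simp)
    exact Finset.ne_of_mem_erase he h1
  have hopt : Opt G S M' := by
    refine ⟨⟨⟨?_, ?_⟩, ?_⟩, ?_⟩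
    · intro e he
      rw [hM', Finset.mem_insert] at he
      rcases he with rfl | he
      · exact hzw
      · exact hM.1.1.1 e (Finset.mem_of_mem_erase he)
    · intro e he e' he' v hv hv'
      rw [hM', Finset.mem_insert] at he he'
      rcases he with rfl | he <;> rcases he' with rfl | he'
      · rfl
      · exfalso
        rw [Sym2.mem_iff] at hv
        rcases hv with rfl | rfl
        · exact hz_unique e' he' hv'
        · exact hcon e' (Finset.mem_of_mem_erase he') hv'
      · exfalso
        rw [Sym2.mem_iff] at hv'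
        rcases hv' with rfl | rfl
        · exact hz_unique e he hv
        · exact hcon e (Finset.mem_of_mem_erase he) hv
      · exact hM.1.1.2 e (Finset.mem_of_mem_erase he) e' (Finset.mem_of_mem_erase he') v hv hv'
    · intro e he v hv
      rw [hM', Finset.mem_insert] at he
      rcases he with rfl | he
      · rw [Sym2.mem_iff] at hv
        rcases hv with rfl | rfl
        · exact hzS
        · exact hw
      · exact hM.1.2 e (Finset.mem_of_mem_erase he) v hv
    · intro x hx
      rw [hcard]
      exact hM.2 x hx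
  obtain ⟨z', hz', hz'b, hz'c⟩ := hub_matched hopt ha hb hc hab hac hbc hNb hNc
  rw [hM', Finset.mem_insert] at hz'
  rcases hz' with h | h
  · rw [Sym2.eq_iff] at h
    rcases h with ⟨h, -⟩ | ⟨h, -⟩
    · exact haz.ne h
    · exact hwa h.symm
  · have h1 := hM.1.1.2 _ (Finset.mem_of_mem_erase h) _ hz a (by simp) (by simp)
    exact Finset.ne_of_mem_erase h h1

lemma feasible_iff_opt : Feasible G S ↔ ∃ M, Opt G S M := feasible_iff

end off

end Pool.Agent.Lib_helper36.Stab
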