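import Mathlib
import Pool.Prelude.Def_H_3587d628

/-!
# Stable graphs, the vertex-deletion problem, and gap problems for binary constraints: definitions

The complexity classes `N68a2faeb.P`, `N68a2faeb.NP` and the class `N68a2faeb.IsPolyTime` of
functions computable in polynomial time (by the multi-stack Turing machines of Mathlib) are those
of the Prelude.
-/

set_option autoImplicit false

namespace Pool.Agent.Lib_helper36.Stab

/-! ## Matchings and stable graphs -/

/-- A matching of `G`, as a finite set of edges no two of which share a vertex. -/
def IsMatching {V : Type*} (G : SimpleGraph V) (M : Finset (Sym2 V)) : Prop :=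
  (∀ e ∈ M, e ∈ G.edgeSet) ∧ ∀ e ∈ M, ∀ e' ∈ M, ∀ v, v ∈ e → v ∈ e' → e = e'

/-- `ν(G)`: the maximum size of a matching (`V` is finite in all uses). -/
noncomputable def nu {V : Type*} (G : SimpleGraph V) : ℕ :=
  sSup {t : ℕ | ∃ M, IsMatching G M ∧ M.card = t}

/-- A fractional matching: nonnegative weights `x e` on the edges (`0` off the edge set) such
that for every vertex `v` the weights of the edges containing `v` sum to at most `1`. -/
def IsFracMatching {V : Type*} (G : SimpleGraph V) (x : Sym2 V → ℝ) : Prop :=
  (∀ e, 0 ≤ x e) ∧ (∀ e, e ∉ G.edgeSet → x e = 0) ∧ ∀ v, ∑ᶠ e ∈ {e : Sym2 V | v ∈ e}, x e ≤ 1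

/-- `ν_f(G)`: the fractional matching number (`V` is finite in all uses). -/
noncomputable def nuf {V : Type*} (G : SimpleGraph V) : ℝ :=
  sSup {r : ℝ | ∃ x, IsFracMatching G x ∧ ∑ᶠ e, x e = r}

/-- `G` is stable: `ν(G) = ν_f(G)`. -/
def Stable {V : Type*} (G : SimpleGraph V) : Prop := (nu G : ℝ) = nuf G

/-- `S` is feasible for the vertex-deletion problem: `G \ S`, the subgraph induced on the
complement of `S`, is stable. -/
def Feasible {V : Type*} (G : SimpleGraph V) (S : Finset V) : Prop :=
  Stable (G.induce {v | v ∉ S})

/-! ## Encodings by bit strings -/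

/-- the number `n` in unary, delimited: `n` ones followed by a zero -/
def unary (n : ℕ) : List Bool := List.replicate n true ++ [false]

/-- a rectangular table of bits, row by row -/
def table {a b : ℕ} (f : Fin a → Fin b → Bool) : List Bool :=
  (List.finRange a).flatMap fun i => (List.finRange b).map (f i)

open scoped Classical in
/-- The encoding of a graph on `{0, …, N-1}` with nonnegative integer vertex costs: `N` in unary,
the adjacency matrix row by row, and the costs in binary (delimited). -/
noncomputable def encodeInst {N : ℕ} (G : SimpleGraph (Fin N)) (c : Fin N → ℕ) : List Bool :=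
  unary N ++ table (fun u v => decide (G.Adj u v)) ++
    (List.finRange N).flatMap fun v => N487b59b3.delimit (N487b59b3.bitEncode (c v))

/-- The encoding of a set of vertices by its characteristic vector. -/
def encodeSet {N : ℕ} (S : Finset (Fin N)) : List Bool :=
  (List.finRange N).map fun v => decide (v ∈ S)

/-! ## Approximation algorithms for min-Cost-VERTEX-DEL -/

/-- `A` is an `α`-approximation algorithm for min-Cost-VERTEX-DEL on instances whose vertex costs
are nonnegative integers taking at most two values: on (the encoding of) such an instance it
outputs (the encoding of) a feasible set whose cost is at most `α` times the cost of every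
feasible set. -/
def ApproxTwoCosts (α : ℝ) (A : List Bool → List Bool) : Prop :=
  ∀ (N : ℕ) (G : SimpleGraph (Fin N)) (c : Fin N → ℕ), (∃ p q : ℕ, ∀ v, c v = p ∨ c v = q) →
    ∃ S : Finset (Fin N), A (encodeInst G c) = encodeSet S ∧ Feasible G S ∧
      ∀ S' : Finset (Fin N), Feasible G S' →
        ((∑ v ∈ S, c v : ℕ) : ℝ) ≤ α * ((∑ v ∈ S', c v : ℕ) : ℝ)

/-! ## Gap problems for binary constraint satisfaction -/

/-- An instance of a bipartite binary constraint satisfaction problem over the alphabet
`{0, …, k-1}` (a two-prover one-round game): `n` variables on each side, `m` constraints; the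
`j`-th constraint is put on the left variable `left j` and the right variable `right j`, and is
satisfied by the values `a`, `b` iff `rel j a b = true`. -/
structure Csp (k : ℕ) where
  m : ℕ
  n : ℕ
  left : Fin m → Fin n
  right : Fin m → Fin n
  rel : Fin m → Fin k → Fin k → Bool

namespace Csp

variable {k : ℕ} (I : Csp k)

/-- the number of constraints satisfied by a labeling of the variables -/
def numSat (σ τ : Fin I.n → Fin k) : ℕ :=
  (Finset.univ.filter fun j => I.rel j (σ (I.left j)) (τ (I.right j)) = true).card

/-- completeness case: some labeling satisfies at least a `1 - ε` fraction of the constraints -/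
def Yes (ε : ℝ) : Prop := 0 < I.m ∧ ∃ σ τ, (1 - ε) * I.m ≤ I.numSat σ τ

/-- soundness case: every labeling satisfies at most a `δ` fraction of the constraints -/
def No (δ : ℝ) : Prop := 0 < I.m ∧ ∀ σ τ, (I.numSat σ τ : ℝ) ≤ δ * I.m

/-- `I` is a unique game: every constraint is the graph of a permutation of the alphabet. -/
def IsUnique : Prop := ∀ j, ∃ π : Equiv.Perm (Fin k), ∀ a b, I.rel j a b = true ↔ b = π a

/-- The encoding of an instance: `m` and `n` in unary, the `m × n` incidence matrices of `left`
and `right`, and the `m` truth tables of the constraints. -/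
def encode : List Bool :=
  unary I.m ++ unary I.n ++ table (fun j v => decide (I.left j = v)) ++
    table (fun j v => decide (I.right j = v)) ++
    (List.finRange I.m).flatMap fun j => table (I.rel j)

end Csp

open N68a2faeb

/-- For the constraint satisfaction instances over the alphabet `{0, …, k-1}` in the class `C`, it
is NP-hard (under polynomial-time many-one reductions) to distinguish the instances in which at
least a `1 - ε` fraction of the constraints can be satisfied from those in which at most a `δ`
fraction can be satisfied. -/
def GapNPHard (k : ℕ) (ε δ : ℝ) (C : Csp k → Prop) : Prop :=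
  ∀ L ∈ NP, ∃ f : List Bool → List Bool, IsPolyTime f ∧ ∀ x,
    (L x = true → ∃ I : Csp k, f x = I.encode ∧ C I ∧ I.Yes ε) ∧
    (L x = false → ∃ I : Csp k, f x = I.encode ∧ C I ∧ I.No δ)

/-- The Unique Games Conjecture: for all `ε, δ > 0` there is an alphabet size `k` such that it is
NP-hard to distinguish unique games of value at least `1 - ε` from those of value at most `δ`. -/
def UniqueGamesConjecture : Prop :=
  ∀ ε δ : ℝ, 0 < ε → 0 < δ → ∃ k : ℕ, 0 < k ∧ GapNPHard k ε δ Csp.IsUnique

end Pool.Agent.Lib_helper36.Stab
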