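import Pool.Agent.Lib_helper36.StabInst
import Pool.Agent.Lib_helper57.PolyTime

set_option autoImplicit false
set_option linter.unusedSectionVars false
set_option linter.unusedSimpArgs false

open Pool.Agent.Lib57
open Function (update)

namespace Pool.Agent.Lib_helper36.Stab

/-! ### lists -/

lemma map_val_finRange (n : ℕ) : (List.finRange n).map Fin.val = List.range n := by
  apply List.ext_getElem
  · simp
  · intro i h1 h2
    simp

lemma flatMap_range_eq {α : Type*} (n : ℕ) (F : ℕ → List α) :
    (List.range n).flatMap F = (List.finRange n).flatMap fun i : Fin n => F i := by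
  rw [← map_val_finRange, List.flatMap_def, List.map_map, List.flatMap_def]
  rfl

lemma finRange_mul_flatMap {α : Type*} {m t : ℕ} (F : Fin (m * t) → List α) :
    (List.finRange (m * t)).flatMap F = (List.finRange m).flatMap fun j =>
      (List.finRange t).flatMap fun i => F (finProdFinEquiv (j, i)) := by
  have h1 : (List.finRange (m * t)).flatMap F = (List.ofFn F).flatten := by
    rw [List.ofFn_eq_map, List.flatMap_def]
  rw [h1, List.ofFn_mul, List.flatMap_def, List.ofFn_eq_map, List.flatten_flatten, List.map_map]
  congr 1
  refine List.map_congr_left fun j _ => ?_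
  simp only [Function.comp]
  rw [List.ofFn_eq_map, List.flatMap_def]
  congr 1
  refine List.map_congr_left fun i _ => ?_
  congr 1
  apply Fin.ext
  simp [finProdFinEquiv]
  ring

lemma map_eq_flatMap_single {α β : Type*} (l : List α) (f : α → β) :
    l.map f = l.flatMap fun x => [f x] := by
  induction l with
  | nil => rfl
  | cons a l ih => simp [ih]

lemma table_eq {a b : ℕ} (f : Fin a → Fin b → Bool) :
    table f = (List.finRange a).flatMap fun i => (List.finRange b).flatMap fun j => [f i j] := by
  unfold table
  congr 1
  funext i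
  exact map_eq_flatMap_single _ _

theorem getElem?_flatMap_const {α β : Type*} (f : α → List β) (c : ℕ)
    (hf : ∀ a, (f a).length = c) : ∀ (l : List α) (u r : ℕ), r < c →
      (l.flatMap f)[u * c + r]? = (l[u]?).bind fun a => (f a)[r]? := by
  intro l
  induction l with
  | nil => intro u r _; simp
  | cons a l ih =>
    intro u r hr
    rw [List.flatMap_cons]
    cases u with
    | zero =>
      rw [List.getElem?_append_left (by rw [hf]; omega)]
      simp
    | succ u =>
      rw [List.getElem?_append_right (by rw [hf]; nlinarith)]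
      have : (u + 1) * c + r - (f a).length = u * c + r := by
        rw [hf]
        have : (u + 1) * c = u * c + c := by ring
        omega
      rw [this, ih u r hr]
      simp

theorem length_flatMap_const {α β : Type*} (f : α → List β) (c : ℕ)
    (hf : ∀ a, (f a).length = c) (l : List α) : (l.flatMap f).length = l.length * c := by
  induction l with
  | nil => simp
  | cons a l ih => rw [List.flatMap_cons, List.length_append, ih, hf, List.length_cons]; ring

lemma length_unary (n : ℕ) : (unary n).length = n + 1 := by simp [unary]

lemma length_table {a b : ℕ} (f : Fin a → Fin b → Bool) : (table f).length = a * b := by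
  unfold table
  rw [length_flatMap_const _ b (fun i => by simp)]
  simp

lemma table_getElem? {a b : ℕ} (f : Fin a → Fin b → Bool) (i : Fin a) (j : Fin b) :
    (table f)[(i : ℕ) * b + j]? = some (f i j) := by
  unfold table
  rw [getElem?_flatMap_const _ b (fun i => by simp) _ _ _ j.2]
  simp

/-- a loop all of whose iterations but one print nothing -/
lemma flatMap_range_single {α : Type*} (P : ℕ → Prop) [DecidablePred P] (F : ℕ → List α) (n L : ℕ)
    (hP : ∀ i < L, P i ↔ i = n) (hn : n < L) :
    ((List.range L).flatMap fun i => if P i then F i else []) = F n := by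
  induction L with
  | zero => omega
  | succ L ih =>
    rw [List.range_succ, List.flatMap_append, List.flatMap_singleton]
    by_cases h : n = L
    · subst h
      have h1 : ((List.range n).flatMap fun i => if P i then F i else []) = [] := by
        rw [List.flatMap_eq_nil_iff]
        intro i hi
        have hi' := List.mem_range.mp hi
        rw [if_neg]
        rw [hP i (by omega)]
        omega
      rw [h1, if_pos ((hP n (by omega)).mpr rfl)]
      simp
    · rw [ih (fun i hi => hP i (by omega)) (by omega), if_neg]
      · simp
      · rw [hP L (by omega)]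
        exact fun h' => h h'.symm

/-! ### reading the encoding of an instance -/

section read

variable {k : ℕ} (I : Csp k)

lemma encode_unary₁ (i : ℕ) (hi : i < I.m) : I.encode[i]? = some true := by
  unfold Csp.encode unary
  rw [List.append_assoc, List.append_assoc, List.append_assoc, List.append_assoc,
    List.getElem?_append_left (by simpa using hi)]
  simp [hi]

lemma encode_stop₁ : I.encode[I.m]? = some false := by
  unfold Csp.encode unary
  rw [List.append_assoc, List.append_assoc, List.append_assoc, List.append_assoc,
    List.getElem?_append_right (by simp)]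
  simp

lemma encode_unary₂ (i : ℕ) (hi : i < I.n) : I.encode[I.m + 1 + i]? = some true := by
  unfold Csp.encode
  rw [List.append_assoc, List.append_assoc, List.append_assoc,
    List.getElem?_append_right (by rw [length_unary]; omega), length_unary,
    List.getElem?_append_left (by rw [length_unary]; omega)]
  have : I.m + 1 + i - (I.m + 1) = i := by omega
  rw [this, unary, List.getElem?_append_left (by simpa using hi)]
  simp [hi]

lemma encode_stop₂ : I.encode[I.m + 1 + I.n]? = some false := by
  unfold Csp.encode
  rw [List.append_assoc, List.append_assoc, List.append_assoc,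
    List.getElem?_append_right (by rw [length_unary]; omega), length_unary,
    List.getElem?_append_left (by rw [length_unary]; omega)]
  have : I.m + 1 + I.n - (I.m + 1) = I.n := by omega
  rw [this, unary, List.getElem?_append_right (by simp)]
  simp

lemma encode_left (j : Fin I.m) (v : Fin I.n) :
    I.encode[I.m + 1 + (I.n + 1) + (j * I.n + v)]? = some (decide (I.left j = v)) := by
  have hlt : (j : ℕ) * I.n + v < I.m * I.n := by
    have h1 := j.2
    have h2 := v.2
    calc (j : ℕ) * I.n + v < j * I.n + I.n := by omega
      _ = (j + 1) * I.n := by ring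
      _ ≤ I.m * I.n := Nat.mul_le_mul_right _ h1
  unfold Csp.encode
  rw [List.append_assoc, List.append_assoc, List.append_assoc,
    List.getElem?_append_right (by rw [length_unary]; omega), length_unary,
    List.getElem?_append_right (by rw [length_unary]; omega), length_unary,
    List.getElem?_append_left (by rw [length_table]; omega)]
  have : I.m + 1 + (I.n + 1) + ((j : ℕ) * I.n + v) - (I.m + 1) - (I.n + 1) = j * I.n + v := by
    omega
  rw [this, table_getElem?]

lemma encode_right (j : Fin I.m) (v : Fin I.n) :
    I.encode[I.m + 1 + (I.n + 1) + I.m * I.n + (j * I.n + v)]? =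
      some (decide (I.right j = v)) := by
  have hlt : (j : ℕ) * I.n + v < I.m * I.n := by
    have h1 := j.2
    have h2 := v.2
    calc (j : ℕ) * I.n + v < j * I.n + I.n := by omega
      _ = (j + 1) * I.n := by ring
      _ ≤ I.m * I.n := Nat.mul_le_mul_right _ h1
  unfold Csp.encode
  rw [List.append_assoc, List.append_assoc, List.append_assoc,
    List.getElem?_append_right (by rw [length_unary]; omega), length_unary,
    List.getElem?_append_right (by rw [length_unary]; omega), length_unary,
    List.getElem?_append_right (by rw [length_table]; omega), length_table,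
    List.getElem?_append_left (by rw [length_table]; omega)]
  have : I.m + 1 + (I.n + 1) + I.m * I.n + ((j : ℕ) * I.n + v) - (I.m + 1) - (I.n + 1) -
      I.m * I.n = j * I.n + v := by
    omega
  rw [this, table_getElem?]

lemma encode_rel (j : Fin I.m) (a b : Fin k) :
    I.encode[I.m + 1 + (I.n + 1) + I.m * I.n + I.m * I.n + (j * (k * k) + (a * k + b))]? =
      some (I.rel j a b) := by
  have hlt : (a : ℕ) * k + b < k * k := by
    have h1 := a.2
    have h2 := b.2
    calc (a : ℕ) * k + b < a * k + k := by omega
      _ = (a + 1) * k := by ring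
      _ ≤ k * k := Nat.mul_le_mul_right _ h1
  unfold Csp.encode
  rw [List.append_assoc, List.append_assoc, List.append_assoc,
    List.getElem?_append_right (by rw [length_unary]; omega), length_unary,
    List.getElem?_append_right (by rw [length_unary]; omega), length_unary,
    List.getElem?_append_right (by rw [length_table]; omega), length_table,
    List.getElem?_append_right (by rw [length_table]; omega), length_table]
  have : I.m + 1 + (I.n + 1) + I.m * I.n + I.m * I.n + ((j : ℕ) * (k * k) + (a * k + b)) -
      (I.m + 1) - (I.n + 1) - I.m * I.n - I.m * I.n = j * (k * k) + (a * k + b) := by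
    omega
  rw [this, getElem?_flatMap_const _ (k * k) (fun j => by rw [length_table]) _ _ _ hlt]
  simp [table_getElem?]

lemma length_encode : I.m + 1 + (I.n + 1) ≤ I.encode.length := by
  unfold Csp.encode
  simp only [List.length_append, length_unary]
  omega

end read

/-! ### the formulas -/

section formulas

variable (k : ℕ)

/-- `v` is the left variable of the constraint `e a` -/
def leftF (a v : ℕ) (x : List Bool) (e : ℕ → ℕ) : Prop :=
  x[e 0 + 1 + (e 1 + 1) + (e a * e 1 + e v)]? = some true

/-- `v` is the right variable of the constraint `e a` -/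
def rightF (a v : ℕ) (x : List Bool) (e : ℕ → ℕ) : Prop :=
  x[e 0 + 1 + (e 1 + 1) + e 0 * e 1 + (e a * e 1 + e v)]? = some true

/-- the constraint `e j` accepts `a, b` -/
def relF (j : ℕ) (a b : Fin k) (x : List Bool) (e : ℕ → ℕ) : Prop :=
  x[e 0 + 1 + (e 1 + 1) + e 0 * e 1 + e 0 * e 1 + (e j * (k * k) + ((a : ℕ) * k + b))]? = some true

lemma leftF_form {K a v : ℕ} (h0 : 1 < K) (ha : a < K) (hv : v < K) : IsForm K (leftF a v) := by
  have t0 : IsTerm K (fun _ e => e 0) := IsTerm.var (by omega)
  have t1 : IsTerm K (fun _ e => e 1) := IsTerm.var h0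
  have ta : IsTerm K (fun _ e => e a) := IsTerm.var ha
  have tv : IsTerm K (fun _ e => e v) := IsTerm.var hv
  have c1 : IsTerm K (fun _ _ => 1) := IsTerm.const K 1
  exact IsForm.bit (((t0.add c1).add (t1.add c1)).add ((ta.mul t1).add tv))

lemma rightF_form {K a v : ℕ} (h0 : 1 < K) (ha : a < K) (hv : v < K) : IsForm K (rightF a v) := by
  have t0 : IsTerm K (fun _ e => e 0) := IsTerm.var (by omega)
  have t1 : IsTerm K (fun _ e => e 1) := IsTerm.var h0
  have ta : IsTerm K (fun _ e => e a) := IsTerm.var ha
  have tv : IsTerm K (fun _ e => e v) := IsTerm.var hv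
  have c1 : IsTerm K (fun _ _ => 1) := IsTerm.const K 1
  exact IsForm.bit ((((t0.add c1).add (t1.add c1)).add (t0.mul t1)).add ((ta.mul t1).add tv))

lemma relF_form {K j : ℕ} (h0 : 1 < K) (hj : j < K) (a b : Fin k) : IsForm K (relF k j a b) := by
  have t0 : IsTerm K (fun _ e => e 0) := IsTerm.var (by omega)
  have t1 : IsTerm K (fun _ e => e 1) := IsTerm.var h0
  have tj : IsTerm K (fun _ e => e j) := IsTerm.var hj
  have c1 : IsTerm K (fun _ _ => 1) := IsTerm.const K 1
  have ck : IsTerm K (fun _ _ => k * k) := IsTerm.const K (k * k)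
  have ca : IsTerm K (fun _ _ => (a : ℕ) * k + b) := IsTerm.const K _
  exact IsForm.bit (((((t0.add c1).add (t1.add c1)).add (t0.mul t1)).add (t0.mul t1)).add
    ((tj.mul ck).add ca))

/-- the constraints `e a` and `e b` have the same left variable -/
def eqLeftF (K a b : ℕ) (x : List Bool) (e : ℕ → ℕ) : Prop :=
  ∃ v < e 1, leftF a K x (update e K v) ∧ leftF b K x (update e K v)

/-- the constraints `e a` and `e b` have the same right variable -/
def eqRightF (K a b : ℕ) (x : List Bool) (e : ℕ → ℕ) : Prop :=
  ∃ v < e 1, rightF a K x (update e K v) ∧ rightF b K x (update e K v)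

lemma eqLeftF_form {K a b : ℕ} (h0 : 1 < K) (ha : a < K) (hb : b < K) :
    IsForm K (eqLeftF K a b) := by
  have t1 : IsTerm K (fun _ e => e 1) := IsTerm.var h0
  exact IsForm.ex t1 ((leftF_form (K := K + 1) (by omega) (by omega) (by omega)).and
    (leftF_form (K := K + 1) (by omega) (by omega) (by omega)))

lemma eqRightF_form {K a b : ℕ} (h0 : 1 < K) (ha : a < K) (hb : b < K) :
    IsForm K (eqRightF K a b) := by
  have t1 : IsTerm K (fun _ e => e 1) := IsTerm.var h0
  exact IsForm.ex t1 ((rightF_form (K := K + 1) (by omega) (by omega) (by omega)).and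
    (rightF_form (K := K + 1) (by omega) (by omega) (by omega)))

variable {k}

/-- the formula for the arcs; `a`, `b` are the indices of the variables holding the constraints -/
def arcF (K a b : ℕ) : Kind k → Kind k → List Bool → (ℕ → ℕ) → Prop
  | .tri i, .tri i' => fun _ e => e a = e b ∧ i < i'
  | .tri i, .cho a' b' => fun x e => e a = e b ∧ i = 0 ∧ relF k a a' b' x e
  | .cho a' b', .sng s c _ => fun x e => relF k a a' b' x e ∧
      ((s = false ∧ c = a' ∧ eqLeftF K b a x e) ∨ (s = true ∧ c = b' ∧ eqRightF K b a x e))
  | _, _ => fun _ _ => False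

lemma IsForm.constProp (K : ℕ) (p : Prop) : IsForm K (fun _ _ => p) := by
  by_cases h : p
  · exact (IsForm.true K).congr fun _ _ => by simp [h]
  · exact (IsForm.false K).congr fun _ _ => by simp [h]

lemma arcF_form {K a b : ℕ} (h0 : 1 < K) (ha : a < K) (hb : b < K) (κ κ' : Kind k) :
    IsForm K (arcF K a b κ κ') := by
  have ta : IsTerm K (fun _ e => e a) := IsTerm.var ha
  have tb : IsTerm K (fun _ e => e b) := IsTerm.var hb
  cases κ with
  | tri i =>
    cases κ' with
    | tri i' => exact (IsForm.eq ta tb).and (IsForm.constProp K _)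
    | cho a' b' =>
      exact (IsForm.eq ta tb).and ((IsForm.constProp K _).and (relF_form k h0 ha a' b'))
    | sng s c r => exact IsForm.false K
  | cho a' b' =>
    cases κ' with
    | tri i' => exact IsForm.false K
    | cho a'' b'' => exact IsForm.false K
    | sng s c r =>
      exact (relF_form k h0 ha a' b').and
        (((IsForm.constProp K _).and ((IsForm.constProp K _).and (eqLeftF_form h0 hb ha))).or
        ((IsForm.constProp K _).and ((IsForm.constProp K _).and (eqRightF_form h0 hb ha))))
  | sng s c r => cases κ' <;> exact IsForm.false K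

/-! ### correctness of the formulas -/

variable (I : Csp k) (e : ℕ → ℕ)

lemma leftF_iff (h0 : e 0 = I.m) (h1 : e 1 = I.n) {a v : ℕ} (j : Fin I.m) (w : Fin I.n)
    (ha : e a = j) (hv : e v = w) : leftF a v I.encode e ↔ I.left j = w := by
  unfold leftF
  rw [h0, h1, ha, hv, encode_left]
  simp

lemma rightF_iff (h0 : e 0 = I.m) (h1 : e 1 = I.n) {a v : ℕ} (j : Fin I.m) (w : Fin I.n)
    (ha : e a = j) (hv : e v = w) : rightF a v I.encode e ↔ I.right j = w := by
  unfold rightF
  rw [h0, h1, ha, hv, encode_right]
  simp

lemma relF_iff (h0 : e 0 = I.m) (h1 : e 1 = I.n) {a : ℕ} (j : Fin I.m)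
    (ha : e a = j) (a' b' : Fin k) : relF k a a' b' I.encode e ↔ I.rel j a' b' = true := by
  unfold relF
  rw [h0, h1, ha, encode_rel]
  simp

lemma eqLeftF_iff (h0 : e 0 = I.m) (h1 : e 1 = I.n) {K a b : ℕ} (hK : 1 < K) (haK : a < K)
    (hbK : b < K) (j j' : Fin I.m) (ha : e a = j) (hb : e b = j') :
    eqLeftF K a b I.encode e ↔ I.left j = I.left j' := by
  unfold eqLeftF
  have u : ∀ v i : ℕ, i < K → update e K v i = e i := fun v i hi =>
    Function.update_of_ne (by omega) _ _
  constructor
  · rintro ⟨v, hv, h2, h3⟩
    rw [h1] at hv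
    rw [leftF_iff I (update e K v) (by rw [u v 0 (by omega), h0]) (by rw [u v 1 hK, h1]) j ⟨v, hv⟩
      (by rw [u v a haK, ha]) (by rw [Function.update_self])] at h2
    rw [leftF_iff I (update e K v) (by rw [u v 0 (by omega), h0]) (by rw [u v 1 hK, h1]) j' ⟨v, hv⟩
      (by rw [u v b hbK, hb]) (by rw [Function.update_self])] at h3
    rw [h2, h3]
  · intro h
    refine ⟨I.left j, by rw [h1]; exact (I.left j).2, ?_, ?_⟩
    · rw [leftF_iff I (update e K _) (by rw [u _ 0 (by omega), h0]) (by rw [u _ 1 hK, h1]) j
        (I.left j) (by rw [u _ a haK, ha]) (by rw [Function.update_self])]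
    · rw [leftF_iff I (update e K _) (by rw [u _ 0 (by omega), h0]) (by rw [u _ 1 hK, h1]) j'
        (I.left j) (by rw [u _ b hbK, hb]) (by rw [Function.update_self])]
      exact h.symm

lemma eqRightF_iff (h0 : e 0 = I.m) (h1 : e 1 = I.n) {K a b : ℕ} (hK : 1 < K) (haK : a < K)
    (hbK : b < K) (j j' : Fin I.m) (ha : e a = j) (hb : e b = j') :
    eqRightF K a b I.encode e ↔ I.right j = I.right j' := by
  unfold eqRightF
  have u : ∀ v i : ℕ, i < K → update e K v i = e i := fun v i hi =>
    Function.update_of_ne (by omega) _ _
  constructor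
  · rintro ⟨v, hv, h2, h3⟩
    rw [h1] at hv
    rw [rightF_iff I (update e K v) (by rw [u v 0 (by omega), h0]) (by rw [u v 1 hK, h1]) j ⟨v, hv⟩
      (by rw [u v a haK, ha]) (by rw [Function.update_self])] at h2
    rw [rightF_iff I (update e K v) (by rw [u v 0 (by omega), h0]) (by rw [u v 1 hK, h1]) j' ⟨v, hv⟩
      (by rw [u v b hbK, hb]) (by rw [Function.update_self])] at h3
    rw [h2, h3]
  · intro h
    refine ⟨I.right j, by rw [h1]; exact (I.right j).2, ?_, ?_⟩
    · rw [rightF_iff I (update e K _) (by rw [u _ 0 (by omega), h0]) (by rw [u _ 1 hK, h1]) j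
        (I.right j) (by rw [u _ a haK, ha]) (by rw [Function.update_self])]
    · rw [rightF_iff I (update e K _) (by rw [u _ 0 (by omega), h0]) (by rw [u _ 1 hK, h1]) j'
        (I.right j) (by rw [u _ b hbK, hb]) (by rw [Function.update_self])]
      exact h.symm

lemma arcF_iff (h0 : e 0 = I.m) (h1 : e 1 = I.n) {K a b : ℕ} (hK : 1 < K) (haK : a < K)
    (hbK : b < K) (j j' : Fin I.m) (ha : e a = j) (hb : e b = j') (κ κ' : Kind k) :
    arcF K a b κ κ' I.encode e ↔ arc I (j, κ) (j', κ') := by
  have hj : e a = e b ↔ j = j' := by rw [ha, hb]; exact Fin.val_inj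
  cases κ with
  | tri i =>
    cases κ' with
    | tri i' => simp only [arcF, arc, hj]
    | cho a' b' => simp only [arcF, arc, hj, relF_iff I e h0 h1 j ha]
    | sng s c r => exact Iff.rfl
  | cho a' b' =>
    cases κ' with
    | tri i' => exact Iff.rfl
    | cho a'' b'' => exact Iff.rfl
    | sng s c r =>
      simp only [arcF, arc, relF_iff I e h0 h1 j ha, eqLeftF_iff I e h0 h1 hK hbK haK j' j hb ha,
        eqRightF_iff I e h0 h1 hK hbK haK j' j hb ha]
      tauto
  | sng s c r => cases κ' <;> exact Iff.rfl

end formulas

/-! ### the printer -/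

section printer

lemma IsEmit.list {K : ℕ} {ι : Type*} (l : List ι) {F : ι → List Bool → (ℕ → ℕ) → List Bool}
    (h : ∀ i ∈ l, IsEmit K (F i)) : IsEmit K (fun x e => l.flatMap fun i => F i x e) := by
  induction l with
  | nil => exact (IsEmit.nil K).congr fun x e => by simp
  | cons a l ih =>
    exact ((h a (by simp)).append (ih fun i hi => h i (by simp [hi]))).congr fun x e => by simp

lemma IsEmit.constList (K : ℕ) (l : List Bool) : IsEmit K (fun _ _ => l) := by
  induction l with
  | nil => exact IsEmit.nil K
  | cons a l ih => exact ((IsEmit.bit K a).append ih).congr fun x e => by simp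

/-- the number of kinds of vertices -/
noncomputable def kn (k : ℕ) : ℕ := Fintype.card (Kind k)

/-- the `i`-th kind -/
noncomputable def kd (k : ℕ) : Fin (kn k) ≃ Kind k := (Fintype.equivFin (Kind k)).symm

/-- the vertices of the gadget graph, numbered -/
noncomputable def vtx {k : ℕ} (I : Csp k) : Fin (I.m * kn k) ≃ Fin I.m × Kind k :=
  finProdFinEquiv.symm.trans (Equiv.prodCongr (Equiv.refl _) (kd k))

/-- the gadget graph on numbered vertices -/
noncomputable def gadN {k : ℕ} (I : Csp k) : SimpleGraph (Fin (I.m * kn k)) :=
  (gad I).comap (vtx I)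

/-- the costs on numbered vertices -/
noncomputable def costN {k : ℕ} (K : ℕ) (I : Csp k) (v : Fin (I.m * kn k)) : ℕ :=
  kcost K (vtx I v).2

variable (k K : ℕ)

/-- the part of the output for given `m = e 0` and `n = e 1` -/
noncomputable def bodyF (x : List Bool) (e : ℕ → ℕ) : List Bool :=
  ((List.range (e 0)).flatMap fun _ => (List.finRange (kn k)).flatMap fun _ => [true]) ++ [false] ++
  ((List.range (e 0)).flatMap fun j => (List.finRange (kn k)).flatMap fun i =>
    (List.range (e 0)).flatMap fun j' => (List.finRange (kn k)).flatMap fun i' =>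
      [dec (arcF 4 2 3 (kd k i) (kd k i') x (update (update e 2 j) 3 j') ∨
        arcF 4 3 2 (kd k i') (kd k i) x (update (update e 2 j) 3 j'))]) ++
  ((List.range (e 0)).flatMap fun _ => (List.finRange (kn k)).flatMap fun i =>
    N487b59b3.delimit (N487b59b3.bitEncode (kcost K (kd k i))))

lemma bodyF_emit : IsEmit 2 (bodyF k K) := by
  have t0 : ∀ L, 0 < L → IsTerm L (fun _ e => e 0) := fun L hL => IsTerm.var hL
  have p1 : IsEmit 2 (fun _ e => (List.range (e 0)).flatMap fun _ =>
      (List.finRange (kn k)).flatMap fun _ => [true]) :=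
    IsEmit.for (t0 2 (by omega)) (IsEmit.list (List.finRange (kn k)) fun i _ => IsEmit.bit 3 true)
  have p2 : IsEmit 2 (fun x e => (List.range (e 0)).flatMap fun j =>
      (List.finRange (kn k)).flatMap fun i => (List.range (e 0)).flatMap fun j' =>
        (List.finRange (kn k)).flatMap fun i' =>
      [dec (arcF 4 2 3 (kd k i) (kd k i') x (update (update e 2 j) 3 j') ∨
        arcF 4 3 2 (kd k i') (kd k i) x (update (update e 2 j) 3 j'))]) := by
    refine (IsEmit.for (t0 2 (by omega)) (IsEmit.list (List.finRange (kn k)) fun i _ =>
      IsEmit.for (t0 3 (by omega)) (IsEmit.list (List.finRange (kn k)) fun i' _ =>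
        IsEmit.dec ((arcF_form (K := 4) (a := 2) (b := 3) (by omega) (by omega) (by omega) (kd k i)
          (kd k i')).or (arcF_form (K := 4) (a := 3) (b := 2) (by omega) (by omega) (by omega)
            (kd k i') (kd k i)))))).congr ?_
    intro x e
    simp only [Function.update_of_ne (show (0 : ℕ) ≠ 2 by omega)]
  have p3 : IsEmit 2 (fun _ e => (List.range (e 0)).flatMap fun _ =>
      (List.finRange (kn k)).flatMap fun i =>
        N487b59b3.delimit (N487b59b3.bitEncode (kcost K (kd k i)))) :=
    IsEmit.for (t0 2 (by omega)) (IsEmit.list (List.finRange (kn k)) fun i _ =>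
      IsEmit.constList 3 _)
  exact ((p1.append (IsEmit.bit 2 false)).append p2).append p3

/-- `e a` is the length of the initial block of ones starting at the position `t x e` -/
def headF (t : List Bool → (ℕ → ℕ) → ℕ) (L a : ℕ) (x : List Bool) (e : ℕ → ℕ) : Prop :=
  (∀ i < e a, x[t x (update e L i) + (update e L i) L]? = some true) ∧
    ¬ x[t x e + e a]? = some true

lemma headF_form {t : List Bool → (ℕ → ℕ) → ℕ} {L a : ℕ} (ht : IsTerm L t) (ha : a < L) :
    IsForm L (headF t L a) := by
  have hL : IsTerm (L + 1) (fun _ e => e L) := IsTerm.var (by omega)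
  exact (IsForm.all (IsTerm.var ha) (IsForm.bit ((ht.weaken (by omega)).add hL))).and
    (IsForm.bit (ht.add (IsTerm.var ha))).not

open scoped Classical in
/-- the printed function: the encoding of the gadget instance -/
noncomputable def gadF (x : List Bool) : List Bool :=
  (List.range x.length).flatMap fun m =>
    if headF (fun _ _ => 0) 1 0 x (update (fun _ => 0) 0 m) then
      (List.range x.length).flatMap fun n =>
        if headF (fun _ e => e 0 + 1) 2 1 x (update (update (fun _ => 0) 0 m) 1 n) then
          bodyF k K x (update (update (fun _ => 0) 0 m) 1 n)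
        else []
    else []

open scoped Classical in
lemma gadF_polyTime : N68a2faeb.IsPolyTime (gadF k K) := by
  have h1 : IsEmit 2 (fun x e => if headF (fun _ e => e 0 + 1) 2 1 x e then
      bodyF k K x e else []) :=
    IsEmit.ite (headF_form ((IsTerm.var (by omega)).add (IsTerm.const 2 1)) (by omega))
      (bodyF_emit k K) (IsEmit.nil 2)
  have h2 : IsEmit 1 (fun x e => if headF (fun _ _ => 0) 1 0 x e then
      ((List.range x.length).flatMap fun n =>
        if headF (fun _ e => e 0 + 1) 2 1 x (update e 1 n) then
          bodyF k K x (update e 1 n)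
        else []) else []) :=
    IsEmit.ite (headF_form (IsTerm.const 1 0) (by omega)) (IsEmit.for (IsTerm.len 1) h1)
      (IsEmit.nil 1)
  exact isPolyTime_of_isEmit (IsEmit.for (IsTerm.len 0) h2)

end printer

/-! ### correctness of the printer -/

section correct

variable {k : ℕ} (K : ℕ) (I : Csp k)

lemma headF₁_iff (i : ℕ) : headF (fun _ _ => 0) 1 0 I.encode (update (fun _ => 0) 0 i) ↔
    i = I.m := by
  have e1 : (update (fun _ => 0) 0 i : ℕ → ℕ) 0 = i := Function.update_self _ _ _
  unfold headF
  simp only [Function.update_self, zero_add, e1]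
  constructor
  · rintro ⟨h1, h2⟩
    rcases lt_trichotomy i I.m with h | h | h
    · exact absurd (encode_unary₁ I i h) h2
    · exact h
    · have := h1 I.m h
      rw [encode_stop₁] at this
      simp at this
  · rintro rfl
    exact ⟨fun j hj => encode_unary₁ I j hj, by rw [encode_stop₁]; simp⟩

lemma headF₂_iff (i : ℕ) : headF (fun _ e => e 0 + 1) 2 1 I.encode
    (update (update (fun _ => 0) 0 I.m) 1 i) ↔ i = I.n := by
  have e1 : (update (update (fun _ => 0) 0 I.m) 1 i : ℕ → ℕ) 1 = i := Function.update_self _ _ _
  have e0 : (update (update (fun _ => 0) 0 I.m) 1 i : ℕ → ℕ) 0 = I.m := by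
    rw [Function.update_of_ne (by omega), Function.update_self]
  unfold headF
  simp only [Function.update_self, e1, e0, Function.update_of_ne (show (0 : ℕ) ≠ 2 by omega)]
  constructor
  · rintro ⟨h1, h2⟩
    rcases lt_trichotomy i I.n with h | h | h
    · exact absurd (encode_unary₂ I i h) h2
    · exact h
    · have := h1 I.n h
      rw [encode_stop₂] at this
      simp at this
  · rintro rfl
    exact ⟨fun j hj => encode_unary₂ I j hj, by rw [encode_stop₂]; simp⟩

lemma gadF_encode_body : gadF k K I.encode =
    bodyF k K I.encode (update (update (fun _ => 0) 0 I.m) 1 I.n) := by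
  classical
  have hlen := length_encode I
  unfold gadF
  rw [flatMap_range_single _ _ I.m _ (fun i _ => headF₁_iff I i) (by omega),
    flatMap_range_single _ _ I.n _ (fun i _ => headF₂_iff I i) (by omega)]

lemma unary_eq (m t : ℕ) : (List.range m).flatMap (fun _ => (List.finRange t).flatMap
    fun _ => [true]) ++ [false] = unary (m * t) := by
  unfold unary
  congr 1
  rw [List.eq_replicate_iff]
  constructor
  · rw [length_flatMap_const _ t (fun _ => by rw [length_flatMap_const _ 1 (fun _ => rfl)]; simp)]
    simp
  · intro b hb
    simp only [List.mem_flatMap, List.mem_singleton] at hb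
    obtain ⟨_, _, _, _, h⟩ := hb
    exact h

/-- On the encoding of an instance the printer prints the encoding of the gadget instance. -/
theorem gadF_encode : gadF k K I.encode = encodeInst (gadN I) (costN K I) := by
  classical
  set e : ℕ → ℕ := update (update (fun _ => 0) 0 I.m) 1 I.n with he
  have e0 : e 0 = I.m := by
    rw [he, Function.update_of_ne (by omega), Function.update_self]
  have e1 : e 1 = I.n := by rw [he, Function.update_self]
  rw [gadF_encode_body, ← he]
  unfold bodyF encodeInst
  rw [e0]
  have h1 := unary_eq I.m (kn k)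
  rw [h1]
  have h2 : table (fun u v => decide ((gadN I).Adj u v)) =
      ((List.range I.m).flatMap fun j => (List.finRange (kn k)).flatMap fun i =>
    (List.range I.m).flatMap fun j' => (List.finRange (kn k)).flatMap fun i' =>
      [dec (arcF 4 2 3 (kd k i) (kd k i') I.encode (update (update e 2 j) 3 j') ∨
        arcF 4 3 2 (kd k i') (kd k i) I.encode (update (update e 2 j) 3 j'))]) := by
    rw [table_eq, finRange_mul_flatMap, flatMap_range_eq]
    refine List.flatMap_congr fun j _ => List.flatMap_congr fun i _ => ?_
    rw [finRange_mul_flatMap, flatMap_range_eq]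
    refine List.flatMap_congr fun j' _ => List.flatMap_congr fun i' _ => ?_
    have f0 : (update (update e 2 (j : ℕ)) 3 (j' : ℕ)) 0 = I.m := by
      rw [Function.update_of_ne (by omega), Function.update_of_ne (by omega), e0]
    have f1 : (update (update e 2 (j : ℕ)) 3 (j' : ℕ)) 1 = I.n := by
      rw [Function.update_of_ne (by omega), Function.update_of_ne (by omega), e1]
    have f2 : (update (update e 2 (j : ℕ)) 3 (j' : ℕ)) 2 = j := by
      rw [Function.update_of_ne (by omega), Function.update_self]
    have f3 : (update (update e 2 (j : ℕ)) 3 (j' : ℕ)) 3 = j' := Function.update_self _ _ _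
    rw [dec_congr (or_congr
      (arcF_iff I _ f0 f1 (K := 4) (by omega) (by omega) (by omega) j j' f2 f3 (kd k i) (kd k i'))
      (arcF_iff I _ f0 f1 (K := 4) (by omega) (by omega) (by omega) j' j f3 f2 (kd k i')
        (kd k i)))]
    have h3 : vtx I (finProdFinEquiv (j, i)) = (j, kd k i) := by simp [vtx]
    have h4 : vtx I (finProdFinEquiv (j', i')) = (j', kd k i') := by simp [vtx]
    have h5 : (gadN I).Adj (finProdFinEquiv (j, i)) (finProdFinEquiv (j', i')) ↔
        (arc I (j, kd k i) (j', kd k i') ∨ arc I (j', kd k i') (j, kd k i)) := by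
      show (gad I).Adj (vtx I _) (vtx I _) ↔ _
      rw [h3, h4]
      rfl
    simp only [dec, h5]
    congr
  rw [h2]
  congr 1
  rw [finRange_mul_flatMap, flatMap_range_eq]
  refine List.flatMap_congr fun j _ => List.flatMap_congr fun i _ => ?_
  have h3 : vtx I (finProdFinEquiv (j, i)) = (j, kd k i) := by simp [vtx]
  unfold costN
  rw [h3]

end correct

end Pool.Agent.Lib_helper36.Stab
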