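import Pool.Agent.Lib_helper36.StabCore

/-!
# Constraint satisfaction instances and the gadget graph
-/

set_option autoImplicit false
set_option linter.unusedSectionVars false

namespace Pool.Agent.Lib_helper36.Stab

/-- The kinds of vertices in the block of one constraint. -/
inductive Kind (k : ℕ) : Type
  | tri (i : Fin 3) : Kind k
  | cho (a b : Fin k) : Kind k
  | sng (s : Bool) (c : Fin k) (r : Fin (2 * k)) : Kind k
  deriving DecidableEq

/-- kinds as a sum type -/
def kindEquiv (k : ℕ) : Kind k ≃ Fin 3 ⊕ (Fin k × Fin k) ⊕ (Bool × Fin k × Fin (2 * k)) where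
  toFun
    | .tri i => .inl i
    | .cho a b => .inr (.inl (a, b))
    | .sng s c r => .inr (.inr (s, c, r))
  invFun
    | .inl i => .tri i
    | .inr (.inl (a, b)) => .cho a b
    | .inr (.inr (s, c, r)) => .sng s c r
  left_inv x := by cases x <;> rfl
  right_inv x := by rcases x with i | ⟨a, b⟩ | ⟨s, c, r⟩ <;> rfl

instance (k : ℕ) : Fintype (Kind k) := Fintype.ofEquiv _ (kindEquiv k).symm

lemma sum_kind {k : ℕ} {M : Type*} [AddCommMonoid M] (f : Kind k → M) :
    ∑ κ, f κ = ∑ i, f (.tri i) + (∑ a, ∑ b, f (.cho a b) + ∑ s, ∑ c, ∑ r, f (.sng s c r)) := by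
  rw [← (kindEquiv k).symm.sum_comp]
  simp only [Fintype.sum_sum_type, Fintype.sum_prod_type]
  rfl

/-- the arcs of the gadget graph; the edges are the arcs read in both directions -/
def arc {k : ℕ} (I : Csp k) : Fin I.m × Kind k → Fin I.m × Kind k → Prop
  | (j, .tri i), (j', .tri i') => j = j' ∧ i < i'
  | (j, .tri i), (j', .cho a b) => j = j' ∧ i = 0 ∧ I.rel j a b = true
  | (j, .cho a b), (j', .sng s c _) => I.rel j a b = true ∧
      ((s = false ∧ I.left j' = I.left j ∧ c = a) ∨ (s = true ∧ I.right j' = I.right j ∧ c = b))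
  | _, _ => False

/-- the gadget graph of a constraint satisfaction instance -/
def gad {k : ℕ} (I : Csp k) : SimpleGraph (Fin I.m × Kind k) where
  Adj u v := arc I u v ∨ arc I v u
  symm := ⟨fun _ _ h => h.symm⟩
  loopless := ⟨by
    rintro ⟨j, κ⟩ h
    cases κ <;> simp [arc] at h⟩

/-- the cost of a vertex: `K` on the triangles, `1` elsewhere -/
def kcost {k : ℕ} (K : ℕ) : Kind k → ℕ
  | .tri _ => K
  | .cho _ _ => 1
  | .sng _ _ _ => 1

end Pool.Agent.Lib_helper36.Stab
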