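import Pool.Agent.Lib_helper36.StabInst

set_option autoImplicit false
set_option linter.unusedSectionVars false
set_option linter.unusedSimpArgs false

open Finset
open scoped Classical

namespace Pool.Agent.Lib_helper36.Stab

section sound

variable {k : ℕ} {I : Csp k} {S : Finset (Fin I.m × Kind k)} {M : Finset (Sym2 (Fin I.m × Kind k))}

/-- the triangle of `j` is intact -/
def intact (S : Finset (Fin I.m × Kind k)) (j : Fin I.m) : Prop := ∀ i, (j, Kind.tri i) ∉ S

/-- the hub of the intact triangle `j` is matched to the vertex `cho j a b` -/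
def sel (S : Finset (Fin I.m × Kind k)) (M : Finset (Sym2 (Fin I.m × Kind k))) (j : Fin I.m)
    (a b : Fin k) : Prop :=
  intact S j ∧ s((j, Kind.tri 0), (j, Kind.cho a b)) ∈ M

lemma tri_adj {j : Fin I.m} {i : Fin 3} (hi : i ≠ 0) {z : Fin I.m × Kind k}
    (h : (gad I).Adj (j, Kind.tri i) z) : ∃ i', i' ≠ i ∧ z = (j, Kind.tri i') := by
  obtain ⟨j', κ⟩ := z
  rcases h with h | h
  · cases κ with
    | tri i' =>
      obtain ⟨rfl, hlt⟩ := h
      exact ⟨i', hlt.ne', rfl⟩
    | cho a b => exact absurd h.2.1 hi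
    | sng s c r => exact h.elim
  · cases κ with
    | tri i' =>
      obtain ⟨rfl, hlt⟩ := h
      exact ⟨i', hlt.ne, rfl⟩
    | cho a b => exact h.elim
    | sng s c r => exact h.elim

lemma tri_adj_tri {j : Fin I.m} {i i' : Fin 3} (h : i ≠ i') :
    (gad I).Adj (j, Kind.tri i) (j, Kind.tri i') := by
  rcases lt_or_gt_of_ne h with h | h
  · exact Or.inl ⟨rfl, h⟩
  · exact Or.inr ⟨rfl, h⟩

lemma exists_sel (hM : Opt (gad I) S M) {j : Fin I.m} (hj : intact S j) :
    ∃ a b, I.rel j a b = true ∧ sel S M j a b := by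
  obtain ⟨z, hz, hz1, hz2⟩ := hub_matched hM (hj 0) (hj 1) (hj 2) (tri_adj_tri (by decide))
    (tri_adj_tri (by decide)) (tri_adj_tri (by decide)) (by
      intro z hz
      obtain ⟨i', hi', rfl⟩ := tri_adj (by decide) hz
      fin_cases i'
      · left; rfl
      · exact absurd rfl hi'
      · right; rfl) (by
      intro z hz
      obtain ⟨i', hi', rfl⟩ := tri_adj (by decide) hz
      fin_cases i'
      · left; rfl
      · right; rfl
      · exact absurd rfl hi')
  have hadj : (gad I).Adj (j, Kind.tri 0) z := hM.1.1.1 _ hz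
  obtain ⟨j', κ⟩ := z
  rcases hadj with h | h
  · cases κ with
    | tri i' =>
      obtain ⟨rfl, hlt⟩ := h
      exfalso
      fin_cases i'
      · exact absurd hlt (by decide)
      · exact hz1 rfl
      · exact hz2 rfl
    | cho a b =>
      obtain ⟨rfl, -, hrel⟩ := h
      exact ⟨a, b, hrel, hj, hz⟩
    | sng s c r => exact h.elim
  · cases κ with
    | tri i' =>
      obtain ⟨rfl, hlt⟩ := h
      exact absurd hlt (Fin.not_lt_zero _)
    | cho a b => exact h.elim
    | sng s c r => exact h.elim

lemma sel_rel (hM : Opt (gad I) S M) {j : Fin I.m} {a b : Fin k} (h : sel S M j a b) :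
    I.rel j a b = true := by
  have hadj : (gad I).Adj (j, Kind.tri 0) (j, Kind.cho a b) := hM.1.1.1 _ h.2
  rcases hadj with h | h
  · exact h.2.2
  · exact h.elim

lemma sel_covered (hM : Opt (gad I) S M) {j : Fin I.m} {a b : Fin k} (h : sel S M j a b)
    {j' : Fin I.m} {s : Bool} {c : Fin k} {r : Fin (2 * k)}
    (hw : (s = false ∧ I.left j' = I.left j ∧ c = a) ∨
      (s = true ∧ I.right j' = I.right j ∧ c = b)) (hwS : (j', Kind.sng s c r) ∉ S) :
    ∃ e ∈ M, (j', Kind.sng s c r) ∈ e := by
  have hj := h.1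
  exact neighbours_covered hM (hj 0) (hj 1) (hj 2) (tri_adj_tri (by decide))
    (tri_adj_tri (by decide)) (tri_adj_tri (by decide)) (by
      intro z hz
      obtain ⟨i', hi', rfl⟩ := tri_adj (by decide) hz
      fin_cases i'
      · left; rfl
      · exact absurd rfl hi'
      · right; rfl) (by
      intro z hz
      obtain ⟨i', hi', rfl⟩ := tri_adj (by decide) hz
      fin_cases i'
      · left; rfl
      · right; rfl
      · exact absurd rfl hi') h.2 (by simp) (by simp) hwS (by simp)
      (Or.inl ⟨sel_rel hM h, hw⟩)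

/-- the partner of a covered single -/
lemma partner (hM : Opt (gad I) S M) {j' : Fin I.m} {s : Bool} {c : Fin k} {r : Fin (2 * k)}
    (h : ∃ e ∈ M, (j', Kind.sng s c r) ∈ e) :
    ∃ j a b, s((j', Kind.sng s c r), (j, Kind.cho a b)) ∈ M ∧
      ((s = false ∧ I.left j' = I.left j ∧ c = a) ∨
      (s = true ∧ I.right j' = I.right j ∧ c = b)) := by
  obtain ⟨e, he, hmem⟩ := h
  obtain ⟨z, rfl⟩ := Sym2.mem_iff_exists.mp hmem
  have hadj : (gad I).Adj (j', Kind.sng s c r) z := hM.1.1.1 _ he
  obtain ⟨j, κ⟩ := z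
  rcases hadj with h | h
  · cases κ <;> exact h.elim
  · cases κ with
    | tri i' => exact h.elim
    | cho a b => exact ⟨j, a, b, he, h.2⟩
    | sng s c r => exact h.elim

/-- left labels selected at the variable `x` -/
noncomputable def A0 (S : Finset (Fin I.m × Kind k)) (M : Finset (Sym2 (Fin I.m × Kind k)))
    (x : Fin I.n) : Finset (Fin k) :=
  univ.filter fun a => ∃ j b, I.left j = x ∧ sel S M j a b

/-- right labels selected at the variable `x` -/
noncomputable def A1 (S : Finset (Fin I.m × Kind k)) (M : Finset (Sym2 (Fin I.m × Kind k)))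
    (x : Fin I.n) : Finset (Fin k) :=
  univ.filter fun b => ∃ j a, I.right j = x ∧ sel S M j a b

lemma left_count (hM : Opt (gad I) S M) :
    k * ∑ j : Fin I.m, (A0 S M (I.left j)).card ≤
      (S.filter fun v => ∃ c r, v.2 = Kind.sng false c r).card := by
  -- all relevant singles
  set W : Finset (Fin I.m × Kind k) := univ.filter fun v =>
    ∃ c r, v.2 = Kind.sng false c r ∧ c ∈ A0 S M (I.left v.1) with hW
  set C : Finset (Fin I.m × Kind k) := univ.filter fun v =>
    ∃ a b, v.2 = Kind.cho a b ∧ a ∈ A0 S M (I.left v.1) with hC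
  have cardW : W.card = 2 * k * ∑ j : Fin I.m, (A0 S M (I.left j)).card := by
    rw [hW, Finset.card_filter, Fintype.sum_prod_type, Finset.mul_sum]
    refine Finset.sum_congr rfl fun j _ => ?_
    rw [sum_kind]
    simp only [reduceCtorEq, false_and, exists_false, exists_const, if_false,
      Finset.sum_const_zero, zero_add, Fintype.sum_bool, Kind.sng.injEq, Bool.true_eq_false,
      true_and]
    have : ∀ (c : Fin k) (r : Fin (2 * k)), (∃ c' r', (c = c' ∧ r = r') ∧ c' ∈ A0 S M (I.left j)) ↔
        c ∈ A0 S M (I.left j) := by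
      intro c r
      constructor
      · rintro ⟨c', r', ⟨rfl, rfl⟩, h⟩; exact h
      · intro h; exact ⟨c, r, ⟨rfl, rfl⟩, h⟩
    simp only [this, Finset.sum_const, Finset.card_univ, Fintype.card_fin, smul_eq_mul]
    rw [← Finset.mul_sum, ← Finset.card_filter]
    congr 2
    ext a; simp
  have cardC : C.card = k * ∑ j : Fin I.m, (A0 S M (I.left j)).card := by
    rw [hC, Finset.card_filter, Fintype.sum_prod_type, Finset.mul_sum]
    refine Finset.sum_congr rfl fun j _ => ?_
    rw [sum_kind]
    simp only [reduceCtorEq, false_and, exists_false, exists_const, if_false,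
      Finset.sum_const_zero, zero_add, Kind.cho.injEq, add_zero]
    have : ∀ (a b : Fin k), (∃ a' b', (a = a' ∧ b = b') ∧ a' ∈ A0 S M (I.left j)) ↔
        a ∈ A0 S M (I.left j) := by
      intro a b
      constructor
      · rintro ⟨c', r', ⟨rfl, rfl⟩, h⟩; exact h
      · intro h; exact ⟨a, b, ⟨rfl, rfl⟩, h⟩
    simp only [this, Finset.sum_const, Finset.card_univ, Fintype.card_fin, smul_eq_mul]
    rw [← Finset.mul_sum, ← Finset.card_filter]
    congr 2
    ext a; simp
  -- partners
  have hpart : ∀ w ∈ W \ S, ∃ z ∈ C, s(w, z) ∈ M := by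
    rintro ⟨j', κ⟩ hw
    rw [Finset.mem_sdiff, hW, Finset.mem_filter] at hw
    obtain ⟨⟨-, c, r, hκ, hc⟩, hwS⟩ := hw
    simp only at hκ hc
    subst hκ
    have hc' := hc
    rw [A0, Finset.mem_filter] at hc
    obtain ⟨-, j, b, hj, hsel⟩ := hc
    have hcov := sel_covered hM hsel (j' := j') (s := false) (c := c) (r := r)
      (Or.inl ⟨rfl, hj.symm, rfl⟩) hwS
    obtain ⟨j'', a, b', hmem, h⟩ := partner hM hcov
    rcases h with ⟨-, hl, rfl⟩ | ⟨h, -⟩
    · refine ⟨(j'', Kind.cho c b'), ?_, hmem⟩
      rw [hC, Finset.mem_filter]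
      exact ⟨Finset.mem_univ _, c, b', rfl, by simp only; rw [← hl]; exact hc'⟩
    · exact absurd h (by decide)
  have hle : (W \ S).card ≤ C.card := by
    choose! f hf hfM using hpart
    refine Finset.card_le_card_of_injOn f hf ?_
    intro w hw w' hw' hww
    have h1 := hfM w hw
    have h2 := hfM w' hw'
    have h3 := hM.1.1.2 _ h1 _ h2 (f w) (Sym2.mem_mk_right _ _) (by
      rw [hww]; exact Sym2.mem_mk_right _ _)
    rw [hww] at h3
    exact Sym2.congr_left.mp h3
  have hsub : (W ∩ S).card ≤ (S.filter fun v => ∃ c r, v.2 = Kind.sng false c r).card := by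
    refine Finset.card_le_card ?_
    intro v hv
    rw [Finset.mem_inter, hW, Finset.mem_filter] at hv
    obtain ⟨⟨-, c, r, h, -⟩, hvS⟩ := hv
    exact Finset.mem_filter.mpr ⟨hvS, c, r, h⟩
  have hsum : (W \ S).card + (W ∩ S).card = W.card := Finset.card_sdiff_add_card_inter W S
  rw [cardC] at hle
  rw [cardW] at hsum
  have : 2 * k * ∑ j : Fin I.m, (A0 S M (I.left j)).card =
    k * ∑ j : Fin I.m, (A0 S M (I.left j)).card + k * ∑ j : Fin I.m, (A0 S M (I.left j)).card := by
    ring
  omega

lemma right_count (hM : Opt (gad I) S M) :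
    k * ∑ j : Fin I.m, (A1 S M (I.right j)).card ≤
      (S.filter fun v => ∃ c r, v.2 = Kind.sng true c r).card := by
  -- all relevant singles
  set W : Finset (Fin I.m × Kind k) := univ.filter fun v =>
    ∃ c r, v.2 = Kind.sng true c r ∧ c ∈ A1 S M (I.right v.1) with hW
  set C : Finset (Fin I.m × Kind k) := univ.filter fun v =>
    ∃ a b, v.2 = Kind.cho a b ∧ b ∈ A1 S M (I.right v.1) with hC
  have cardW : W.card = 2 * k * ∑ j : Fin I.m, (A1 S M (I.right j)).card := by
    rw [hW, Finset.card_filter, Fintype.sum_prod_type, Finset.mul_sum]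
    refine Finset.sum_congr rfl fun j _ => ?_
    rw [sum_kind]
    simp only [reduceCtorEq, false_and, exists_false, exists_const, if_false,
      Finset.sum_const_zero, zero_add, Fintype.sum_bool, Kind.sng.injEq, Bool.false_eq_true,
      true_and, add_zero]
    have : ∀ (c : Fin k) (r : Fin (2 * k)), (∃ c' r', (c = c' ∧ r = r') ∧ c' ∈ A1 S M (I.right j)) ↔
        c ∈ A1 S M (I.right j) := by
      intro c r
      constructor
      · rintro ⟨c', r', ⟨rfl, rfl⟩, h⟩; exact h
      · intro h; exact ⟨c, r, ⟨rfl, rfl⟩, h⟩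
    simp only [this, Finset.sum_const, Finset.card_univ, Fintype.card_fin, smul_eq_mul]
    rw [← Finset.mul_sum, ← Finset.card_filter]
    congr 2
    ext a; simp
  have cardC : C.card = k * ∑ j : Fin I.m, (A1 S M (I.right j)).card := by
    rw [hC, Finset.card_filter, Fintype.sum_prod_type, Finset.mul_sum]
    refine Finset.sum_congr rfl fun j _ => ?_
    rw [sum_kind]
    simp only [reduceCtorEq, false_and, exists_false, exists_const, if_false,
      Finset.sum_const_zero, zero_add, Kind.cho.injEq, add_zero]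
    have : ∀ (a b : Fin k), (∃ a' b', (a = a' ∧ b = b') ∧ b' ∈ A1 S M (I.right j)) ↔
        b ∈ A1 S M (I.right j) := by
      intro a b
      constructor
      · rintro ⟨c', r', ⟨rfl, rfl⟩, h⟩; exact h
      · intro h; exact ⟨a, b, ⟨rfl, rfl⟩, h⟩
    simp only [this, Finset.sum_const, Finset.card_univ, Fintype.card_fin, smul_eq_mul]
    rw [← Finset.card_filter]
    congr 2
    ext a; simp
  -- partners
  have hpart : ∀ w ∈ W \ S, ∃ z ∈ C, s(w, z) ∈ M := by
    rintro ⟨j', κ⟩ hw
    rw [Finset.mem_sdiff, hW, Finset.mem_filter] at hw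
    obtain ⟨⟨-, c, r, hκ, hc⟩, hwS⟩ := hw
    simp only at hκ hc
    subst hκ
    have hc' := hc
    rw [A1, Finset.mem_filter] at hc
    obtain ⟨-, j, a, hj, hsel⟩ := hc
    have hcov := sel_covered hM hsel (j' := j') (s := true) (c := c) (r := r)
      (Or.inr ⟨rfl, hj.symm, rfl⟩) hwS
    obtain ⟨j'', a', b', hmem, h⟩ := partner hM hcov
    rcases h with ⟨h, -⟩ | ⟨-, hl, rfl⟩
    · exact absurd h (by decide)
    · refine ⟨(j'', Kind.cho a' c), ?_, hmem⟩
      rw [hC, Finset.mem_filter]
      exact ⟨Finset.mem_univ _, a', c, rfl, by simp only; rw [← hl]; exact hc'⟩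
  have hle : (W \ S).card ≤ C.card := by
    choose! f hf hfM using hpart
    refine Finset.card_le_card_of_injOn f hf ?_
    intro w hw w' hw' hww
    have h1 := hfM w hw
    have h2 := hfM w' hw'
    have h3 := hM.1.1.2 _ h1 _ h2 (f w) (Sym2.mem_mk_right _ _) (by
      rw [hww]; exact Sym2.mem_mk_right _ _)
    rw [hww] at h3
    exact Sym2.congr_left.mp h3
  have hsub : (W ∩ S).card ≤ (S.filter fun v => ∃ c r, v.2 = Kind.sng true c r).card := by
    refine Finset.card_le_card ?_
    intro v hv
    rw [Finset.mem_inter, hW, Finset.mem_filter] at hv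
    obtain ⟨⟨-, c, r, h, -⟩, hvS⟩ := hv
    exact Finset.mem_filter.mpr ⟨hvS, c, r, h⟩
  have hsum : (W \ S).card + (W ∩ S).card = W.card := Finset.card_sdiff_add_card_inter W S
  rw [cardC] at hle
  rw [cardW] at hsum
  have : 2 * k * ∑ j : Fin I.m, (A1 S M (I.right j)).card =
    k * ∑ j : Fin I.m, (A1 S M (I.right j)).card + k * ∑ j : Fin I.m, (A1 S M (I.right j)).card := by
    ring
  omega

lemma tri_count (K : ℕ) (S : Finset (Fin I.m × Kind k)) :
    K * (univ.filter fun j => ¬ intact S j).card ≤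
      ∑ v ∈ S.filter (fun v => ∃ i, v.2 = Kind.tri i), kcost K v.2 := by
  have h1 : ∑ v ∈ S.filter (fun v => ∃ i, v.2 = Kind.tri i), kcost K v.2 =
      K * (S.filter (fun v => ∃ i, v.2 = Kind.tri i)).card := by
    rw [Finset.sum_congr rfl (g := fun _ => K)]
    · simp [mul_comm]
    · intro v hv
      rw [Finset.mem_filter] at hv
      obtain ⟨-, i, hi⟩ := hv
      rw [hi]; rfl
  rw [h1]
  refine Nat.mul_le_mul_left _ ?_
  refine le_trans (Finset.card_le_card ?_)
    (Finset.card_image_le (f := Prod.fst) (s := S.filter (fun v => ∃ i, v.2 = Kind.tri i)))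
  intro j hj
  rw [Finset.mem_filter, intact] at hj
  push Not at hj
  obtain ⟨-, i, hi⟩ := hj
  rw [Finset.mem_image]
  exact ⟨(j, Kind.tri i), Finset.mem_filter.mpr ⟨hi, i, rfl⟩, rfl⟩

/-- the lower bound on the cost of a feasible set -/
lemma cost_lower (hM : Opt (gad I) S M) (K : ℕ) :
    k * (∑ j : Fin I.m, (A0 S M (I.left j)).card + ∑ j : Fin I.m, (A1 S M (I.right j)).card) +
      K * (univ.filter fun j => ¬ intact S j).card ≤ ∑ v ∈ S, kcost K v.2 := by
  have hl := left_count hM
  have hr := right_count hM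
  have ht := tri_count K S
  set F0 := S.filter fun v => ∃ c r, v.2 = Kind.sng false c r with hF0
  set F1 := S.filter fun v => ∃ c r, v.2 = Kind.sng true c r with hF1
  set F2 := S.filter (fun v => ∃ i, v.2 = Kind.tri i) with hF2
  have e0 : F0.card = ∑ v ∈ F0, kcost K v.2 := by
    rw [Finset.sum_congr rfl (g := fun _ => 1)]
    · simp
    · intro v hv
      rw [hF0, Finset.mem_filter] at hv
      obtain ⟨-, c, r, hi⟩ := hv
      rw [hi]; rfl
  have e1 : F1.card = ∑ v ∈ F1, kcost K v.2 := by
    rw [Finset.sum_congr rfl (g := fun _ => 1)]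
    · simp
    · intro v hv
      rw [hF1, Finset.mem_filter] at hv
      obtain ⟨-, c, r, hi⟩ := hv
      rw [hi]; rfl
  have d01 : Disjoint F0 F1 := by
    rw [Finset.disjoint_left]
    intro v hv hv'
    rw [hF0, Finset.mem_filter] at hv
    rw [hF1, Finset.mem_filter] at hv'
    obtain ⟨-, c, r, hi⟩ := hv
    obtain ⟨-, c', r', hi'⟩ := hv'
    rw [hi] at hi'
    simp at hi'
  have d2 : Disjoint (F0 ∪ F1) F2 := by
    rw [Finset.disjoint_left]
    intro v hv hv'
    rw [hF2, Finset.mem_filter] at hv'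
    obtain ⟨-, i, hi'⟩ := hv'
    rw [Finset.mem_union, hF0, hF1, Finset.mem_filter, Finset.mem_filter] at hv
    rcases hv with ⟨-, c, r, hi⟩ | ⟨-, c, r, hi⟩ <;>
    · rw [hi] at hi'
      simp at hi'
  have hunion : ∑ v ∈ (F0 ∪ F1) ∪ F2, kcost K v.2 ≤ ∑ v ∈ S, kcost K v.2 := by
    refine Finset.sum_le_sum_of_subset ?_
    intro v hv
    rw [Finset.mem_union, Finset.mem_union] at hv
    rcases hv with (hv | hv) | hv
    · exact (Finset.mem_filter.mp hv).1
    · exact (Finset.mem_filter.mp hv).1
    · exact (Finset.mem_filter.mp hv).1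
  rw [Finset.sum_union d2, Finset.sum_union d01, ← e0, ← e1] at hunion
  rw [Nat.mul_add]
  omega

end sound

/-- averaging over labelings -/
lemma exists_labeling {k : ℕ} (hk : 0 < k) (I : Csp k) (A B : Fin I.n → Finset (Fin k))
    (D : ℕ) (good : Finset (Fin I.m))
    (hgood : ∀ j ∈ good, (A (I.left j)).card * (B (I.right j)).card ≤ D ∧
      ∃ a ∈ A (I.left j), ∃ b ∈ B (I.right j), I.rel j a b = true) :
    ∃ σ τ, good.card ≤ D * I.numSat σ τ := by
  have : Nonempty (Fin k) := ⟨⟨0, hk⟩⟩
  set A' : Fin I.n → Finset (Fin k) := fun x => if (A x).Nonempty then A x else univ with hA'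
  set B' : Fin I.n → Finset (Fin k) := fun x => if (B x).Nonempty then B x else univ with hB'
  have hA'ne : ∀ x, (A' x).Nonempty := by
    intro x
    simp only [hA']
    split_ifs with h
    · exact h
    · exact Finset.univ_nonempty
  have hB'ne : ∀ x, (B' x).Nonempty := by
    intro x
    simp only [hB']
    split_ifs with h
    · exact h
    · exact Finset.univ_nonempty
  set PA := Fintype.piFinset A' with hPA
  set PB := Fintype.piFinset B' with hPB
  have hPAne : PA.Nonempty := Fintype.piFinset_nonempty.mpr hA'ne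
  have hPBne : PB.Nonempty := Fintype.piFinset_nonempty.mpr hB'ne
  -- fibre counts
  have fib : ∀ (A' : Fin I.n → Finset (Fin k)) (x : Fin I.n) (a : Fin k), a ∈ A' x →
      (A' x).card * ((Fintype.piFinset A').filter fun σ => σ x = a).card =
        (Fintype.piFinset A').card := by
    intro A' x a ha
    rw [Fintype.card_filter_piFinset_eq_of_mem _ _ ha, Fintype.card_piFinset,
      Finset.mul_prod_erase (f := fun b => (A' b).card) (a := x) (s := univ) (h := Finset.mem_univ x)]
  -- the total count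
  have key : good.card * (PA.card * PB.card) ≤ D * ∑ σ ∈ PA, ∑ τ ∈ PB, I.numSat σ τ := by
    have h1 : ∑ σ ∈ PA, ∑ τ ∈ PB, I.numSat σ τ =
        ∑ j : Fin I.m, ∑ σ ∈ PA, ∑ τ ∈ PB,
          (if I.rel j (σ (I.left j)) (τ (I.right j)) = true then 1 else 0) := by
      simp only [Csp.numSat, Finset.card_filter]
      rw [Finset.sum_comm' (s := univ) (t := fun _ => PA) (t' := PA) (s' := fun _ => univ)
        (by simp)]
      refine Finset.sum_congr rfl fun σ _ => ?_
      rw [Finset.sum_comm]
    have h2 : ∀ j ∈ good, PA.card * PB.card ≤ D * ∑ σ ∈ PA, ∑ τ ∈ PB,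
          (if I.rel j (σ (I.left j)) (τ (I.right j)) = true then 1 else 0) := by
      intro j hj
      obtain ⟨hD, a, ha, b, hb, hrel⟩ := hgood j hj
      have hAe : A' (I.left j) = A (I.left j) := by
        simp only [hA']; rw [if_pos ⟨a, ha⟩]
      have hBe : B' (I.right j) = B (I.right j) := by
        simp only [hB']; rw [if_pos ⟨b, hb⟩]
      have f1 := fib A' (I.left j) a (by rw [hAe]; exact ha)
      have f2 := fib B' (I.right j) b (by rw [hBe]; exact hb)
      rw [hAe] at f1
      rw [hBe] at f2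
      have h3 : (PA.filter fun σ => σ (I.left j) = a).card *
          (PB.filter fun τ => τ (I.right j) = b).card ≤ ∑ σ ∈ PA, ∑ τ ∈ PB,
          (if I.rel j (σ (I.left j)) (τ (I.right j)) = true then 1 else 0) := by
        rw [Finset.card_filter, Finset.card_filter, Finset.sum_mul_sum]
        refine Finset.sum_le_sum fun σ _ => Finset.sum_le_sum fun τ _ => ?_
        by_cases h1 : σ (I.left j) = a
        · by_cases h2 : τ (I.right j) = b
          · rw [h1, h2]; simp [hrel]
          · simp [h2]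
        · simp [h1]
      rw [← f1, ← f2]
      calc (A (I.left j)).card * (filter (fun σ => σ (I.left j) = a) (Fintype.piFinset A')).card *
          ((B (I.right j)).card *
            (filter (fun σ => σ (I.right j) = b) (Fintype.piFinset B')).card)
          = ((A (I.left j)).card * (B (I.right j)).card) *
            ((filter (fun σ => σ (I.left j) = a) (Fintype.piFinset A')).card *
            (filter (fun σ => σ (I.right j) = b) (Fintype.piFinset B')).card) := by ring
        _ ≤ _ := Nat.mul_le_mul hD h3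
    rw [h1, Finset.mul_sum]
    calc good.card * (PA.card * PB.card) = ∑ j ∈ good, PA.card * PB.card := by
          rw [Finset.sum_const, smul_eq_mul]
      _ ≤ ∑ j ∈ good, D * ∑ σ ∈ PA, ∑ τ ∈ PB,
          (if I.rel j (σ (I.left j)) (τ (I.right j)) = true then 1 else 0) :=
          Finset.sum_le_sum h2
      _ ≤ _ := Finset.sum_le_sum_of_subset (Finset.subset_univ _)
  by_contra hcon
  push Not at hcon
  have h5 : D * ∑ σ ∈ PA, ∑ τ ∈ PB, I.numSat σ τ < good.card * (PA.card * PB.card) := by
    rw [Finset.mul_sum]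
    calc ∑ σ ∈ PA, D * ∑ τ ∈ PB, I.numSat σ τ
        = ∑ σ ∈ PA, ∑ τ ∈ PB, D * I.numSat σ τ := by
          refine Finset.sum_congr rfl fun σ _ => ?_
          rw [Finset.mul_sum]
      _ < ∑ σ ∈ PA, ∑ τ ∈ PB, good.card :=
          Finset.sum_lt_sum_of_nonempty hPAne fun σ _ =>
            Finset.sum_lt_sum_of_nonempty hPBne fun τ _ => hcon σ τ
      _ = good.card * (PA.card * PB.card) := by
          simp only [Finset.sum_const, smul_eq_mul]; ring
  omega

/-- Soundness: a feasible set of cost at most `c₁ k m` yields a labeling satisfying at least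
`m / (8 c₁²)` constraints. -/
lemma sound {k : ℕ} (hk : 0 < k) (I : Csp k) (S : Finset (Fin I.m × Kind k))
    (hS : Feasible (gad I) S) (c₁ : ℕ) (hc : 0 < c₁)
    (hcost : ∑ v ∈ S, kcost (4 * c₁ * k) v.2 ≤ c₁ * k * I.m) :
    ∃ σ τ, I.m ≤ 8 * c₁ ^ 2 * I.numSat σ τ := by
  obtain ⟨M, hM⟩ := feasible_iff_opt.mp hS
  have hlow := (cost_lower hM (4 * c₁ * k)).trans hcost
  set X := ∑ j : Fin I.m, (A0 S M (I.left j)).card with hX
  set Y := ∑ j : Fin I.m, (A1 S M (I.right j)).card with hY
  set nI := (univ.filter fun j => ¬ intact S j) with hnI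
  have h1 : X + Y ≤ c₁ * I.m := by
    have : k * (X + Y) ≤ k * (c₁ * I.m) := by
      calc k * (X + Y) ≤ k * (X + Y) + 4 * c₁ * k * nI.card := Nat.le_add_right _ _
        _ ≤ c₁ * k * I.m := hlow
        _ = k * (c₁ * I.m) := by ring
    exact Nat.le_of_mul_le_mul_left this hk
  have h2 : 4 * nI.card ≤ I.m := by
    have : c₁ * k * (4 * nI.card) ≤ c₁ * k * I.m := by
      calc c₁ * k * (4 * nI.card) = 4 * c₁ * k * nI.card := by ring
        _ ≤ k * (X + Y) + 4 * c₁ * k * nI.card := Nat.le_add_left _ _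
        _ ≤ c₁ * k * I.m := hlow
    exact Nat.le_of_mul_le_mul_left this (Nat.mul_pos hc hk)
  set big := (univ.filter fun j : Fin I.m =>
    4 * c₁ < (A0 S M (I.left j)).card + (A1 S M (I.right j)).card) with hbig
  have h3 : 4 * c₁ * big.card ≤ X + Y := by
    rw [hX, hY, ← Finset.sum_add_distrib]
    calc 4 * c₁ * big.card = ∑ j ∈ big, 4 * c₁ := by
          rw [Finset.sum_const, smul_eq_mul, mul_comm]
      _ ≤ ∑ j ∈ big, ((A0 S M (I.left j)).card + (A1 S M (I.right j)).card) :=
          Finset.sum_le_sum fun j hj => (Finset.mem_filter.mp hj).2.le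
      _ ≤ _ := Finset.sum_le_sum_of_subset (Finset.subset_univ _)
  have h4 : 4 * big.card ≤ I.m := by
    have : c₁ * (4 * big.card) ≤ c₁ * I.m := by
      calc c₁ * (4 * big.card) = 4 * c₁ * big.card := by ring
        _ ≤ c₁ * I.m := h3.trans h1
    exact Nat.le_of_mul_le_mul_left this hc
  set good := (univ.filter fun j : Fin I.m => intact S j ∧
    (A0 S M (I.left j)).card + (A1 S M (I.right j)).card ≤ 4 * c₁) with hgood
  have h5 : I.m ≤ 2 * good.card := by
    have h6 : (univ : Finset (Fin I.m)) ⊆ good ∪ (nI ∪ big) := by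
      intro j _
      simp only [hgood, hnI, hbig, Finset.mem_union, Finset.mem_filter, Finset.mem_univ, true_and]
      by_cases h : intact S j
      · by_cases h' : 4 * c₁ < (A0 S M (I.left j)).card + (A1 S M (I.right j)).card
        · right; right; exact h'
        · left; exact ⟨h, not_lt.mp h'⟩
      · right; left; exact h
    have h7 := Finset.card_le_card h6
    have h8 := Finset.card_union_le good (nI ∪ big)
    have h9 := Finset.card_union_le nI big
    simp only [Finset.card_univ, Fintype.card_fin] at h7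
    omega
  obtain ⟨σ, τ, h⟩ := exists_labeling hk I (A0 S M) (A1 S M) (4 * c₁ ^ 2) good (by
    intro j hj
    rw [hgood, Finset.mem_filter] at hj
    obtain ⟨-, hint, hsum⟩ := hj
    refine ⟨?_, ?_⟩
    · have h6 : 4 * ((A0 S M (I.left j)).card * (A1 S M (I.right j)).card) ≤
          ((A0 S M (I.left j)).card + (A1 S M (I.right j)).card) ^ 2 := by
        nlinarith [sq_nonneg ((A0 S M (I.left j)).card - (A1 S M (I.right j)).card : ℤ),
          four_mul_le_sq_add (A0 S M (I.left j)).card (A1 S M (I.right j)).card]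
      have h7 : ((A0 S M (I.left j)).card + (A1 S M (I.right j)).card) ^ 2 ≤ (4 * c₁) ^ 2 :=
        Nat.pow_le_pow_left hsum 2
      nlinarith
    · obtain ⟨a, b, hrel, hsel⟩ := exists_sel hM hint
      refine ⟨a, ?_, b, ?_, hrel⟩
      · rw [A0, Finset.mem_filter]
        exact ⟨Finset.mem_univ _, j, b, rfl, hsel⟩
      · rw [A1, Finset.mem_filter]
        exact ⟨Finset.mem_univ _, j, a, rfl, hsel⟩)
  refine ⟨σ, τ, ?_⟩
  calc I.m ≤ 2 * good.card := h5
    _ ≤ 2 * (4 * c₁ ^ 2 * I.numSat σ τ) := Nat.mul_le_mul_left _ h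
    _ = 8 * c₁ ^ 2 * I.numSat σ τ := by ring

end Pool.Agent.Lib_helper36.Stab
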