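import Pool.Agent.Lib_helper36.StabEmit
import Pool.Agent.Lib_helper36.StabSound
import Pool.Agent.Lib_helper36.StabComplete
import Pool.Agent.Lib_helper36.Majority

set_option autoImplicit false
set_option linter.unusedSectionVars false
set_option linter.unusedSimpArgs false

open Pool.Agent.Lib57
open Function (update)
open Finset

namespace Pool.Agent.Lib_helper36.Stab

/-! ### transport along a bijection -/

section transport

open scoped Classical

variable {V W : Type*} [Fintype V] [Fintype W]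

/-- the induced bijection on unordered pairs -/
def e2 (φ : V ≃ W) : Sym2 V ≃ Sym2 W where
  toFun := Sym2.map φ
  invFun := Sym2.map φ.symm
  left_inv e := by
    rw [Sym2.map_map]; simp
  right_inv e := by
    rw [Sym2.map_map]; simp

lemma mem_e2 {φ : V ≃ W} {e : Sym2 V} {w : W} : w ∈ e2 φ e ↔ φ.symm w ∈ e := by
  show w ∈ Sym2.map φ e ↔ _
  rw [Sym2.mem_map]
  constructor
  · rintro ⟨a, ha, rfl⟩; simpa using ha
  · intro h; exact ⟨_, h, by simp⟩

lemma e2_edge {φ : V ≃ W} {G : SimpleGraph W} {e : Sym2 V} :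
    e2 φ e ∈ G.edgeSet ↔ e ∈ (G.comap φ).edgeSet := by
  induction e using Sym2.ind with
  | _ u v => rfl

lemma feasible_map (φ : V ≃ W) (G : SimpleGraph W) (S : Finset V)
    (h : Feasible (G.comap φ) S) : Feasible G (S.map φ.toEmbedding) := by
  obtain ⟨M, hM, hx⟩ := feasible_iff.mp h
  refine feasible_iff.mpr ⟨M.map (e2 φ).toEmbedding, ⟨⟨?_, ?_⟩, ?_⟩, ?_⟩
  · intro e he
    rw [Finset.mem_map] at he
    obtain ⟨e', he', rfl⟩ := he
    exact e2_edge.mpr (hM.1.1 e' he')
  · intro e he f hf v hv hv'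
    rw [Finset.mem_map] at he hf
    obtain ⟨e', he', rfl⟩ := he
    obtain ⟨f', hf', rfl⟩ := hf
    rw [hM.1.2 e' he' f' hf' (φ.symm v) (mem_e2.mp hv) (mem_e2.mp hv')]
  · intro e he v hv hvS
    rw [Finset.mem_map] at he
    obtain ⟨e', he', rfl⟩ := he
    refine hM.2 e' he' (φ.symm v) (mem_e2.mp hv) ?_
    rw [Finset.mem_map] at hvS
    obtain ⟨u, hu, rfl⟩ := hvS
    simpa using hu
  · intro x hxW
    rw [Finset.card_map]
    have h1 : OffFrac (G.comap φ) S (fun e => x (e2 φ e)) := by
      refine ⟨⟨fun e => hxW.1.1 _, fun e he => hxW.1.2.1 _ fun h => he (e2_edge.mp h),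
        fun v => ?_⟩, fun e v hv hvS => hxW.2 _ (φ v) (mem_e2.mpr (by simpa using hv))
          (Finset.mem_map_of_mem _ hvS)⟩
      have h2 := hxW.1.2.2 (φ v)
      rw [vsum_eq] at h2 ⊢
      refine le_trans (le_of_eq ?_) h2
      refine Finset.sum_equiv (e2 φ) ?_ (fun _ _ => rfl)
      intro e
      simp only [Finset.mem_filter, Finset.mem_univ, true_and]
      rw [mem_e2]
      simp
    have h2 := hx _ h1
    rwa [Equiv.sum_comp (e2 φ) x] at h2

lemma feasible_map_iff (φ : V ≃ W) (G : SimpleGraph W) (S : Finset V) :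
    Feasible (G.comap φ) S ↔ Feasible G (S.map φ.toEmbedding) := by
  refine ⟨feasible_map φ G S, fun h => ?_⟩
  have h1 : Feasible ((G.comap φ).comap φ.symm) (S.map φ.toEmbedding) := by
    have : (G.comap φ).comap φ.symm = G := by
      ext u v; simp
    rw [this]; exact h
  have h2 := feasible_map φ.symm (G.comap φ) _ h1
  have h3 : (S.map φ.toEmbedding).map φ.symm.toEmbedding = S := by
    rw [Finset.map_map]
    ext v
    simp
  rwa [h3] at h2

end transport

/-! ### the threshold test -/

section threshold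

variable (k K c₁ : ℕ)

open scoped Classical in
/-- prints `kn k * w` ones for each selected vertex of cost `w`, and `c₁ k` zeros for each vertex -/
noncomputable def cntF (x : List Bool) : List Bool :=
  (List.range x.length).flatMap fun p =>
    ((List.finRange (kn k)).flatMap fun i : Fin (kn k) =>
      if x[p]? = some true ∧ ∃ q < p + 1, p = q * kn k + (i : ℕ) then
        List.replicate (kn k * kcost K (kd k i)) true else []) ++ List.replicate (c₁ * k) false

lemma cntF_polyTime : N68a2faeb.IsPolyTime (cntF k K c₁) := by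
  classical
  have hq : ∀ i : Fin (kn k), IsForm 1 (fun x e => x[e 0]? = some true ∧
      ∃ q < e 0 + 1, (update e 1 q) 0 = (update e 1 q) 1 * kn k + (i : ℕ)) := fun i =>
    (IsForm.bit (IsTerm.var (by omega))).and
      (IsForm.ex ((IsTerm.var (by omega)).add (IsTerm.const 1 1))
        (IsForm.eq (IsTerm.var (by omega)) (((IsTerm.var (by omega)).mul
          (IsTerm.const 2 (kn k))).add (IsTerm.const 2 (i : ℕ)))))
  have hq' : ∀ i : Fin (kn k), IsForm 1 (fun x e => x[e 0]? = some true ∧
      ∃ q < e 0 + 1, e 0 = q * kn k + (i : ℕ)) := fun i =>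
    (hq i).congr fun x e => by
      simp only [Function.update_self, Function.update_of_ne (show (0 : ℕ) ≠ 1 by omega)]
  have h1 : IsEmit 1 (fun x e => ((List.finRange (kn k)).flatMap fun i : Fin (kn k) =>
      if x[e 0]? = some true ∧ ∃ q < e 0 + 1, e 0 = q * kn k + (i : ℕ) then
        List.replicate (kn k * kcost K (kd k i)) true else []) ++
          List.replicate (c₁ * k) false) := by
    refine ((IsEmit.list (List.finRange (kn k)) fun i _ => IsEmit.ite (hq' i)
      (IsEmit.constList 1 (List.replicate (kn k * kcost K (kd k i)) true)) (IsEmit.nil 1)).append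
      (IsEmit.constList 1 (List.replicate (c₁ * k) false))).congr fun x e => ?_
    congr 1
    refine List.flatMap_congr fun i _ => ?_
    congr
  refine isPolyTime_of_isEmit (F := fun x e => (List.range x.length).flatMap fun p =>
    ((List.finRange (kn k)).flatMap fun i : Fin (kn k) =>
      if x[p]? = some true ∧ ∃ q < p + 1, p = q * kn k + (i : ℕ) then
        List.replicate (kn k * kcost K (kd k i)) true else []) ++ List.replicate (c₁ * k) false) ?_
  refine (IsEmit.for (IsTerm.len 0) h1).congr fun x e => ?_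
  simp only [Function.update_self]

lemma kn_pos : 0 < kn k := by
  unfold kn
  exact Fintype.card_pos_iff.mpr ⟨Kind.tri 0⟩

variable {k} (I : Csp k)

lemma encodeSet_length {N : ℕ} (S : Finset (Fin N)) : (encodeSet S).length = N := by
  simp [encodeSet]

lemma encodeSet_getElem? {N : ℕ} (S : Finset (Fin N)) (v : Fin N) :
    (encodeSet S)[(v : ℕ)]? = some (decide (v ∈ S)) := by
  simp [encodeSet]

lemma sum_map_finRange {n : ℕ} (f : Fin n → ℕ) : ((List.finRange n).map f).sum = ∑ i, f i := by
  rw [← List.ofFn_eq_map, List.sum_ofFn]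

lemma count_true_cntF (S : Finset (Fin (I.m * kn k))) :
    (cntF k K c₁ (encodeSet S)).count true = kn k * ∑ v ∈ S, costN K I v := by
  classical
  unfold cntF
  rw [encodeSet_length, flatMap_range_eq, List.count_flatMap, sum_map_finRange, Finset.mul_sum,
    ← Finset.sum_filter_add_sum_filter_not univ (fun v => v ∈ S)]
  have h2 : ∀ v : Fin (I.m * kn k), v ∉ S → (List.count true ∘ fun i : Fin (I.m * kn k) =>
      (List.flatMap (fun i_1 : Fin (kn k) => if (encodeSet S)[(i : ℕ)]? = some true ∧
        ∃ q < (i : ℕ) + 1, (i : ℕ) = q * kn k + i_1 then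
        List.replicate (kn k * kcost K (kd k i_1)) true else []) (List.finRange (kn k))) ++
          List.replicate (c₁ * k) false) v = 0 := by
    intro v hv
    simp only [Function.comp, encodeSet_getElem?, hv, decide_false, Option.some.injEq,
      Bool.false_eq_true, false_and, if_false]
    simp [List.count_eq_zero]
  have h3 : ∀ v : Fin (I.m * kn k), v ∈ S → (List.count true ∘ fun i : Fin (I.m * kn k) =>
      (List.flatMap (fun i_1 : Fin (kn k) => if (encodeSet S)[(i : ℕ)]? = some true ∧
        ∃ q < (i : ℕ) + 1, (i : ℕ) = q * kn k + i_1 then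
        List.replicate (kn k * kcost K (kd k i_1)) true else []) (List.finRange (kn k))) ++
          List.replicate (c₁ * k) false) v = kn k * costN K I v := by
    intro v hv
    obtain ⟨⟨j, i⟩, rfl⟩ := finProdFinEquiv.surjective v
    have hval : ((finProdFinEquiv (j, i) : Fin (I.m * kn k)) : ℕ) = i + kn k * j := rfl
    have hiff : ∀ i' : Fin (kn k), (∃ q < ((finProdFinEquiv (j, i) : Fin (I.m * kn k)) : ℕ) + 1,
        ((finProdFinEquiv (j, i) : Fin (I.m * kn k)) : ℕ) = q * kn k + i') ↔ i' = i := by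
      intro i'
      rw [hval]
      constructor
      · rintro ⟨q, _, hq⟩
        have h1 : ((i : ℕ) + kn k * j) % kn k = i := by
          rw [Nat.add_mul_mod_self_left, Nat.mod_eq_of_lt i.2]
        have h2 : (q * kn k + (i' : ℕ)) % kn k = i' := by
          rw [Nat.mul_add_mod', Nat.mod_eq_of_lt i'.2]
        apply Fin.ext
        rw [← h1, ← h2, hq]
      · rintro rfl
        refine ⟨j, ?_, by ring⟩
        have h0 := kn_pos k
        nlinarith
    simp only [Function.comp, encodeSet_getElem?, hv, decide_true, Option.some.injEq, true_and,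
      hiff]
    rw [List.count_append, List.count_flatMap, sum_map_finRange]
    have h4 : costN K I (finProdFinEquiv (j, i)) = kcost K (kd k i) := by
      simp [costN, vtx]
    have h5 : List.count true (List.replicate (c₁ * k) false) = 0 := by
      rw [List.count_eq_zero]
      intro h
      have := List.eq_of_mem_replicate h
      simp at this
    rw [h4, h5, Finset.sum_eq_single i]
    · simp
    · intro b _ hb; simp [hb]
    · intro h; exact absurd (Finset.mem_univ _) h
  rw [Finset.sum_congr rfl (fun v hv => h3 v (Finset.mem_filter.mp hv).2),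
    Finset.sum_congr rfl (fun v hv => h2 v (Finset.mem_filter.mp hv).2)]
  simp

lemma count_false_cntF (S : Finset (Fin (I.m * kn k))) :
    (cntF k K c₁ (encodeSet S)).count false = kn k * (c₁ * k * I.m) := by
  classical
  unfold cntF
  rw [encodeSet_length, flatMap_range_eq, List.count_flatMap, sum_map_finRange]
  have h2 : ∀ v : Fin (I.m * kn k), (List.count false ∘ fun i : Fin (I.m * kn k) =>
      (List.flatMap (fun i_1 : Fin (kn k) => if (encodeSet S)[(i : ℕ)]? = some true ∧
        ∃ q < (i : ℕ) + 1, (i : ℕ) = q * kn k + i_1 then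
        List.replicate (kn k * kcost K (kd k i_1)) true else []) (List.finRange (kn k))) ++
          List.replicate (c₁ * k) false) v = c₁ * k := by
    intro v
    simp only [Function.comp]
    rw [List.count_append]
    have : List.count false (List.flatMap (fun i_1 : Fin (kn k) =>
        if (encodeSet S)[(v : ℕ)]? = some true ∧ ∃ q < (v : ℕ) + 1, (v : ℕ) = q * kn k + i_1 then
        List.replicate (kn k * kcost K (kd k i_1)) true else []) (List.finRange (kn k))) = 0 := by
      rw [List.count_eq_zero]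
      intro h
      rw [List.mem_flatMap] at h
      obtain ⟨i, -, h⟩ := h
      split_ifs at h
      · simp at h
      · simp at h
    rw [this]
    simp
  rw [Finset.sum_congr rfl (fun v _ => h2 v)]
  simp
  ring

lemma maj_cntF (S : Finset (Fin (I.m * kn k))) :
    Majority.maj (cntF k K c₁ (encodeSet S)) = true ↔ ∑ v ∈ S, costN K I v ≤ c₁ * k * I.m := by
  unfold Majority.maj
  rw [decide_eq_true_iff, count_true_cntF, count_false_cntF]
  exact ⟨fun h => Nat.le_of_mul_le_mul_left h (kn_pos k), fun h => Nat.mul_le_mul_left _ h⟩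

end threshold

/-! ### the main theorem -/

section main

lemma cost_map {k : ℕ} (K : ℕ) (I : Csp k) (S : Finset (Fin (I.m * kn k))) :
    ∑ v ∈ S, costN K I v = ∑ v ∈ S.map (vtx I).toEmbedding, kcost K v.2 := by
  rw [Finset.sum_map]
  rfl

/-- The core: hardness of the gap problem implies hardness of approximation. -/
theorem main (hG : ∀ ε δ : ℝ, 0 < ε → 0 < δ → ∃ k : ℕ, 0 < k ∧ GapNPHard k ε δ (fun _ => True))
    (hP : ¬ N68a2faeb.NP ⊆ N68a2faeb.P) (α : ℝ) :
    ¬ ∃ A : List Bool → List Bool, N68a2faeb.IsPolyTime A ∧ ApproxTwoCosts α A := by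
  rintro ⟨A, hA, happ⟩
  apply hP
  intro L hL
  obtain ⟨c₁, hc₁⟩ := exists_nat_ge (max 1 (5 * α))
  have hc1 : (1 : ℝ) ≤ c₁ := (le_max_left _ _).trans hc₁
  have hcα : 5 * α ≤ c₁ := (le_max_right _ _).trans hc₁
  have hc0 : 0 < c₁ := by
    have : (0 : ℝ) < c₁ := by linarith
    exact_mod_cast this
  obtain ⟨k, hk, hgap⟩ := hG (1 / (4 * c₁)) (1 / (16 * c₁ ^ 2)) (by positivity) (by positivity)
  obtain ⟨f, hf, hfL⟩ := hgap L hL
  have hkR : (0 : ℝ) < k := by exact_mod_cast hk
  set K := 4 * c₁ * k with hK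
  have hD : (Majority.maj ∘ (cntF k K c₁) ∘ A ∘ (gadF k K)) ∈ N68a2faeb.P :=
    TMComp.isPolyTime_comp (TMComp.isPolyTime_comp (TMComp.isPolyTime_comp (gadF_polyTime k K) hA)
      (cntF_polyTime k K c₁)) Majority.maj_mem_P
  refine TMComp.mem_P_of_reduction hf hD fun x => ?_
  -- the algorithm on a gadget instance
  have alg : ∀ I : Csp k, ∃ S : Finset (Fin (I.m * kn k)),
      (Majority.maj ((cntF k K c₁) (A (gadF k K I.encode))) = true ↔
        ∑ v ∈ S, costN K I v ≤ c₁ * k * I.m) ∧ Feasible (gadN I) S ∧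
      ∀ S' : Finset (Fin (I.m * kn k)), Feasible (gadN I) S' →
        ((∑ v ∈ S, costN K I v : ℕ) : ℝ) ≤ α * ((∑ v ∈ S', costN K I v : ℕ) : ℝ) := by
    intro I
    obtain ⟨S, hS1, hS2, hS3⟩ := happ (I.m * kn k) (gadN I) (costN K I) ⟨K, 1, fun v => by
      unfold costN
      cases (vtx I v).2 <;> simp [kcost]⟩
    refine ⟨S, ?_, hS2, hS3⟩
    rw [gadF_encode, hS1, maj_cntF]
  obtain ⟨hyes, hno⟩ := hfL x
  show L x = Majority.maj ((cntF k K c₁) (A (gadF k K (f x))))
  cases hLx : L x with
  | true =>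
    obtain ⟨I, hI, -, hm, σ, τ, hsat⟩ := hyes hLx
    obtain ⟨S, hS1, hS2, hS3⟩ := alg I
    rw [hI]
    symm
    rw [hS1]
    -- the solution coming from the labeling
    set S' : Finset (Fin (I.m * kn k)) := (del I σ τ).map (vtx I).symm.toEmbedding with hS'
    have hmap : S'.map (vtx I).toEmbedding = del I σ τ := by
      rw [hS', Finset.map_map]
      ext v
      simp
    have hfeas : Feasible (gadN I) S' := by
      unfold gadN
      rw [feasible_map_iff, hmap]
      exact feasible_del I σ τ
    have hcost : ∑ v ∈ S', costN K I v = 4 * k * I.m + K * (I.m - I.numSat σ τ) := by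
      rw [cost_map, hmap, cost_del]
    have h1 := hS3 S' hfeas
    rw [hcost] at h1
    have hle : I.numSat σ τ ≤ I.m := by
      unfold Csp.numSat
      refine (Finset.card_filter_le _ _).trans ?_
      simp
    have hmR : (0 : ℝ) < I.m := by exact_mod_cast hm
    have h2 : ((4 * k * I.m + K * (I.m - I.numSat σ τ) : ℕ) : ℝ) ≤ 5 * k * I.m := by
      push_cast [Nat.cast_sub hle, hK]
      have h3 : (I.m : ℝ) - I.numSat σ τ ≤ 1 / (4 * c₁) * I.m := by linarith
      have h4 : (4 * c₁ * k : ℝ) * (I.m - I.numSat σ τ) ≤ 4 * c₁ * k * (1 / (4 * c₁) * I.m) :=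
        mul_le_mul_of_nonneg_left h3 (by positivity)
      have h5 : (4 * c₁ * k : ℝ) * (1 / (4 * c₁) * I.m) = k * I.m := by
        field_simp
      rw [h5] at h4
      linarith
    have h6 : ((∑ v ∈ S, costN K I v : ℕ) : ℝ) ≤ ((c₁ * k * I.m : ℕ) : ℝ) := by
      refine h1.trans ?_
      have hcast : ((c₁ * k * I.m : ℕ) : ℝ) = c₁ * k * I.m := by push_cast; ring
      rw [hcast]
      have h7 : (0 : ℝ) ≤ ((4 * k * I.m + K * (I.m - I.numSat σ τ) : ℕ) : ℝ) := by positivity
      rcases le_total 0 α with hα | hα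
      · calc α * ((4 * k * I.m + K * (I.m - I.numSat σ τ) : ℕ) : ℝ)
            ≤ α * (5 * k * I.m) := mul_le_mul_of_nonneg_left h2 hα
          _ = (5 * α) * (k * I.m) := by ring
          _ ≤ c₁ * (k * I.m) := mul_le_mul_of_nonneg_right hcα (by positivity)
          _ = c₁ * k * I.m := by ring
      · have : α * ((4 * k * I.m + K * (I.m - I.numSat σ τ) : ℕ) : ℝ) ≤ 0 :=
          mul_nonpos_of_nonpos_of_nonneg hα h7
        refine this.trans (by positivity)
    exact_mod_cast h6
  | false =>
    obtain ⟨I, hI, -, hm, hsat⟩ := hno hLx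
    obtain ⟨S, hS1, hS2, hS3⟩ := alg I
    rw [hI]
    symm
    rw [← Bool.not_eq_true, hS1]
    intro hle
    unfold gadN at hS2
    rw [feasible_map_iff] at hS2
    rw [cost_map] at hle
    obtain ⟨σ, τ, h⟩ := sound hk I _ hS2 c₁ hc0 hle
    have h1 := hsat σ τ
    have hmR : (0 : ℝ) < I.m := by exact_mod_cast hm
    have h2 : (I.m : ℝ) ≤ 8 * c₁ ^ 2 * I.numSat σ τ := by exact_mod_cast h
    have h3 : (8 * c₁ ^ 2 : ℝ) * I.numSat σ τ ≤ 8 * c₁ ^ 2 * (1 / (16 * c₁ ^ 2) * I.m) :=
      mul_le_mul_of_nonneg_left h1 (by positivity)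
    have h4 : (8 * c₁ ^ 2 : ℝ) * (1 / (16 * c₁ ^ 2) * I.m) = I.m / 2 := by
      field_simp
      ring
    linarith

lemma GapNPHard.mono {k : ℕ} {ε ε' δ : ℝ} {C C' : Csp k → Prop} (hC : ∀ I, C I → C' I)
    (hε : ε ≤ ε') (h : GapNPHard k ε δ C) : GapNPHard k ε' δ C' := by
  intro L hL
  obtain ⟨f, hf, h⟩ := h L hL
  refine ⟨f, hf, fun x => ⟨fun hx => ?_, fun hx => ?_⟩⟩
  · obtain ⟨I, h1, h2, h3, σ, τ, h4⟩ := (h x).1 hx
    refine ⟨I, h1, hC I h2, h3, σ, τ, le_trans ?_ h4⟩
    have : (0 : ℝ) ≤ I.m := Nat.cast_nonneg _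
    nlinarith
  · obtain ⟨I, h1, h2, h3⟩ := (h x).2 hx
    exact ⟨I, h1, hC I h2, h3⟩

/-- Under the Unique Games Conjecture and `NP ⊈ P` there is no constant factor approximation. -/
theorem of_unique_games (hUG : UniqueGamesConjecture)
    (hP : ¬ N68a2faeb.NP ⊆ N68a2faeb.P) (α : ℝ) :
    ¬ ∃ A : List Bool → List Bool, N68a2faeb.IsPolyTime A ∧ ApproxTwoCosts α A := by
  refine main ?_ hP α
  intro ε δ hε hδ
  obtain ⟨k, hk, h⟩ := hUG ε δ hε hδ
  exact ⟨k, hk, h.mono (fun _ _ => trivial) le_rfl⟩

/-- `I` is a label cover (projection game): every constraint is the graph of a map. -/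
def Csp.IsProjection {k : ℕ} (I : Csp k) : Prop :=
  ∀ j, ∃ π : Fin k → Fin k, ∀ a b, I.rel j a b = true ↔ b = π a

/-- Hardness of label cover with perfect completeness. -/
def LabelCoverHardness : Prop :=
  ∀ δ : ℝ, 0 < δ → ∃ k : ℕ, 0 < k ∧ GapNPHard k 0 δ Csp.IsProjection

/-- The same from the hardness of label cover. -/
theorem of_label_cover (h : LabelCoverHardness)
    (hP : ¬ N68a2faeb.NP ⊆ N68a2faeb.P) (α : ℝ) :
    ¬ ∃ A : List Bool → List Bool, N68a2faeb.IsPolyTime A ∧ ApproxTwoCosts α A := by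
  refine main ?_ hP α
  intro ε δ hε hδ
  obtain ⟨k, hk, h⟩ := h δ hδ
  exact ⟨k, hk, h.mono (fun _ _ => trivial) hε.le⟩

end main

end Pool.Agent.Lib_helper36.Stab
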