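import Pool.Agent.Lib_helper36.NormSpace

set_option autoImplicit false

open Set Filter Topology

namespace Pool.Agent.Lib_helper36

/-- The determinant of two plane vectors. -/
def det2 (x y : Fin 2 → ℝ) : ℝ := x 0 * y 1 - x 1 * y 0

/-- Strictly convex norms on the plane. -/
def SC : Set (NormSp 2) := {N | ∀ x y, det2 x y ≠ 0 → N.1 (x + y) < N.1 x + N.1 y}

/-- Euclidean length. -/
noncomputable def euc (x : Fin 2 → ℝ) : ℝ := Real.sqrt (x 0 ^ 2 + x 1 ^ 2)

lemma euc_nonneg (x : Fin 2 → ℝ) : 0 ≤ euc x := Real.sqrt_nonneg _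

lemma euc_sq (x : Fin 2 → ℝ) : euc x ^ 2 = x 0 ^ 2 + x 1 ^ 2 := Real.sq_sqrt (by positivity)

lemma inner_le (x y : Fin 2 → ℝ) : x 0 * y 0 + x 1 * y 1 ≤ euc x * euc y := by
  refine abs_le_of_sq_le_sq' ?_ (mul_nonneg (euc_nonneg x) (euc_nonneg y)) |>.2
  rw [mul_pow, euc_sq, euc_sq]
  nlinarith [sq_nonneg (x 0 * y 1 - x 1 * y 0)]

lemma inner_lt (x y : Fin 2 → ℝ) (h : det2 x y ≠ 0) :
    x 0 * y 0 + x 1 * y 1 < euc x * euc y := by
  refine abs_lt_of_sq_lt_sq' ?_ (mul_nonneg (euc_nonneg x) (euc_nonneg y)) |>.2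
  rw [mul_pow, euc_sq, euc_sq]
  have : 0 < (x 0 * y 1 - x 1 * y 0) ^ 2 := by
    have := h
    unfold det2 at this
    positivity
  nlinarith

lemma euc_add_sq (x y : Fin 2 → ℝ) :
    euc (x + y) ^ 2 = euc x ^ 2 + euc y ^ 2 + 2 * (x 0 * y 0 + x 1 * y 1) := by
  rw [euc_sq, euc_sq, euc_sq]; simp; ring

lemma euc_add_le (x y : Fin 2 → ℝ) : euc (x + y) ≤ euc x + euc y := by
  refine abs_le_of_sq_le_sq' ?_ (add_nonneg (euc_nonneg x) (euc_nonneg y)) |>.2
  rw [euc_add_sq]
  nlinarith [inner_le x y]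

lemma euc_add_lt (x y : Fin 2 → ℝ) (h : det2 x y ≠ 0) : euc (x + y) < euc x + euc y := by
  refine abs_lt_of_sq_lt_sq' ?_ (add_nonneg (euc_nonneg x) (euc_nonneg y)) |>.2
  rw [euc_add_sq]
  nlinarith [inner_lt x y h]

lemma euc_smul (c : ℝ) (x : Fin 2 → ℝ) : euc (c • x) = |c| * euc x := by
  unfold euc
  have : (c • x) 0 ^ 2 + (c • x) 1 ^ 2 = c ^ 2 * (x 0 ^ 2 + x 1 ^ 2) := by
    simp; ring
  rw [this, Real.sqrt_mul (sq_nonneg c), Real.sqrt_sq_eq_abs]

lemma euc_eq_zero (x : Fin 2 → ℝ) (h : euc x = 0) : x = 0 := by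
  have h1 := euc_sq x
  rw [h] at h1
  have h0 : x 0 = 0 := by nlinarith [sq_nonneg (x 0), sq_nonneg (x 1)]
  have h2 : x 1 = 0 := by nlinarith [sq_nonneg (x 0), sq_nonneg (x 1)]
  ext i; fin_cases i <;> simp [h0, h2]

/-- The Euclidean norm as a point of the space of norms. -/
noncomputable def eucN : NormSp 2 :=
  ⟨⟨euc, by unfold euc; fun_prop⟩, euc_eq_zero, euc_add_le, euc_smul⟩

@[simp] lemma eucN_apply (x : Fin 2 → ℝ) : eucN.1 x = euc x := rfl

/-- perturbation of a norm by a nonnegative multiple of the Euclidean norm -/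
noncomputable def pert (N : NormSp 2) (δ : ℝ) (hδ : 0 ≤ δ) : NormSp 2 :=
  ⟨N.1 + δ • eucN.1, by
    refine ⟨fun x hx => ?_, fun x y => ?_, fun c x => ?_⟩
    · simp only [ContinuousMap.add_apply, ContinuousMap.smul_apply, eucN_apply, smul_eq_mul] at hx
      have h1 := N.nonneg x
      have h2 : 0 ≤ δ * euc x := mul_nonneg hδ (euc_nonneg x)
      exact N.2.1 x (by linarith)
    · simp only [ContinuousMap.add_apply, ContinuousMap.smul_apply, eucN_apply, smul_eq_mul]
      have h1 := N.2.2.1 x y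
      have h2 := mul_le_mul_of_nonneg_left (euc_add_le x y) hδ
      linarith
    · simp only [ContinuousMap.add_apply, ContinuousMap.smul_apply, eucN_apply, smul_eq_mul,
        N.2.2.2, euc_smul]
      ring⟩

lemma pert_apply (N : NormSp 2) (δ : ℝ) (hδ : 0 ≤ δ) (x : Fin 2 → ℝ) :
    (pert N δ hδ).1 x = N.1 x + δ * euc x := by
  simp [pert]

lemma pert_mem_SC (N : NormSp 2) (δ : ℝ) (hδ : 0 < δ) : pert N δ hδ.le ∈ SC := by
  intro x y h
  rw [pert_apply, pert_apply, pert_apply]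
  have h1 := N.2.2.1 x y
  have h2 := mul_lt_mul_of_pos_left (euc_add_lt x y h) hδ
  linarith

/-- compact sets of pairs exhausting linearly independent pairs, up to scaling -/
def Kset (n : ℕ) : Set ((Fin 2 → ℝ) × (Fin 2 → ℝ)) :=
  {p | ‖p‖ ≤ 1 ∧ 1 / ((n : ℝ) + 1) ≤ |det2 p.1 p.2|}

lemma isCompact_Kset (n : ℕ) : IsCompact (Kset n) := by
  have h : Kset n = Metric.closedBall 0 1 ∩ {p | 1 / ((n : ℝ) + 1) ≤ |det2 p.1 p.2|} := by
    ext p; simp [Kset]
  rw [h]
  refine (isCompact_closedBall _ _).inter_right ?_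
  refine isClosed_le continuous_const ?_
  unfold det2
  fun_prop

/-- the defect map -/
noncomputable def defect (f : C(Fin 2 → ℝ, ℝ)) : C((Fin 2 → ℝ) × (Fin 2 → ℝ), ℝ) :=
  f.comp ⟨Prod.fst, continuous_fst⟩ + f.comp ⟨Prod.snd, continuous_snd⟩
    - f.comp ⟨fun p => p.1 + p.2, by fun_prop⟩

lemma continuous_defect : Continuous defect := by
  unfold defect
  exact ((ContinuousMap.continuous_precomp _).add (ContinuousMap.continuous_precomp _)).sub
    (ContinuousMap.continuous_precomp _)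

/-- the open dense sets -/
def Oset (n : ℕ) : Set (NormSp 2) := {N | MapsTo (defect N.1) (Kset n) (Ioi 0)}

lemma isOpen_Oset (n : ℕ) : IsOpen (Oset n) := by
  have h : IsOpen {g : C((Fin 2 → ℝ) × (Fin 2 → ℝ), ℝ) | MapsTo g (Kset n) (Ioi 0)} :=
    ContinuousMap.isOpen_setOfPred_mapsTo (isCompact_Kset n) isOpen_Ioi
  exact h.preimage (continuous_defect.comp continuous_subtype_val)

lemma SC_subset_Oset (n : ℕ) : SC ⊆ Oset n := by
  intro N hN p hp
  have hdet : det2 p.1 p.2 ≠ 0 := by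
    intro h0
    have := hp.2
    rw [h0, abs_zero] at this
    have h3 : (0 : ℝ) < 1 / ((n : ℝ) + 1) := by positivity
    linarith
  have := hN p.1 p.2 hdet
  simp only [defect, mem_Ioi, ContinuousMap.sub_apply, ContinuousMap.add_apply,
    ContinuousMap.comp_apply, ContinuousMap.coe_mk]
  linarith

lemma dense_SC : Dense SC := by
  intro N
  have hlim : Tendsto (fun k : ℕ => pert N (1 / ((k : ℝ) + 1)) (by positivity)) atTop (𝓝 N) := by
    rw [tendsto_subtype_rng]
    have h1 : Tendsto (fun k : ℕ => (1 / ((k : ℝ) + 1))) atTop (𝓝 0) :=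
      tendsto_one_div_add_atTop_nhds_zero_nat
    have h2 : Tendsto (fun k : ℕ => N.1 + (1 / ((k : ℝ) + 1)) • eucN.1) atTop
        (𝓝 (N.1 + (0 : ℝ) • eucN.1)) :=
      tendsto_const_nhds.add (h1.smul_const _)
    simpa [pert] using h2
  exact mem_closure_of_tendsto hlim (Eventually.of_forall fun k => pert_mem_SC N _ (by positivity))

lemma SC_mem_residual : SC ∈ residual (NormSp 2) := by
  have h : ⋂ n, Oset n ⊆ SC := by
    intro N hN x y hxy
    rw [mem_iInter] at hN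
    -- scale
    set s : ℝ := ‖(x, y)‖ + 1 with hs
    have hs0 : 0 < s := by positivity
    obtain ⟨n, hn⟩ := exists_nat_one_div_lt (K := ℝ) (ε := |det2 x y| / s ^ 2)
      (div_pos (abs_pos.mpr hxy) (by positivity))
    have hmem : ((s⁻¹ • x, s⁻¹ • y) : (Fin 2 → ℝ) × (Fin 2 → ℝ)) ∈ Kset n := by
      constructor
      · have : ((s⁻¹ • x, s⁻¹ • y) : (Fin 2 → ℝ) × (Fin 2 → ℝ)) = s⁻¹ • (x, y) := rfl
        rw [this, norm_smul, Real.norm_eq_abs, abs_of_pos (inv_pos.mpr hs0),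
          inv_mul_le_iff₀ hs0]
        linarith
      · have : det2 (s⁻¹ • x) (s⁻¹ • y) = det2 x y / s ^ 2 := by
          simp only [det2, Pi.smul_apply, smul_eq_mul]
          field_simp
        simp only [this, abs_div, abs_of_pos (pow_pos hs0 2)]
        exact hn.le
    have h1 := hN n hmem
    simp only [defect, mem_Ioi, ContinuousMap.sub_apply, ContinuousMap.add_apply,
      ContinuousMap.comp_apply, ContinuousMap.coe_mk, ← smul_add, N.2.2.2,
      abs_of_pos (inv_pos.mpr hs0)] at h1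
    have h2 : 0 < s⁻¹ := inv_pos.mpr hs0
    by_contra hcon
    push Not at hcon
    have h3 := mul_le_mul_of_nonneg_left hcon h2.le
    linarith
  refine mem_of_superset ?_ h
  refine countable_iInter_mem.mpr fun n => ?_
  exact residual_of_dense_open (isOpen_Oset n) (dense_SC.mono (SC_subset_Oset n))

end Pool.Agent.Lib_helper36
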