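import Mathlib

/-!
# Composition of polynomial-time multi-stack Turing machines

We prove that the composition of two functions computable in polynomial time in the sense of
Mathlib's `Turing.TM2ComputableInPolyTime` is computable in polynomial time.
-/

set_option autoImplicit false
set_option linter.unusedSimpArgs false
set_option linter.unusedSectionVars false

namespace Pool.Agent.Lib_helper36.TMComp

open Turing Turing.TM2 Function

/-- `Steps f a b t`: `t` steps of `f` lead from `a` to `b`. -/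
def Steps {C : Type*} (f : C → Option C) (a b : C) (t : ℕ) : Prop :=
  (flip bind f)^[t] (some a) = some b

theorem Steps.trans {C : Type*} {f : C → Option C} {a b c : C} {t u : ℕ}
    (h1 : Steps f a b t) (h2 : Steps f b c u) : Steps f a c (t + u) := by
  unfold Steps at *
  rw [Nat.add_comm, Function.iterate_add_apply, h1, h2]

theorem Steps.one {C : Type*} {f : C → Option C} {a b : C} (h : f a = some b) :
    Steps f a b 1 := by
  simp [Steps, flip, h]

theorem Steps.zero {C : Type*} {f : C → Option C} (a : C) : Steps f a a 0 := rfl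

theorem Steps.succ_iff {C : Type*} {f : C → Option C} {a c : C} {t : ℕ} :
    Steps f a c (t + 1) ↔ ∃ b, f a = some b ∧ Steps f b c t := by
  unfold Steps
  rw [Function.iterate_succ_apply]
  constructor
  · intro h
    cases hf : f a with
    | none =>
      exfalso
      have h0 : flip bind f (some a) = none := by simp [flip, hf]
      rw [h0] at h
      have : ∀ n, (flip bind f)^[n] none = none := by
        intro n
        induction n with
        | zero => rfl
        | succ n ih => rw [Function.iterate_succ_apply]; simpa [flip] using ih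
      rw [this] at h
      cases h
    | some b =>
      refine ⟨b, rfl, ?_⟩
      have h0 : flip bind f (some a) = some b := by simp [flip, hf]
      rwa [h0] at h
  · rintro ⟨b, hb, h⟩
    have h0 : flip bind f (some a) = some b := by simp [flip, hb]
    rwa [h0]

/-- a simulation of single steps gives a simulation of runs -/
theorem Steps.sim {C D : Type*} {f : C → Option C} {g : D → Option D} (φ : C → D)
    (h : ∀ a b, f a = some b → g (φ a) = some (φ b)) {a b : C} {t : ℕ} (hs : Steps f a b t) :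
    Steps g (φ a) (φ b) t := by
  induction t generalizing a with
  | zero =>
    have : a = b := by simpa [Steps] using hs
    subst this; rfl
  | succ t ih =>
    obtain ⟨c, hc, hs⟩ := Steps.succ_iff.mp hs
    exact Steps.succ_iff.mpr ⟨_, h _ _ hc, ih hs⟩

section growth

variable {K : Type} [DecidableEq K] {Γ : K → Type} {Λ σ : Type}

/-- number of pushes in a statement (an upper bound for the pushes performed in one step) -/
def pushes : Stmt Γ Λ σ → ℕ
  | .push _ _ q => pushes q + 1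
  | .peek _ _ q => pushes q
  | .pop _ _ q => pushes q
  | .load _ q => pushes q
  | .branch _ q₁ q₂ => max (pushes q₁) (pushes q₂)
  | .goto _ => 0
  | .halt => 0

lemma stepAux_growth (q : Stmt Γ Λ σ) (v : σ) (S : ∀ k, List (Γ k)) (k : K) :
    ((stepAux q v S).stk k).length ≤ (S k).length + pushes q := by
  induction q generalizing v S with
  | push k' f q ih =>
    simp only [stepAux, pushes]
    refine (ih _ _).trans ?_
    by_cases h : k = k'
    · subst h; simp; omega
    · rw [Function.update_of_ne h]; omega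
  | peek k' f q ih => simp only [stepAux, pushes]; exact ih _ _
  | pop k' f q ih =>
    simp only [stepAux, pushes]
    refine (ih _ _).trans ?_
    by_cases h : k = k'
    · subst h; simp
    · rw [Function.update_of_ne h]
  | load f q ih => simp only [stepAux, pushes]; exact ih _ _
  | branch f q₁ q₂ ih₁ ih₂ =>
    simp only [stepAux, pushes]
    cases f v
    · exact (ih₂ _ _).trans (by simp)
    · exact (ih₁ _ _).trans (by simp)
  | goto f => simp [stepAux, pushes]
  | halt => simp [stepAux, pushes]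

lemma steps_growth [Fintype Λ] (m : Λ → Stmt Γ Λ σ) {a b : Cfg Γ Λ σ} {t : ℕ}
    (h : Steps (TM2.step m) a b t) (k : K) :
    (b.stk k).length ≤ (a.stk k).length + t * (Finset.univ.sup fun l => pushes (m l)) := by
  induction t generalizing a with
  | zero =>
    have : a = b := by simpa [Steps] using h
    subst this; simp
  | succ t ih =>
    obtain ⟨c, hc, hs⟩ := Steps.succ_iff.mp h
    refine (ih hs).trans ?_
    obtain ⟨l, v, S⟩ := a
    cases l with
    | none => simp at hc
    | some l =>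
      have hc' : stepAux (m l) v S = c := by simpa using hc
      rw [← hc']
      have h1 := stepAux_growth (m l) v S k
      have h2 : pushes (m l) ≤ Finset.univ.sup fun l => pushes (m l) :=
        Finset.le_sup (f := fun l => pushes (m l)) (Finset.mem_univ l)
      have h3 : (t + 1) * (Finset.univ.sup fun l => pushes (m l)) =
        t * (Finset.univ.sup fun l => pushes (m l)) + (Finset.univ.sup fun l => pushes (m l)) := by
        ring
      show ((stepAux (m l) v S).stk k).length + _ ≤ (S k).length + _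
      omega

end growth

section comp

variable (M₁ M₂ : FinTM2)

/-- stack alphabets of the composed machine -/
@[reducible] def ΓC : M₁.K ⊕ (M₂.K ⊕ Unit) → Type
  | .inl k => M₁.Γ k
  | .inr (.inl k) => M₂.Γ k
  | .inr (.inr _) => M₂.Γ M₂.k₀

/-- labels of the composed machine -/
abbrev ΛC := M₁.Λ ⊕ (M₂.Λ ⊕ Bool)

/-- internal states of the composed machine -/
abbrev σC := M₁.σ × M₂.σ × Option (M₂.Γ M₂.k₀)

/-- statements of the first machine -/
def lift₁ : Stmt M₁.Γ M₁.Λ M₁.σ → Stmt (ΓC M₁ M₂) (ΛC M₁ M₂) (σC M₁ M₂)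
  | .push k f q => .push (.inl k) (fun s => f s.1) (lift₁ q)
  | .peek k f q => .peek (.inl k) (fun s x => (f s.1 x, s.2)) (lift₁ q)
  | .pop k f q => .pop (.inl k) (fun s x => (f s.1 x, s.2)) (lift₁ q)
  | .load f q => .load (fun s => (f s.1, s.2)) (lift₁ q)
  | .branch f q₁ q₂ => .branch (fun s => f s.1) (lift₁ q₁) (lift₁ q₂)
  | .goto f => .goto (fun s => .inl (f s.1))
  | .halt => .goto (fun _ => .inr (.inr false))

/-- statements of the second machine -/
def lift₂ : Stmt M₂.Γ M₂.Λ M₂.σ → Stmt (ΓC M₁ M₂) (ΛC M₁ M₂) (σC M₁ M₂)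
  | .push k f q => .push (.inr (.inl k)) (fun s => f s.2.1) (lift₂ q)
  | .peek k f q => .peek (.inr (.inl k)) (fun s x => (s.1, f s.2.1 x, s.2.2)) (lift₂ q)
  | .pop k f q => .pop (.inr (.inl k)) (fun s x => (s.1, f s.2.1 x, s.2.2)) (lift₂ q)
  | .load f q => .load (fun s => (s.1, f s.2.1, s.2.2)) (lift₂ q)
  | .branch f q₁ q₂ => .branch (fun s => f s.2.1) (lift₂ q₁) (lift₂ q₂)
  | .goto f => .goto (fun s => .inr (.inl (f s.2.1)))
  | .halt => .halt

variable (e : M₁.Γ M₁.k₁ → M₂.Γ M₂.k₀) (d : M₂.Γ M₂.k₀)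

/-- the program of the composed machine -/
def progC : ΛC M₁ M₂ → Stmt (ΓC M₁ M₂) (ΛC M₁ M₂) (σC M₁ M₂)
  | .inl l => lift₁ M₁ M₂ (M₁.m l)
  | .inr (.inl l) => lift₂ M₁ M₂ (M₂.m l)
  | .inr (.inr false) => .pop (.inl M₁.k₁) (fun s x => (s.1, s.2.1, x.map e))
      (.branch (fun s => s.2.2.isSome)
        (.push (.inr (.inr ())) (fun s => s.2.2.getD d) (.goto fun _ => .inr (.inr false)))
        (.goto fun _ => .inr (.inr true)))
  | .inr (.inr true) => .pop (.inr (.inr ())) (fun s x => (s.1, s.2.1, x))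
      (.branch (fun s => s.2.2.isSome)
        (.push (.inr (.inl M₂.k₀)) (fun s => s.2.2.getD d) (.goto fun _ => .inr (.inr true)))
        (.goto fun _ => .inr (.inl M₂.main)))

instance instDecEqKC : DecidableEq (M₁.K ⊕ (M₂.K ⊕ Unit)) :=
  @instDecidableEqSum _ _ M₁.kDecidableEq (@instDecidableEqSum _ _ M₂.kDecidableEq inferInstance)

/-- the composed machine -/
def compTM : FinTM2 where
  K := M₁.K ⊕ (M₂.K ⊕ Unit)
  kDecidableEq := instDecEqKC M₁ M₂
  kFin := @instFintypeSum _ _ M₁.kFin (@instFintypeSum _ _ M₂.kFin inferInstance)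
  k₀ := .inl M₁.k₀
  k₁ := .inr (.inl M₂.k₁)
  Γ := ΓC M₁ M₂
  Λ := ΛC M₁ M₂
  main := .inl M₁.main
  ΛFin := @instFintypeSum _ _ M₁.ΛFin (@instFintypeSum _ _ M₂.ΛFin inferInstance)
  σ := σC M₁ M₂
  initialState := (M₁.initialState, M₂.initialState, none)
  σFin := @instFintypeProd _ _ M₁.σFin (@instFintypeProd _ _ M₂.σFin
    (@instFintypeOption _ M₂.Γk₀Fin))
  Γk₀Fin := M₁.Γk₀Fin
  m := progC M₁ M₂ e d

variable {M₁ M₂}

/-- stacks of the composed machine -/
def comb (S₁ : ∀ k, List (M₁.Γ k)) (S₂ : ∀ k, List (M₂.Γ k)) (A : List (M₂.Γ M₂.k₀)) :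
    ∀ k, List (ΓC M₁ M₂ k)
  | .inl k => S₁ k
  | .inr (.inl k) => S₂ k
  | .inr (.inr _) => A

lemma comb_update₁ (S₁ : ∀ k, List (M₁.Γ k)) (S₂ : ∀ k, List (M₂.Γ k)) (A : List (M₂.Γ M₂.k₀))
    (k : M₁.K) (l : List (M₁.Γ k)) :
    @Function.update _ _ (instDecEqKC M₁ M₂) (comb S₁ S₂ A) (.inl k) l =
      comb (@Function.update _ _ M₁.kDecidableEq S₁ k l) S₂ A := by
  let _ := M₁.kDecidableEq
  let _ := M₂.kDecidableEq
  funext j
  match j with
  | .inl j =>
    by_cases h : j = k
    · subst h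
      have h1 : @Function.update _ _ (instDecEqKC M₁ M₂) (comb S₁ S₂ A) (.inl j) l (.inl j) = l :=
        @Function.update_self _ _ (instDecEqKC M₁ M₂) _ _ _
      rw [h1]
      show l = Function.update S₁ j l j
      rw [Function.update_self]
    · have h1 : @Function.update _ _ (instDecEqKC M₁ M₂) (comb S₁ S₂ A) (.inl k) l (.inl j)
          = comb S₁ S₂ A (.inl j) :=
        @Function.update_of_ne _ _ (instDecEqKC M₁ M₂) _ _ (by simpa using h) _ _
      rw [h1]
      show S₁ j = Function.update S₁ k l j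
      rw [Function.update_of_ne h]
  | .inr (.inl j) =>
    exact @Function.update_of_ne _ _ (instDecEqKC M₁ M₂) _ _ (by simp) _ _
  | .inr (.inr j) =>
    exact @Function.update_of_ne _ _ (instDecEqKC M₁ M₂) _ _ (by simp) _ _

lemma comb_update₂ (S₁ : ∀ k, List (M₁.Γ k)) (S₂ : ∀ k, List (M₂.Γ k)) (A : List (M₂.Γ M₂.k₀))
    (k : M₂.K) (l : List (M₂.Γ k)) :
    @Function.update _ _ (instDecEqKC M₁ M₂) (comb S₁ S₂ A) (.inr (.inl k)) l =
      comb S₁ (@Function.update _ _ M₂.kDecidableEq S₂ k l) A := by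
  let _ := M₁.kDecidableEq
  let _ := M₂.kDecidableEq
  funext j
  match j with
  | .inr (.inl j) =>
    by_cases h : j = k
    · subst h
      have h1 : @Function.update _ _ (instDecEqKC M₁ M₂) (comb S₁ S₂ A) (.inr (.inl j)) l
          (.inr (.inl j)) = l :=
        @Function.update_self _ _ (instDecEqKC M₁ M₂) _ _ _
      rw [h1]
      show l = Function.update S₂ j l j
      rw [Function.update_self]
    · have h1 : @Function.update _ _ (instDecEqKC M₁ M₂) (comb S₁ S₂ A) (.inr (.inl k)) l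
          (.inr (.inl j)) = comb S₁ S₂ A (.inr (.inl j)) :=
        @Function.update_of_ne _ _ (instDecEqKC M₁ M₂) _ _ (by simpa using h) _ _
      rw [h1]
      show S₂ j = Function.update S₂ k l j
      rw [Function.update_of_ne h]
  | .inl j =>
    exact @Function.update_of_ne _ _ (instDecEqKC M₁ M₂) _ _ (by simp) _ _
  | .inr (.inr j) =>
    exact @Function.update_of_ne _ _ (instDecEqKC M₁ M₂) _ _ (by simp) _ _

lemma comb_update₃ (S₁ : ∀ k, List (M₁.Γ k)) (S₂ : ∀ k, List (M₂.Γ k)) (A : List (M₂.Γ M₂.k₀))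
    (l : List (M₂.Γ M₂.k₀)) :
    @Function.update _ _ (instDecEqKC M₁ M₂) (comb S₁ S₂ A) (.inr (.inr ())) l = comb S₁ S₂ l := by
  funext j
  match j with
  | .inr (.inr ()) =>
    have h1 : @Function.update _ _ (instDecEqKC M₁ M₂) (comb S₁ S₂ A) (.inr (.inr ())) l
          (.inr (.inr ())) = l :=
        @Function.update_self _ _ (instDecEqKC M₁ M₂) _ _ _
    rw [h1]
    rfl
  | .inl j =>
    exact @Function.update_of_ne _ _ (instDecEqKC M₁ M₂) _ _ (by simp) _ _
  | .inr (.inl j) =>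
    exact @Function.update_of_ne _ _ (instDecEqKC M₁ M₂) _ _ (by simp) _ _

/-- configurations in the first phase -/
def emb₁ (v₂ : M₂.σ) (o : Option (M₂.Γ M₂.k₀)) (S₂ : ∀ k, List (M₂.Γ k)) (A : List (M₂.Γ M₂.k₀))
    (c : Cfg M₁.Γ M₁.Λ M₁.σ) : Cfg (ΓC M₁ M₂) (ΛC M₁ M₂) (σC M₁ M₂) :=
  ⟨match c.l with
    | some l => some (.inl l)
    | none => some (.inr (.inr false)),
   (c.var, v₂, o), comb c.stk S₂ A⟩

/-- configurations in the last phase -/
def emb₂ (v₁ : M₁.σ) (o : Option (M₂.Γ M₂.k₀)) (S₁ : ∀ k, List (M₁.Γ k)) (A : List (M₂.Γ M₂.k₀))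
    (c : Cfg M₂.Γ M₂.Λ M₂.σ) : Cfg (ΓC M₁ M₂) (ΛC M₁ M₂) (σC M₁ M₂) :=
  ⟨match c.l with
    | some l => some (.inr (.inl l))
    | none => none,
   (v₁, c.var, o), comb S₁ c.stk A⟩

lemma stepAux_lift₁ (q : Stmt M₁.Γ M₁.Λ M₁.σ) (v : M₁.σ) (S₁ : ∀ k, List (M₁.Γ k))
    (v₂ : M₂.σ) (o : Option (M₂.Γ M₂.k₀)) (S₂ : ∀ k, List (M₂.Γ k)) (A : List (M₂.Γ M₂.k₀)) :
    @stepAux _ _ _ _ (instDecEqKC M₁ M₂) (lift₁ M₁ M₂ q) (v, v₂, o) (comb S₁ S₂ A) =
      emb₁ v₂ o S₂ A (@stepAux _ _ _ _ M₁.kDecidableEq q v S₁) := by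
  induction q generalizing v S₁ with
  | push k f q ih =>
    simp only [lift₁, stepAux]
    rw [← ih, ← comb_update₁]
    rfl
  | peek k f q ih =>
    simp only [lift₁, stepAux]
    rw [← ih]
    rfl
  | pop k f q ih =>
    simp only [lift₁, stepAux]
    rw [← ih, ← comb_update₁]
    rfl
  | load f q ih =>
    simp only [lift₁, stepAux]
    rw [← ih]
  | branch f q₁ q₂ ih₁ ih₂ =>
    simp only [lift₁, stepAux]
    cases f v
    · exact ih₂ _ _
    · exact ih₁ _ _
  | goto f => rfl
  | halt => rfl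

lemma stepAux_lift₂ (q : Stmt M₂.Γ M₂.Λ M₂.σ) (v : M₂.σ) (S₂ : ∀ k, List (M₂.Γ k))
    (v₁ : M₁.σ) (o : Option (M₂.Γ M₂.k₀)) (S₁ : ∀ k, List (M₁.Γ k)) (A : List (M₂.Γ M₂.k₀)) :
    @stepAux _ _ _ _ (instDecEqKC M₁ M₂) (lift₂ M₁ M₂ q) (v₁, v, o) (comb S₁ S₂ A) =
      emb₂ v₁ o S₁ A (@stepAux _ _ _ _ M₂.kDecidableEq q v S₂) := by
  induction q generalizing v S₂ with
  | push k f q ih =>
    simp only [lift₂, stepAux]
    rw [← ih, ← comb_update₂]
    rfl
  | peek k f q ih =>
    simp only [lift₂, stepAux]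
    rw [← ih]
    rfl
  | pop k f q ih =>
    simp only [lift₂, stepAux]
    rw [← ih, ← comb_update₂]
    rfl
  | load f q ih =>
    simp only [lift₂, stepAux]
    rw [← ih]
  | branch f q₁ q₂ ih₁ ih₂ =>
    simp only [lift₂, stepAux]
    cases f v
    · exact ih₂ _ _
    · exact ih₁ _ _
  | goto f => rfl
  | halt => rfl

variable (M₁ M₂) in
/-- the step function of the composed machine -/
def stepC : Cfg (ΓC M₁ M₂) (ΛC M₁ M₂) (σC M₁ M₂) →
    Option (Cfg (ΓC M₁ M₂) (ΛC M₁ M₂) (σC M₁ M₂)) :=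
  @TM2.step _ _ _ _ (instDecEqKC M₁ M₂) (progC M₁ M₂ e d)

lemma step_emb₁ (v₂ : M₂.σ) (o : Option (M₂.Γ M₂.k₀)) (S₂ : ∀ k, List (M₂.Γ k))
    (A : List (M₂.Γ M₂.k₀)) (a b : M₁.Cfg) (h : M₁.step a = some b) :
    stepC M₁ M₂ e d (emb₁ v₂ o S₂ A a) = some (emb₁ v₂ o S₂ A b) := by
  obtain ⟨l, v, S⟩ := a
  cases l with
  | none => simp [FinTM2.step] at h
  | some l =>
    have h' : @stepAux _ _ _ _ M₁.kDecidableEq (M₁.m l) v S = b := Option.some.inj h
    rw [← h', ← stepAux_lift₁]
    rfl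

lemma step_emb₂ (v₁ : M₁.σ) (o : Option (M₂.Γ M₂.k₀)) (S₁ : ∀ k, List (M₁.Γ k))
    (A : List (M₂.Γ M₂.k₀)) (a b : M₂.Cfg) (h : M₂.step a = some b) :
    stepC M₁ M₂ e d (emb₂ v₁ o S₁ A a) = some (emb₂ v₁ o S₁ A b) := by
  obtain ⟨l, v, S⟩ := a
  cases l with
  | none => simp [FinTM2.step] at h
  | some l =>
    have h' : @stepAux _ _ _ _ M₂.kDecidableEq (M₂.m l) v S = b := Option.some.inj h
    rw [← h', ← stepAux_lift₂]
    rfl

/-- stacks with one possibly nonempty stack -/
noncomputable def only (M : FinTM2) (k : M.K) (s : List (M.Γ k)) : ∀ j, List (M.Γ j) :=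
  @Function.update _ _ M.kDecidableEq (fun _ => []) k s

lemma initList_eq (M : FinTM2) (s : List (M.Γ M.k₀)) :
    initList M s = ⟨some M.main, M.initialState, only M M.k₀ s⟩ := by
  simp only [initList, only]
  congr 1
  funext k
  by_cases h : k = M.k₀
  · subst h; simp
  · simp [h]

lemma haltList_eq (M : FinTM2) (s : List (M.Γ M.k₁)) :
    haltList M s = ⟨none, M.initialState, only M M.k₁ s⟩ := by
  simp only [haltList, only]
  congr 1
  funext k
  by_cases h : k = M.k₁
  · subst h; simp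
  · simp [h]

lemma only_self (M : FinTM2) (k : M.K) (s : List (M.Γ k)) : only M k s k = s :=
  @Function.update_self _ _ M.kDecidableEq _ _ _

lemma only_nil (M : FinTM2) (k : M.K) : only M k [] = fun _ => [] := by
  let _ := M.kDecidableEq
  simp only [only]
  exact @Function.update_eq_self _ _ M.kDecidableEq k (fun _ => [])

lemma only_update (M : FinTM2) (k : M.K) (s t : List (M.Γ k)) :
    @Function.update _ _ M.kDecidableEq (only M k s) k t = only M k t := by
  let _ := M.kDecidableEq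
  simp [only]

lemma step_false_some (v₁ : M₁.σ) (v₂ : M₂.σ) (o : Option (M₂.Γ M₂.k₀))
    (S : ∀ k, List (ΓC M₁ M₂ k)) (x : M₁.Γ M₁.k₁) (s : List (M₁.Γ M₁.k₁))
    (hS : S (.inl M₁.k₁) = x :: s) :
    stepC M₁ M₂ e d ⟨some (.inr (.inr false)), (v₁, v₂, o), S⟩ =
      some ⟨some (.inr (.inr false)), (v₁, v₂, some (e x)),
        @Function.update _ _ (instDecEqKC M₁ M₂)
          (@Function.update _ _ (instDecEqKC M₁ M₂) S (.inl M₁.k₁) s) (.inr (.inr ()))
          (e x :: (@Function.update _ _ (instDecEqKC M₁ M₂) S (.inl M₁.k₁) s) (.inr (.inr ())))⟩ := by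
  have h1 : (S (.inl M₁.k₁)).head? = some x := by rw [hS]; rfl
  have h2 : (S (.inl M₁.k₁)).tail = s := by rw [hS]; rfl
  rw [← h2]
  have : stepC M₁ M₂ e d ⟨some (.inr (.inr false)), (v₁, v₂, o), S⟩ =
      some (cond ((S (.inl M₁.k₁)).head?.map e).isSome
        ⟨some (.inr (.inr false)), (v₁, v₂, (S (.inl M₁.k₁)).head?.map e),
        @Function.update _ _ (instDecEqKC M₁ M₂)
          (@Function.update _ _ (instDecEqKC M₁ M₂) S (.inl M₁.k₁) (S (.inl M₁.k₁)).tail)
          (.inr (.inr ()))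
          (((S (.inl M₁.k₁)).head?.map e).getD d ::
            (@Function.update _ _ (instDecEqKC M₁ M₂) S (.inl M₁.k₁) (S (.inl M₁.k₁)).tail)
              (.inr (.inr ())))⟩
        ⟨some (.inr (.inr true)), (v₁, v₂, (S (.inl M₁.k₁)).head?.map e),
          @Function.update _ _ (instDecEqKC M₁ M₂) S (.inl M₁.k₁) (S (.inl M₁.k₁)).tail⟩) := rfl
  rw [this, h1]
  rfl

lemma step_false_none (v₁ : M₁.σ) (v₂ : M₂.σ) (o : Option (M₂.Γ M₂.k₀))
    (S : ∀ k, List (ΓC M₁ M₂ k)) (hS : S (.inl M₁.k₁) = []) :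
    stepC M₁ M₂ e d ⟨some (.inr (.inr false)), (v₁, v₂, o), S⟩ =
      some ⟨some (.inr (.inr true)), (v₁, v₂, none),
        @Function.update _ _ (instDecEqKC M₁ M₂) S (.inl M₁.k₁) []⟩ := by
  have h1 : (S (.inl M₁.k₁)).head? = none := by rw [hS]; rfl
  have h2 : (S (.inl M₁.k₁)).tail = [] := by rw [hS]; rfl
  have : stepC M₁ M₂ e d ⟨some (.inr (.inr false)), (v₁, v₂, o), S⟩ =
      some (cond ((S (.inl M₁.k₁)).head?.map e).isSome
        ⟨some (.inr (.inr false)), (v₁, v₂, (S (.inl M₁.k₁)).head?.map e),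
        @Function.update _ _ (instDecEqKC M₁ M₂)
          (@Function.update _ _ (instDecEqKC M₁ M₂) S (.inl M₁.k₁) (S (.inl M₁.k₁)).tail)
          (.inr (.inr ()))
          (((S (.inl M₁.k₁)).head?.map e).getD d ::
            (@Function.update _ _ (instDecEqKC M₁ M₂) S (.inl M₁.k₁) (S (.inl M₁.k₁)).tail)
              (.inr (.inr ())))⟩
        ⟨some (.inr (.inr true)), (v₁, v₂, (S (.inl M₁.k₁)).head?.map e),
          @Function.update _ _ (instDecEqKC M₁ M₂) S (.inl M₁.k₁) (S (.inl M₁.k₁)).tail⟩) := rfl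
  rw [this, h1, h2]
  rfl

lemma step_true_some (v₁ : M₁.σ) (v₂ : M₂.σ) (o : Option (M₂.Γ M₂.k₀))
    (S : ∀ k, List (ΓC M₁ M₂ k)) (x : M₂.Γ M₂.k₀) (s : List (M₂.Γ M₂.k₀))
    (hS : S (.inr (.inr ())) = x :: s) :
    stepC M₁ M₂ e d ⟨some (.inr (.inr true)), (v₁, v₂, o), S⟩ =
      some ⟨some (.inr (.inr true)), (v₁, v₂, some x),
        @Function.update _ _ (instDecEqKC M₁ M₂)
          (@Function.update _ _ (instDecEqKC M₁ M₂) S (.inr (.inr ())) s) (.inr (.inl M₂.k₀))
          (x :: (@Function.update _ _ (instDecEqKC M₁ M₂) S (.inr (.inr ())) s)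
            (.inr (.inl M₂.k₀)))⟩ := by
  have h1 : (S (.inr (.inr ()))).head? = some x := by rw [hS]; rfl
  have h2 : (S (.inr (.inr ()))).tail = s := by rw [hS]; rfl
  rw [← h2]
  have : stepC M₁ M₂ e d ⟨some (.inr (.inr true)), (v₁, v₂, o), S⟩ =
      some (cond ((S (.inr (.inr ()))).head?).isSome
        ⟨some (.inr (.inr true)), (v₁, v₂, (S (.inr (.inr ()))).head?),
        @Function.update _ _ (instDecEqKC M₁ M₂)
          (@Function.update _ _ (instDecEqKC M₁ M₂) S (.inr (.inr ())) (S (.inr (.inr ()))).tail)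
          (.inr (.inl M₂.k₀))
          (((S (.inr (.inr ()))).head?).getD d ::
            (@Function.update _ _ (instDecEqKC M₁ M₂) S (.inr (.inr ()))
              (S (.inr (.inr ()))).tail) (.inr (.inl M₂.k₀)))⟩
        ⟨some (.inr (.inl M₂.main)), (v₁, v₂, (S (.inr (.inr ()))).head?),
          @Function.update _ _ (instDecEqKC M₁ M₂) S (.inr (.inr ()))
            (S (.inr (.inr ()))).tail⟩) := rfl
  rw [this, h1]
  rfl

lemma step_true_none (v₁ : M₁.σ) (v₂ : M₂.σ) (o : Option (M₂.Γ M₂.k₀))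
    (S : ∀ k, List (ΓC M₁ M₂ k)) (hS : S (.inr (.inr ())) = []) :
    stepC M₁ M₂ e d ⟨some (.inr (.inr true)), (v₁, v₂, o), S⟩ =
      some ⟨some (.inr (.inl M₂.main)), (v₁, v₂, none),
        @Function.update _ _ (instDecEqKC M₁ M₂) S (.inr (.inr ())) []⟩ := by
  have h1 : (S (.inr (.inr ()))).head? = none := by rw [hS]; rfl
  have h2 : (S (.inr (.inr ()))).tail = [] := by rw [hS]; rfl
  have : stepC M₁ M₂ e d ⟨some (.inr (.inr true)), (v₁, v₂, o), S⟩ =
      some (cond ((S (.inr (.inr ()))).head?).isSome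
        ⟨some (.inr (.inr true)), (v₁, v₂, (S (.inr (.inr ()))).head?),
        @Function.update _ _ (instDecEqKC M₁ M₂)
          (@Function.update _ _ (instDecEqKC M₁ M₂) S (.inr (.inr ())) (S (.inr (.inr ()))).tail)
          (.inr (.inl M₂.k₀))
          (((S (.inr (.inr ()))).head?).getD d ::
            (@Function.update _ _ (instDecEqKC M₁ M₂) S (.inr (.inr ()))
              (S (.inr (.inr ()))).tail) (.inr (.inl M₂.k₀)))⟩
        ⟨some (.inr (.inl M₂.main)), (v₁, v₂, (S (.inr (.inr ()))).head?),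
          @Function.update _ _ (instDecEqKC M₁ M₂) S (.inr (.inr ()))
            (S (.inr (.inr ()))).tail⟩) := rfl
  rw [this, h1, h2]
  rfl

/-- the first transfer loop -/
lemma transfer₁ (s : List (M₁.Γ M₁.k₁)) (A : List (M₂.Γ M₂.k₀)) (v₁ : M₁.σ) (v₂ : M₂.σ)
    (o : Option (M₂.Γ M₂.k₀)) (S₂ : ∀ k, List (M₂.Γ k)) :
    Steps (stepC M₁ M₂ e d)
      ⟨some (.inr (.inr false)), (v₁, v₂, o), comb (only M₁ M₁.k₁ s) S₂ A⟩
      ⟨some (.inr (.inr true)), (v₁, v₂, none), comb (fun _ => []) S₂ ((s.map e).reverse ++ A)⟩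
      (s.length + 1) := by
  induction s generalizing A o with
  | nil =>
    refine Steps.one ?_
    rw [step_false_none e d v₁ v₂ o _ (only_self _ _ _), comb_update₁, only_update, only_nil]
    simp
  | cons x s ih =>
    have h1 : Steps (stepC M₁ M₂ e d)
        ⟨some (.inr (.inr false)), (v₁, v₂, o), comb (only M₁ M₁.k₁ (x :: s)) S₂ A⟩
        ⟨some (.inr (.inr false)), (v₁, v₂, some (e x)), comb (only M₁ M₁.k₁ s) S₂ (e x :: A)⟩ 1 := by
      refine Steps.one ?_
      rw [step_false_some e d v₁ v₂ o _ x s (only_self _ _ _), comb_update₁, only_update,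
        comb_update₃]
      rfl
    have h2 := h1.trans (ih (e x :: A) (some (e x)))
    have h3 : (List.map e (x :: s)).reverse ++ A = (List.map e s).reverse ++ e x :: A := by simp
    rw [h3]
    convert h2 using 1
    simp; ring

/-- the second transfer loop -/
lemma transfer₂ (s A : List (M₂.Γ M₂.k₀)) (v₁ : M₁.σ) (v₂ : M₂.σ)
    (o : Option (M₂.Γ M₂.k₀)) (S₁ : ∀ k, List (M₁.Γ k)) :
    Steps (stepC M₁ M₂ e d)
      ⟨some (.inr (.inr true)), (v₁, v₂, o), comb S₁ (only M₂ M₂.k₀ s) A⟩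
      ⟨some (.inr (.inl M₂.main)), (v₁, v₂, none), comb S₁ (only M₂ M₂.k₀ (A.reverse ++ s)) []⟩
      (A.length + 1) := by
  induction A generalizing s o with
  | nil =>
    refine Steps.one ?_
    rw [step_true_none e d v₁ v₂ o _ rfl, comb_update₃]
    simp
  | cons x A ih =>
    have h1 : Steps (stepC M₁ M₂ e d)
        ⟨some (.inr (.inr true)), (v₁, v₂, o), comb S₁ (only M₂ M₂.k₀ s) (x :: A)⟩
        ⟨some (.inr (.inr true)), (v₁, v₂, some x), comb S₁ (only M₂ M₂.k₀ (x :: s)) A⟩ 1 := by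
      refine Steps.one ?_
      rw [step_true_some e d v₁ v₂ o _ x A rfl, comb_update₃, comb_update₂, only_update]
      have h2 : comb S₁ (only M₂ M₂.k₀ s) A (.inr (.inl M₂.k₀)) = s := only_self _ _ _
      rw [h2]
    have h2 := h1.trans (ih (x :: s) (some x))
    have h3 : (x :: A).reverse ++ s = A.reverse ++ x :: s := by simp
    rw [h3]
    convert h2 using 1
    simp; ring

lemma initList_comp (s : List (M₁.Γ M₁.k₀)) :
    initList (compTM M₁ M₂ e d) s =
      emb₁ M₂.initialState none (fun _ => []) [] (initList M₁ s) := by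
  refine (initList_eq (compTM M₁ M₂ e d) s).trans ?_
  rw [initList_eq]
  show (⟨_, _, _⟩ : Cfg _ _ _) = ⟨_, _, _⟩
  congr 1
  refine (rfl : _ = @Function.update _ (fun k => List (ΓC M₁ M₂ k)) (instDecEqKC M₁ M₂)
    (fun _ => []) (.inl M₁.k₀) s).trans ?_
  have : (fun _ => [] : ∀ k, List (ΓC M₁ M₂ k)) = comb (fun _ => []) (fun _ => []) [] := by
    funext k
    match k with
    | .inl _ => rfl
    | .inr (.inl _) => rfl
    | .inr (.inr _) => rfl
  rw [this, comb_update₁]
  rfl

lemma haltList_comp (s : List (M₂.Γ M₂.k₁)) :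
    haltList (compTM M₁ M₂ e d) s =
      emb₂ M₁.initialState none (fun _ => []) [] (haltList M₂ s) := by
  refine (haltList_eq (compTM M₁ M₂ e d) s).trans ?_
  rw [haltList_eq]
  show (⟨_, _, _⟩ : Cfg _ _ _) = ⟨_, _, _⟩
  congr 1
  refine (rfl : _ = @Function.update _ (fun k => List (ΓC M₁ M₂ k)) (instDecEqKC M₁ M₂)
    (fun _ => []) (.inr (.inl M₂.k₁)) s).trans ?_
  have : (fun _ => [] : ∀ k, List (ΓC M₁ M₂ k)) = comb (fun _ => []) (fun _ => []) [] := by
    funext k
    match k with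
    | .inl _ => rfl
    | .inr (.inl _) => rfl
    | .inr (.inr _) => rfl
  rw [this, comb_update₂]
  rfl

/-- the composed run -/
lemma run_comp {s : List (M₁.Γ M₁.k₀)} {t : List (M₁.Γ M₁.k₁)} {u : List (M₂.Γ M₂.k₁)}
    {n₁ n₂ : ℕ} (h₁ : Steps M₁.step (initList M₁ s) (haltList M₁ t) n₁)
    (h₂ : Steps M₂.step (initList M₂ (t.map e)) (haltList M₂ u) n₂) :
    Steps (compTM M₁ M₂ e d).step (initList (compTM M₁ M₂ e d) s)
      (haltList (compTM M₁ M₂ e d) u) (n₁ + (t.length + 1) + (t.length + 1) + n₂) := by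
  rw [initList_comp, haltList_comp]
  have a1 := Steps.sim (g := stepC M₁ M₂ e d)
    (emb₁ M₂.initialState none (fun _ => []) [])
    (fun a b h => step_emb₁ e d M₂.initialState none (fun _ => []) [] a b h) h₁
  have a2 := Steps.sim (g := stepC M₁ M₂ e d)
    (emb₂ M₁.initialState none (fun _ => []) [])
    (fun a b h => step_emb₂ e d M₁.initialState none (fun _ => []) [] a b h) h₂
  have t1 := transfer₁ (M₁ := M₁) (M₂ := M₂) e d t [] M₁.initialState M₂.initialState none
    (fun _ => [])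
  have t2 := transfer₂ (M₁ := M₁) (M₂ := M₂) e d [] (t.map e).reverse M₁.initialState
    M₂.initialState none (fun _ => [])
  have e1 : emb₁ M₂.initialState none (fun _ => []) [] (haltList M₁ t) =
      ⟨some (.inr (.inr false)), (M₁.initialState, M₂.initialState, none),
        comb (only M₁ M₁.k₁ t) (fun _ => []) []⟩ := by
    rw [haltList_eq]; rfl
  have e2 : emb₂ M₁.initialState none (fun _ => []) [] (initList M₂ (t.map e)) =
      ⟨some (.inr (.inl M₂.main)), (M₁.initialState, M₂.initialState, none),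
        comb (fun _ => []) (only M₂ M₂.k₀ (t.map e)) []⟩ := by
    rw [initList_eq]; rfl
  rw [e1] at a1
  rw [e2] at a2
  rw [only_nil] at t2
  simp only [List.append_nil, List.reverse_reverse, List.length_reverse, List.length_map] at t1 t2
  exact ((a1.trans t1).trans t2).trans a2

end comp

/-- evaluation of a polynomial over `ℕ` is monotone -/
lemma eval_mono (p : Polynomial ℕ) {a b : ℕ} (h : a ≤ b) : p.eval a ≤ p.eval b := by
  rw [Polynomial.eval_eq_sum, Polynomial.eval_eq_sum]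
  exact Finset.sum_le_sum fun i _ => Nat.mul_le_mul_left _ (Nat.pow_le_pow_left h i)

/-- Composition of polynomial-time computable functions (Mathlib's
`proof_wanted TM2ComputableInPolyTime.comp`, for a nonempty intermediate alphabet). -/
theorem comp_polyTime {α β γ αΓ βΓ γΓ : Type} [Inhabited βΓ] {ea : α → List αΓ}
    {eb : β → List βΓ} {ec : γ → List γΓ} {f : α → β} {g : β → γ}
    (h₁ : TM2ComputableInPolyTime ea eb f) (h₂ : TM2ComputableInPolyTime eb ec g) :
    Nonempty (TM2ComputableInPolyTime ea ec (g ∘ f)) := by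
  obtain ⟨⟨M₁, iA₁, oA₁⟩, p₁, H₁⟩ := h₁
  obtain ⟨⟨M₂, iA₂, oA₂⟩, p₂, H₂⟩ := h₂
  simp only at H₁ H₂
  let e : M₁.Γ M₁.k₁ → M₂.Γ M₂.k₀ := fun x => iA₂.symm (oA₁ x)
  let d : M₂.Γ M₂.k₀ := iA₂.symm default
  let C := (@Finset.univ _ M₁.ΛFin).sup fun l => pushes (M₁.m l)
  refine ⟨⟨⟨compTM M₁ M₂ e d, iA₁, oA₂⟩,
    p₁ + 2 * (Polynomial.X + Polynomial.C C * p₁ + 1) + p₂.comp (Polynomial.X + Polynomial.C C * p₁),
    ?_⟩⟩
  intro a
  have A₁ := H₁ a
  have A₂ := H₂ (f a)
  obtain ⟨⟨n₁, hn₁⟩, hle₁⟩ := A₁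
  obtain ⟨⟨n₂, hn₂⟩, hle₂⟩ := A₂
  simp only at hle₁ hle₂
  have s₁ : Steps M₁.step (initList M₁ (List.map iA₁.invFun (ea a)))
      (haltList M₁ (List.map oA₁.invFun (eb (f a)))) n₁ := hn₁
  have s₂ : Steps M₂.step (initList M₂ (List.map iA₂.invFun (eb (f a))))
      (haltList M₂ (List.map oA₂.invFun (ec (g (f a))))) n₂ := hn₂
  have hmap : (List.map oA₁.invFun (eb (f a))).map e = List.map iA₂.invFun (eb (f a)) := by
    rw [List.map_map]
    refine List.map_congr_left fun x _ => ?_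
    simp [e]
  have hrun := run_comp e d s₁ (by rw [hmap]; exact s₂)
  have hlen : (eb (f a)).length ≤ (ea a).length + C * p₁.eval (ea a).length := by
    have hg := @steps_growth _ M₁.kDecidableEq _ _ _ M₁.ΛFin M₁.m _ _ n₁ s₁ M₁.k₁
    rw [haltList_eq, initList_eq] at hg
    simp only [only_self, List.length_map] at hg
    have h0 : (only M₁ M₁.k₀ (List.map iA₁.invFun (ea a)) M₁.k₁).length ≤ (ea a).length := by
      by_cases hk : M₁.k₁ = M₁.k₀
      · have : ∀ k, k = M₁.k₀ → (only M₁ M₁.k₀ (List.map iA₁.invFun (ea a)) k).length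
            ≤ (ea a).length := by
          rintro k rfl
          rw [only_self]; simp
        exact this _ hk
      · have : only M₁ M₁.k₀ (List.map iA₁.invFun (ea a)) M₁.k₁ = [] := by
          let _ := M₁.kDecidableEq
          simp [only, hk]
        rw [this]; simp
    have h1 : n₁ * C ≤ C * p₁.eval (ea a).length := by
      rw [mul_comm]; exact Nat.mul_le_mul_left _ hle₁
    have hg' : (eb (f a)).length ≤ (only M₁ M₁.k₀ (List.map iA₁.invFun (ea a)) M₁.k₁).length
      + n₁ * C := hg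
    omega
  refine ⟨⟨_, hrun⟩, ?_⟩
  simp only [Polynomial.eval_add, Polynomial.eval_mul, Polynomial.eval_X, Polynomial.eval_C,
    Polynomial.eval_one, Polynomial.eval_ofNat, Polynomial.eval_comp, List.length_map]
  have h3 : p₂.eval (eb (f a)).length ≤
      p₂.eval ((ea a).length + C * p₁.eval (ea a).length) := eval_mono p₂ hlen
  omega

end Pool.Agent.Lib_helper36.TMComp
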