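import Mathlib

set_option autoImplicit false

open scoped NNReal

namespace Pool.Agent.Lib_helper36

/-- The labeled tree `T(l)` on the point set `X` generates the metric of `X`: `T` is a tree and, for
distinct points `u`, `v`, the distance `dist u v` is the largest label of a vertex on the path from
`u` to `v` (endpoints included). -/
def Generates {X : Type*} [MetricSpace X] (T : SimpleGraph X) (l : X → ℝ≥0) : Prop :=
  T.IsTree ∧ ∀ u v : X, u ≠ v → ∀ p : T.Walk u v, p.IsPath →
    IsGreatest {r : ℝ | ∃ w ∈ p.support, r = l w} (dist u v)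

/-- `R` is a ray: its vertices are `x 0, x 1, ...` (all distinct) and its edges are exactly the
pairs `{x n, x (n + 1)}`. -/
def IsRay {V : Type*} (R : SimpleGraph V) : Prop :=
  ∃ x : ℕ → V, Function.Bijective x ∧
    ∀ a b, R.Adj a b ↔ ∃ n, (a = x n ∧ b = x (n + 1)) ∨ (a = x (n + 1) ∧ b = x n)

/-- `T` is rayless: it has no ray as a subgraph. -/
def IsRayless {V : Type*} (T : SimpleGraph V) : Prop :=
  ¬ ∃ x : ℕ → V, Function.Injective x ∧ ∀ n, T.Adj (x n) (x (n + 1))

/-- `T` is starlike: exactly one vertex has more than two neighbours. -/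
def IsStarlike {V : Type*} (T : SimpleGraph V) : Prop :=
  ∃! v, 2 < (T.neighborSet v).encard

end Pool.Agent.Lib_helper36
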