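import Pool.Agent.Lib_helper36.RayTree

set_option autoImplicit false
set_option linter.unusedSectionVars false

open scoped NNReal Topology
open Set Filter
open SimpleGraph (Walk Reachable)

namespace Pool.Agent.Lib_helper36

/-! ### The parent function of a tree -/

section Parent

variable {V : Type*} {T : SimpleGraph V} (hT : T.IsTree) (c : V)

include hT

lemma exists_parent (x : V) (hx : x ≠ c) : ∃ y, T.Adj x y ∧ T.dist c y + 1 = T.dist c x := by
  obtain ⟨p, hp, hlen⟩ := (hT.connected c x).exists_path_of_dist
  have hnn : ¬ p.Nil := fun h => hx h.eq.symm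
  refine ⟨p.penultimate, (p.adj_penultimate hnn).symm, ?_⟩
  have h1 : T.dist c p.penultimate ≤ p.length - 1 := by
    have := SimpleGraph.dist_le p.dropLast
    rwa [Walk.length_dropLast] at this
  have h2 := hT.dist_eq_dist_add_one_of_adj c (p.adj_penultimate hnn)
  have h3 : 0 < p.length := Walk.not_nil_iff_lt_length.mp hnn
  omega

lemma parent_unique {x y z : V} (hy : T.Adj x y) (hz : T.Adj x z)
    (hy' : T.dist c y + 1 = T.dist c x) (hz' : T.dist c z + 1 = T.dist c x) : y = z := by
  classical
  obtain ⟨p, hp, hlen⟩ := (hT.connected c y).exists_path_of_dist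
  obtain ⟨q, hq, hlen'⟩ := (hT.connected c z).exists_path_of_dist
  have hxp : x ∉ p.support := by
    intro h
    have h1 := SimpleGraph.dist_le (p.takeUntil x h)
    have h2 := p.length_takeUntil_le_length h
    omega
  have hxq : x ∉ q.support := by
    intro h
    have h1 := SimpleGraph.dist_le (q.takeUntil x h)
    have h2 := q.length_takeUntil_le_length h
    omega
  have h1 := (hT.existsUnique_path c x).unique (hp.concat hxp hy.symm) (hq.concat hxq hz.symm)
  have h2 := congrArg Walk.penultimate h1
  simpa using h2

open Classical in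
/-- the parent of a vertex (towards the centre `c`) -/
noncomputable def tpar (x : V) : V :=
  if h : x = c then c else (exists_parent hT c x h).choose

lemma tpar_c : tpar hT c c = c := by simp [tpar]

lemma tpar_adj {x : V} (hx : x ≠ c) : T.Adj x (tpar hT c x) := by
  unfold tpar
  rw [dif_neg hx]
  exact (exists_parent hT c x hx).choose_spec.1

lemma tpar_dist {x : V} (hx : x ≠ c) : T.dist c (tpar hT c x) + 1 = T.dist c x := by
  unfold tpar
  rw [dif_neg hx]
  exact (exists_parent hT c x hx).choose_spec.2

lemma tpar_of_adj {x y : V} (h : T.Adj x y) :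
    (x ≠ c ∧ tpar hT c x = y) ∨ (y ≠ c ∧ tpar hT c y = x) := by
  have hpos : ∀ z, T.dist c z ≠ 0 → z ≠ c := by
    rintro z hz rfl
    simp at hz
  rcases hT.dist_eq_dist_add_one_of_adj c h with h1 | h1
  · left
    have hx : x ≠ c := hpos x (by omega)
    exact ⟨hx, parent_unique hT c (tpar_adj hT c hx) h (tpar_dist hT c hx) h1.symm⟩
  · right
    have hy : y ≠ c := hpos y (by omega)
    exact ⟨hy, parent_unique hT c (tpar_adj hT c hy) h.symm (tpar_dist hT c hy) h1.symm⟩

lemma dist_iterate (x : V) (k : ℕ) (hk : k ≤ T.dist c x) :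
    T.dist c ((tpar hT c)^[k] x) = T.dist c x - k := by
  induction k with
  | zero => simp
  | succ k ih =>
    rw [Function.iterate_succ_apply']
    have h1 := ih (by omega)
    have h2 : (tpar hT c)^[k] x ≠ c := by
      intro h
      rw [h] at h1
      simp at h1
      omega
    have h3 := tpar_dist hT c h2
    omega

lemma dist_zero_iff (x : V) : T.dist c x = 0 ↔ x = c := by
  rw [(hT.connected c x).dist_eq_zero_iff]
  exact eq_comm

/-- path to an iterated parent -/
lemma exists_par_path (x : V) (k : ℕ) (hk : k ≤ T.dist c x) :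
    ∃ p : T.Walk x ((tpar hT c)^[k] x), p.IsPath ∧
      ∀ w, w ∈ p.support ↔ ∃ j ≤ k, w = (tpar hT c)^[j] x := by
  induction k with
  | zero =>
    refine ⟨Walk.nil, by simp, fun w => ?_⟩
    simp
  | succ k ih =>
    obtain ⟨p, hp, hs⟩ := ih (by omega)
    have hne : (tpar hT c)^[k] x ≠ c := by
      intro h
      have h1 := dist_iterate hT c x k (by omega)
      rw [h] at h1
      simp at h1
      omega
    have hadj : T.Adj ((tpar hT c)^[k] x) ((tpar hT c)^[k + 1] x) := by
      rw [Function.iterate_succ_apply']
      exact tpar_adj hT c hne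
    have hnot : (tpar hT c)^[k + 1] x ∉ p.support := by
      rw [hs]
      rintro ⟨j, hj, h⟩
      have h1 := dist_iterate hT c x (k + 1) hk
      have h2 := dist_iterate hT c x j (by omega)
      rw [h] at h1
      omega
    refine ⟨p.concat hadj, hp.concat hnot hadj, fun w => ?_⟩
    rw [Walk.support_concat, List.mem_append, hs, List.mem_singleton]
    constructor
    · rintro (⟨j, hj, rfl⟩ | rfl)
      · exact ⟨j, by omega, rfl⟩
      · exact ⟨k + 1, le_rfl, rfl⟩
    · rintro ⟨j, hj, rfl⟩
      by_cases hjk : j ≤ k
      · exact Or.inl ⟨j, hjk, rfl⟩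
      · right
        have : j = k + 1 := by omega
        rw [this]

/-- the branch of a vertex: its ancestor next to the centre -/
noncomputable def branch (x : V) : V := (tpar hT c)^[T.dist c x - 1] x

lemma branch_par {x : V} (hx : tpar hT c x ≠ c) : branch hT c (tpar hT c x) = branch hT c x := by
  have hxc : x ≠ c := by
    rintro rfl
    exact hx (tpar_c hT x)
  have h1 := tpar_dist hT c hxc
  have h2 : T.dist c (tpar hT c x) ≠ 0 := fun h => hx ((dist_zero_iff hT c _).mp h)
  unfold branch
  rw [← Function.iterate_succ_apply]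
  congr 2
  omega

lemma branch_adj {x y : V} (h : T.Adj x y) (hx : x ≠ c) (hy : y ≠ c) :
    branch hT c x = branch hT c y := by
  rcases tpar_of_adj hT c h with ⟨-, rfl⟩ | ⟨-, rfl⟩
  · exact (branch_par hT c hy).symm
  · exact branch_par hT c hx

lemma branch_walk {x y : V} (p : T.Walk x y) (h : c ∉ p.support) :
    branch hT c x = branch hT c y := by
  induction p with
  | nil => rfl
  | @cons a b d hab q ih =>
    rw [Walk.support_cons, List.mem_cons, not_or] at h
    have hb : b ≠ c := fun hbc => h.2 (hbc ▸ q.start_mem_support)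
    rw [branch_adj hT c hab (Ne.symm h.1) hb]
    exact ih h.2

variable (hdeg : ∀ x, x ≠ c → (T.neighborSet x).encard ≤ 2)

include hdeg

lemma par_inj {x y : V} (hx : x ≠ c) (hy : y ≠ c) (h : tpar hT c x = tpar hT c y)
    (hz : tpar hT c x ≠ c) : x = y := by
  by_contra hxy
  set z := tpar hT c x with hzdef
  have h1 : T.Adj z x := (tpar_adj hT c hx).symm
  have h2 : T.Adj z y := by rw [h]; exact (tpar_adj hT c hy).symm
  have h3 : T.Adj z (tpar hT c z) := tpar_adj hT c hz
  have d1 := tpar_dist hT c hx
  have d2 := tpar_dist hT c hy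
  have d3 := tpar_dist hT c hz
  rw [← h] at d2
  rw [← hzdef] at d1
  have h4 : x ≠ tpar hT c z := by
    intro h; rw [← h] at d3; omega
  have h5 : y ≠ tpar hT c z := by
    intro h; rw [← h] at d3; omega
  have hsub : ({x, y, tpar hT c z} : Set V) ⊆ T.neighborSet z := by
    intro w hw
    simp only [mem_insert_iff, mem_singleton_iff] at hw
    rcases hw with rfl | rfl | rfl
    · exact h1
    · exact h2
    · exact h3
  have h6 : ({x, y, tpar hT c z} : Set V).encard = 3 := Set.encard_eq_three.mpr
    ⟨x, y, _, hxy, h4, h5, rfl⟩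
  have h7 := (Set.encard_le_encard hsub).trans (hdeg z hz)
  rw [h6] at h7
  exact absurd h7 (by norm_num)

lemma eq_of_branch_eq : ∀ (n : ℕ) (x y : V), T.dist c x = n + 1 → T.dist c y = n + 1 →
    branch hT c x = branch hT c y → x = y := by
  intro n
  induction n with
  | zero =>
    intro x y hx hy h
    unfold branch at h
    rw [hx, hy] at h
    simpa using h
  | succ n ih =>
    intro x y hx hy h
    have hxc : x ≠ c := fun h => by rw [(dist_zero_iff hT c x).mpr h] at hx; omega
    have hyc : y ≠ c := fun h => by rw [(dist_zero_iff hT c y).mpr h] at hy; omega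
    have dx := tpar_dist hT c hxc
    have dy := tpar_dist hT c hyc
    have hpx : tpar hT c x ≠ c := fun h => by rw [(dist_zero_iff hT c _).mpr h] at dx; omega
    have hpy : tpar hT c y ≠ c := fun h => by rw [(dist_zero_iff hT c _).mpr h] at dy; omega
    have h1 := ih (tpar hT c x) (tpar hT c y) (by omega) (by omega)
      (by rw [branch_par hT c hpx, branch_par hT c hpy, h])
    exact par_inj hT c hdeg hxc hyc h1 hpx

lemma iterate_eq_of_branch_eq {x y : V} (hy : y ≠ c) (h : branch hT c x = branch hT c y)
    (k : ℕ) (hk : T.dist c x = T.dist c y + k) : (tpar hT c)^[k] x = y := by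
  have hy0 : T.dist c y ≠ 0 := fun h => hy ((dist_zero_iff hT c y).mp h)
  have h1 := dist_iterate hT c x k (by omega)
  refine eq_of_branch_eq hT c hdeg (T.dist c y - 1) _ _ (by omega) (by omega) ?_
  rw [← h]
  unfold branch
  rw [h1, ← Function.iterate_add_apply]
  congr 2
  omega

end Parent

end Pool.Agent.Lib_helper36
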