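import Pool.Agent.Lib_helper36.TreeRay

set_option autoImplicit false
set_option linter.unusedSectionVars false

open scoped NNReal Topology
open Set Filter
open SimpleGraph (Walk Reachable)

namespace Pool.Agent.Lib_helper36

/-- enumeration of an infinite linear order with finite initial segments -/
lemma exists_enum {α : Type*} [LinearOrder α] [Infinite α] (hfin : ∀ x : α, (Set.Iio x).Finite) :
    ∃ e : ℕ → α, StrictMono e ∧ Function.Surjective e := by
  set f : α → ℕ := fun x => (Set.Iio x).ncard with hf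
  have hmono : StrictMono f := by
    intro x y hxy
    refine Set.ncard_lt_ncard ?_ (hfin y)
    refine ⟨Set.Iio_subset_Iio hxy.le, fun h => ?_⟩
    exact lt_irrefl x (h hxy)
  have hlow : ∀ y n, n < f y → ∃ x, f x = n := by
    intro y n hn
    have h1 : f '' (Set.Iio y) ⊆ Set.Iio (f y) := by
      rintro _ ⟨x, hx, rfl⟩
      exact hmono hx
    have h2 : (f '' (Set.Iio y)).ncard = f y := by
      rw [Set.ncard_image_of_injective _ hmono.injective]
    have h3 : f '' (Set.Iio y) = Set.Iio (f y) := by
      refine Set.eq_of_subset_of_ncard_le h1 ?_ (Set.finite_Iio _)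
      rw [h2]
      simp
    have h4 : n ∈ f '' (Set.Iio y) := by rw [h3]; exact hn
    obtain ⟨x, -, hx⟩ := h4
    exact ⟨x, hx⟩
  have hsurj : Function.Surjective f := by
    intro n
    have hinf : (Set.range f).Infinite := Set.infinite_range_of_injective hmono.injective
    obtain ⟨m, ⟨y, rfl⟩, hm⟩ := hinf.exists_gt n
    exact hlow y n hm
  let E : α ≃ ℕ := Equiv.ofBijective f ⟨hmono.injective, hsurj⟩
  refine ⟨E.symm, fun m n hmn => ?_, E.symm.surjective⟩
  rw [← hmono.lt_iff_lt]
  have h1 : ∀ k, f (E.symm k) = k := fun k => E.apply_symm_apply k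
  rw [h1, h1]
  exact hmn

/-- The ray graph of a bijective sequence. -/
def rayGraph {V : Type*} (x : ℕ → V) (hx : Function.Injective x) : SimpleGraph V where
  Adj a b := ∃ n, (a = x n ∧ b = x (n + 1)) ∨ (a = x (n + 1) ∧ b = x n)
  symm := ⟨fun a b ⟨n, h⟩ => ⟨n, by tauto⟩⟩
  loopless := ⟨fun a ⟨n, h⟩ => by
    rcases h with ⟨h1, h2⟩ | ⟨h1, h2⟩ <;>
    · have := hx (h1.symm.trans h2)
      omega⟩

lemma rayGraph_isTree {V : Type*} (x : ℕ → V) (hx : Function.Bijective x) :
    (rayGraph x hx.1).IsTree := by
  let E : ℕ ≃ V := Equiv.ofBijective x hx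
  have hE : ∀ n, E.symm (x n) = n := fun n => E.symm_apply_apply n
  have hE' : ∀ v, x (E.symm v) = v := fun v => E.apply_symm_apply v
  have D : ParentData (rayGraph x hx.1) (x 0) (fun v => x (E.symm v - 1)) (fun v => E.symm v) := by
    constructor
    · intro v hv
      have h0 : E.symm v ≠ 0 := fun h => hv (by rw [← h, hE'])
      show E.symm (x (E.symm v - 1)) < E.symm v
      rw [hE]
      omega
    · intro u v
      constructor
      · rintro ⟨n, ⟨rfl, rfl⟩ | ⟨rfl, rfl⟩⟩
        · right
          refine ⟨fun h => ?_, ?_⟩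
          · have := hx.1 h; omega
          · show x (E.symm (x (n + 1)) - 1) = x n
            rw [hE]; rfl
        · left
          refine ⟨fun h => ?_, ?_⟩
          · have := hx.1 h; omega
          · show x (E.symm (x (n + 1)) - 1) = x n
            rw [hE]; rfl
      · have key : ∀ u v, u ≠ x 0 → x (E.symm u - 1) = v → ∃ n, u = x (n + 1) ∧ v = x n := by
          rintro u v hu rfl
          have h0 : E.symm u ≠ 0 := fun h => hu (by rw [← h, hE'])
          refine ⟨E.symm u - 1, ?_, rfl⟩
          have : E.symm u - 1 + 1 = E.symm u := by omega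
          rw [this, hE']
        rintro (⟨h1, h2⟩ | ⟨h1, h2⟩)
        · obtain ⟨n, h3, h4⟩ := key u v h1 h2
          exact ⟨n, Or.inr ⟨h3, h4⟩⟩
        · obtain ⟨n, h3, h4⟩ := key v u h1 h2
          exact ⟨n, Or.inl ⟨h4, h3⟩⟩
  exact D.isTree

section TreeToRay

variable {X : Type*} [MetricSpace X] [IsUltrametricDist X] {T : SimpleGraph X} {l : X → ℝ≥0}
  (hG : Generates T l) {c : X} (hdeg : ∀ x, x ≠ c → (T.neighborSet x).encard ≤ 2)

include hG hdeg

lemma isolated (x : X) (hx : x ≠ c) : ∃ ε > 0, ∀ y, y ≠ x → ε ≤ dist x y := by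
  have hpathx : ∀ y, y ≠ x → ∃ p : T.Walk x y, p.IsPath := fun y _ =>
    (hG.1.existsUnique_path x y).exists
  by_cases hl : 0 < l x
  · refine ⟨l x, by exact_mod_cast hl, fun y hy => ?_⟩
    obtain ⟨p, hp⟩ := hpathx y hy
    exact hG.label_le (Ne.symm hy) hp p.start_mem_support
  · have hl0 : l x = 0 := le_antisymm (not_lt.mp hl) zero_le
    have hfin : (T.neighborSet x).Finite := by
      refine Set.finite_of_encard_le_coe (k := 2) ?_
      exact_mod_cast hdeg x hx
    have hne : (T.neighborSet x).Nonempty := ⟨_, tpar_adj hG.1 c hx⟩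
    obtain ⟨z, hz, hzmin⟩ := Set.exists_min_image _ l hfin hne
    have hzpos : ∀ w ∈ T.neighborSet x, 0 < l w := by
      intro w hw
      have h1 := hG.adj_dist hw
      rw [hl0] at h1
      have h2 : 0 < dist x w := dist_pos.mpr (SimpleGraph.Adj.ne hw)
      rw [h1] at h2
      simpa using h2
    refine ⟨l z, by exact_mod_cast hzpos z hz, fun y hy => ?_⟩
    obtain ⟨p, hp⟩ := hpathx y hy
    cases p with
    | nil => exact absurd rfl hy
    | @cons _ b _ h q =>
      have h1 : (l b : ℝ) ≤ dist x y := hG.label_le (Ne.symm hy) hp (by simp)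
      have h2 : (l z : ℝ) ≤ l b := by exact_mod_cast hzmin b h
      exact h2.trans h1

lemma finite_far [CompactSpace X] (ε : ℝ) (hε : 0 < ε) : {x | ε ≤ dist x c}.Finite := by
  have hcl : IsClosed {x : X | ε ≤ dist x c} :=
    isClosed_le continuous_const (continuous_id.dist continuous_const)
  have hcomp := hcl.isCompact
  obtain ⟨t, -, ht⟩ := hcomp.elim_nhds_subcover (fun x => {x}) (by
    intro x hx
    have hxc : x ≠ c := by
      rintro rfl
      simp only [mem_ofPred_eq, dist_self] at hx
      linarith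
    obtain ⟨δ, hδ, h⟩ := isolated hG hdeg x hxc
    refine Filter.mem_of_superset (Metric.ball_mem_nhds x hδ) ?_
    intro y hy
    by_contra hne
    have := h y hne
    rw [Metric.mem_ball, dist_comm] at hy
    linarith)
  refine (t.finite_toSet).subset ?_
  intro x hx
  have := ht hx
  simpa using this

lemma exists_near [CompactSpace X] [Infinite X] (ε : ℝ) (hε : 0 < ε) : ∃ y, y ≠ c ∧ dist y c < ε := by
  by_contra hcon
  push Not at hcon
  have h1 : ({c}ᶜ : Set X) ⊆ {x | ε ≤ dist x c} := fun y hy => hcon y hy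
  have h2 : ({c}ᶜ : Set X).Finite := (finite_far hG hdeg ε hε).subset h1
  exact Set.infinite_univ (by
    have := h2.union (Set.finite_singleton c)
    rwa [Set.compl_union_self] at this)

lemma label_centre [CompactSpace X] [Infinite X] : l c = 0 := by
  by_contra hne
  have hpos : (0 : ℝ) < l c := by
    have : 0 < l c := pos_iff_ne_zero.mpr hne
    exact_mod_cast this
  obtain ⟨y, hy, hlt⟩ := exists_near hG hdeg (l c) hpos
  obtain ⟨p, hp⟩ := (hG.1.existsUnique_path c y).exists
  have := hG.label_le (Ne.symm hy) hp p.start_mem_support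
  rw [dist_comm] at this
  linarith

/-- distance to the centre is monotone along the parent map -/
lemma dist_par_le (x : X) : dist (tpar hG.1 c x) c ≤ dist x c := by
  by_cases hx : x = c
  · rw [hx, tpar_c]
  obtain ⟨p, hp, hs⟩ := exists_par_path hG.1 c x (T.dist c x) le_rfl
  have hend : (tpar hG.1 c)^[T.dist c x] x = c := by
    have h1 := dist_iterate hG.1 c x (T.dist c x) le_rfl
    rw [Nat.sub_self] at h1
    exact (dist_zero_iff hG.1 c _).mp h1
  have hpos : T.dist c x ≠ 0 := fun h => hx ((dist_zero_iff hG.1 c x).mp h)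
  have hmem : tpar hG.1 c x ∈ p.reverse.support := by
    rw [Walk.support_reverse, List.mem_reverse, hs]
    exact ⟨1, by omega, rfl⟩
  have h2 := hG.dist_le_of_mem hp.reverse hmem
  rw [hend] at h2
  rwa [dist_comm c, dist_comm c] at h2

lemma dist_iterate_le (x : X) (k : ℕ) : dist ((tpar hG.1 c)^[k] x) c ≤ dist x c := by
  induction k with
  | zero => simp
  | succ k ih =>
    rw [Function.iterate_succ_apply']
    exact (dist_par_le hG hdeg _).trans ih

lemma label_le_dist (x : X) (hx : x ≠ c) : (l x : ℝ) ≤ dist x c := by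
  obtain ⟨p, hp⟩ := (hG.1.existsUnique_path x c).exists
  exact hG.label_le hx hp p.start_mem_support

/-- if the label of `x` is smaller than its distance to the centre, the parent has the same
distance to the centre -/
lemma par_of_label_lt [CompactSpace X] [Infinite X] {x : X} (hx : x ≠ c) (hlt : (l x : ℝ) < dist x c) :
    tpar hG.1 c x ≠ c ∧ dist (tpar hG.1 c x) c = dist x c := by
  have hadj := hG.adj_dist (tpar_adj hG.1 c hx)
  have hpc : tpar hG.1 c x ≠ c := by
    intro h
    rw [h, label_centre hG hdeg] at hadj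
    simp only [NNReal.coe_zero] at hadj
    rw [max_eq_left (l x).coe_nonneg] at hadj
    linarith
  refine ⟨hpc, le_antisymm (dist_par_le hG hdeg x) ?_⟩
  have h1 := dist_triangle_max x (tpar hG.1 c x) c
  have h2 := label_le_dist hG hdeg _ hpc
  rw [hadj] at h1
  rcases le_max_iff.mp h1 with h | h
  · rcases le_max_iff.mp h with h' | h'
    · linarith
    · exact h'.trans h2
  · exact h

/-- points in different branches -/
lemma dist_branch {x y : X} (h : branch hG.1 c x ≠ branch hG.1 c y) : dist x c ≤ dist x y := by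
  obtain ⟨p, hp⟩ := (hG.1.existsUnique_path x y).exists
  have hc : c ∈ p.support := by
    by_contra hcon
    exact h (branch_walk hG.1 c p hcon)
  exact hG.dist_le_of_mem hp hc

/-- points on the same branch -/
lemma dist_between {x y z : X} (hy : y ≠ c) (hz : z ≠ c)
    (hxy : branch hG.1 c x = branch hG.1 c y) (hxz : branch hG.1 c x = branch hG.1 c z)
    (h1 : T.dist c y ≤ T.dist c z) (h2 : T.dist c z ≤ T.dist c x) : dist x z ≤ dist x y := by
  obtain ⟨k, hk⟩ := Nat.exists_eq_add_of_le (h1.trans h2)
  obtain ⟨j, hj⟩ := Nat.exists_eq_add_of_le h2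
  have e1 := iterate_eq_of_branch_eq hG.1 c hdeg hy hxy k hk
  have e2 := iterate_eq_of_branch_eq hG.1 c hdeg hz hxz j hj
  obtain ⟨p, hp, hs⟩ := exists_par_path hG.1 c x k (by omega)
  have hmem : (tpar hG.1 c)^[j] x ∈ p.support := (hs _).mpr ⟨j, by omega, rfl⟩
  have h3 := hG.dist_le_of_mem hp hmem
  rwa [e1, e2] at h3

end TreeToRay

end Pool.Agent.Lib_helper36
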