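import Pool.Agent.Lib_helper36.TreeRay2

set_option autoImplicit false
set_option linter.unusedSectionVars false

open scoped NNReal Topology
open Set Filter
open SimpleGraph (Walk Reachable)

namespace Pool.Agent.Lib_helper36

section TreeToRay

variable {X : Type*} [MetricSpace X] [IsUltrametricDist X] {T : SimpleGraph X} {l : X → ℝ≥0}
  (hG : Generates T l) (c : X) (hdeg : ∀ x, x ≠ c → (T.neighborSet x).encard ≤ 2)

/-- the strict order on the complement of the centre used to lay out the ray -/
def RayLT (r : X → X → Prop) (x y : {x : X // x ≠ c}) : Prop :=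
  dist y.1 c < dist x.1 c ∨ (dist x.1 c = dist y.1 c ∧
    (r (branch hG.1 c x.1) (branch hG.1 c y.1) ∨
      (branch hG.1 c x.1 = branch hG.1 c y.1 ∧ T.dist c y.1 < T.dist c x.1)))

include hdeg in
lemma eq_of_branch_dist {x y : X} (hy : y ≠ c)
    (h1 : branch hG.1 c x = branch hG.1 c y) (h2 : T.dist c x = T.dist c y) : x = y := by
  have := iterate_eq_of_branch_eq hG.1 c hdeg hy h1 0 (by omega)
  simpa using this

include hdeg in
lemma rayLT_sto (r : X → X → Prop) [IsStrictTotalOrder X r] :
    IsStrictTotalOrder {x : X // x ≠ c} (RayLT hG c r) where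
  trichotomous x y h1 h2 := by
    unfold RayLT at h1 h2
    push Not at h1 h2
    obtain ⟨a1, a2⟩ := h1
    obtain ⟨b1, b2⟩ := h2
    have hd : dist x.1 c = dist y.1 c := le_antisymm a1 b1
    obtain ⟨a3, a4⟩ := a2 hd
    obtain ⟨b3, b4⟩ := b2 hd.symm
    have hb : branch hG.1 c x.1 = branch hG.1 c y.1 := by
      rcases trichotomous_of r (branch hG.1 c x.1) (branch hG.1 c y.1) with h | h | h
      · exact absurd h a3
      · exact h
      · exact absurd h b3
    have h3 := a4 hb
    have h4 := b4 hb.symm
    exact Subtype.ext (eq_of_branch_dist hG c hdeg y.2 hb (le_antisymm h3 h4))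
  irrefl x h := by
    rcases h with h | ⟨-, h | ⟨-, h⟩⟩
    · exact lt_irrefl _ h
    · exact irrefl_of r _ h
    · exact lt_irrefl _ h
  trans x y z h1 h2 := by
    rcases h1 with h1 | ⟨h1, h1'⟩
    · rcases h2 with h2 | ⟨h2, -⟩
      · exact Or.inl (h2.trans h1)
      · exact Or.inl (by rw [← h2]; exact h1)
    · rcases h2 with h2 | ⟨h2, h2'⟩
      · exact Or.inl (by rw [h1]; exact h2)
      · refine Or.inr ⟨h1.trans h2, ?_⟩
        rcases h1' with h1' | ⟨h1', h1''⟩
        · rcases h2' with h2' | ⟨h2', -⟩
          · exact Or.inl (trans_of r h1' h2')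
          · exact Or.inl (by rw [← h2']; exact h1')
        · rcases h2' with h2' | ⟨h2', h2''⟩
          · exact Or.inl (by rw [h1']; exact h2')
          · exact Or.inr ⟨h1'.trans h2', h2''.trans h1''⟩

include hdeg in
/-- consecutive points -/
lemma consecutive_dist [CompactSpace X] [Infinite X] (r : X → X → Prop) [IsStrictTotalOrder X r]
    (x y : {x : X // x ≠ c}) (hxy : RayLT hG c r x y)
    (hcons : ∀ z, RayLT hG c r x z → ¬ RayLT hG c r z y) :
    dist x.1 y.1 = max (l x.1 : ℝ) (l y.1) := by
  obtain ⟨x, hx⟩ := x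
  obtain ⟨y, hy⟩ := y
  have hlx := label_le_dist hG hdeg x hx
  have hly := label_le_dist hG hdeg y hy
  have hpd : T.dist c (tpar hG.1 c x) + 1 = T.dist c x := tpar_dist hG.1 c hx
  have hup : dist x y ≤ max (dist x c) (dist y c) := by
    have := dist_triangle_max x c y
    rwa [dist_comm c y] at this
  rcases hxy with h | ⟨h, h' | ⟨h', h''⟩⟩
  · -- strictly closer
    simp only at h
    have hd : dist x y = dist x c := by
      apply le_antisymm
      · rwa [max_eq_left h.le] at hup
      · have h1 := dist_triangle_max x y c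
        rcases le_max_iff.mp h1 with h2 | h2
        · exact h2
        · linarith
    have hl : (l x : ℝ) = dist x c := by
      by_contra hne
      have hlt : (l x : ℝ) < dist x c := lt_of_le_of_ne hlx hne
      obtain ⟨h1, h2⟩ := par_of_label_lt hG hdeg hx hlt
      refine hcons ⟨tpar hG.1 c x, h1⟩ (Or.inr ⟨h2.symm, Or.inr ⟨(branch_par hG.1 c h1).symm, ?_⟩⟩)
        (Or.inl ?_)
      · simp only; omega
      · simp only; rw [h2]; exact h
    rw [hd, hl, max_eq_left]
    linarith
  · simp only at h h'
    have hne : branch hG.1 c x ≠ branch hG.1 c y := fun he => irrefl_of r _ (he ▸ h')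
    have hd : dist x y = dist x c := by
      apply le_antisymm
      · rwa [← h, max_self] at hup
      · exact dist_branch hG hdeg hne
    have hl : (l x : ℝ) = dist x c := by
      by_contra hne
      have hlt : (l x : ℝ) < dist x c := lt_of_le_of_ne hlx hne
      obtain ⟨h1, h2⟩ := par_of_label_lt hG hdeg hx hlt
      refine hcons ⟨tpar hG.1 c x, h1⟩ (Or.inr ⟨h2.symm, Or.inr ⟨(branch_par hG.1 c h1).symm, ?_⟩⟩)
        (Or.inr ⟨h2.trans h, Or.inl ?_⟩)
      · simp only; omega
      · simp only; rw [branch_par hG.1 c h1]; exact h'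
    rw [hd, hl, max_eq_left]
    linarith
  · simp only at h h' h''
    -- same branch: `y` is the parent of `x`
    obtain ⟨k, hk⟩ := Nat.exists_eq_add_of_lt h''
    have e1 := iterate_eq_of_branch_eq hG.1 c hdeg hy h' (k + 1) (by omega)
    rw [Function.iterate_succ_apply] at e1
    have hpc : tpar hG.1 c x ≠ c := by
      intro hcon
      have h3 : T.dist c y ≠ 0 := fun h => hy ((dist_zero_iff hG.1 c y).mp h)
      rw [hcon] at hpd
      simp at hpd
      omega
    have hDp : dist (tpar hG.1 c x) c = dist x c := by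
      apply le_antisymm (dist_par_le hG hdeg x)
      rw [h, ← e1]
      exact dist_iterate_le hG hdeg _ k
    have hk0 : tpar hG.1 c x = y := by
      by_contra hne
      refine hcons ⟨tpar hG.1 c x, hpc⟩
        (Or.inr ⟨hDp.symm, Or.inr ⟨(branch_par hG.1 c hpc).symm, ?_⟩⟩)
        (Or.inr ⟨hDp.trans h, Or.inr ⟨(branch_par hG.1 c hpc).trans h', ?_⟩⟩)
      · simp only; omega
      · simp only
        rcases Nat.eq_zero_or_pos k with h0 | h0
        · subst h0; exact absurd e1 hne
        · omega
    have hfinal := hG.adj_dist (tpar_adj hG.1 c hx)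
    rw [hk0] at hfinal
    exact hfinal

include hdeg in
/-- monotonicity along the order -/
lemma dist_mono_order (r : X → X → Prop) [IsStrictTotalOrder X r]
    (x z y : {x : X // x ≠ c}) (hxz : RayLT hG c r x z) (hzy : RayLT hG c r z y) :
    dist x.1 z.1 ≤ dist x.1 y.1 := by
  obtain ⟨x, hx⟩ := x
  obtain ⟨y, hy⟩ := y
  obtain ⟨z, hz⟩ := z
  unfold RayLT at hxz hzy
  simp only at hxz hzy ⊢
  have hup : dist x z ≤ max (dist x c) (dist z c) := by
    have := dist_triangle_max x c z
    rwa [dist_comm c z] at this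
  have hzx : dist z c ≤ dist x c := by
    rcases hxz with h | ⟨h, -⟩
    · exact h.le
    · exact h.ge
  have hyz : dist y c ≤ dist z c := by
    rcases hzy with h | ⟨h, -⟩
    · exact h.le
    · exact h.ge
  rw [max_eq_left hzx] at hup
  by_cases hlt : dist y c < dist x c
  · -- then `dist x y = dist x c`
    have h1 := dist_triangle_max x y c
    rcases le_max_iff.mp h1 with h2 | h2
    · exact hup.trans h2
    · linarith
  · have e1 : dist x c = dist y c := le_antisymm (not_lt.mp hlt) (hyz.trans hzx)
    have e2 : dist z c = dist x c := le_antisymm hzx (by rw [e1]; exact hyz)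
    have e3 : dist z c = dist y c := e2.trans e1
    by_cases hb : branch hG.1 c x = branch hG.1 c y
    · have hxz' : r (branch hG.1 c x) (branch hG.1 c z) ∨
          (branch hG.1 c x = branch hG.1 c z ∧ T.dist c z < T.dist c x) := by
        rcases hxz with h | ⟨-, h⟩
        · rw [e2] at h; exact absurd h (lt_irrefl _)
        · exact h
      have hzy' : r (branch hG.1 c z) (branch hG.1 c y) ∨
          (branch hG.1 c z = branch hG.1 c y ∧ T.dist c y < T.dist c z) := by
        rcases hzy with h | ⟨-, h⟩
        · rw [e3] at h; exact absurd h (lt_irrefl _)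
        · exact h
      rcases hxz' with h | ⟨h, h'⟩
      · exfalso
        rw [hb] at h
        rcases hzy' with h2 | ⟨h2, -⟩
        · exact asymm_of r h h2
        · rw [h2] at h; exact irrefl_of r _ h
      · rcases hzy' with h2 | ⟨h2, h3⟩
        · exfalso
          rw [← h, hb] at h2
          exact irrefl_of r _ h2
        · exact dist_between hG hdeg hy hz hb h h3.le h'.le
    · exact hup.trans (dist_branch hG hdeg hb)

include hG hdeg in
/-- The complement of the centre is generated by a labeled ray. -/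
lemma exists_ray [CompactSpace X] [Infinite X] :
    ∃ (R : SimpleGraph ({c}ᶜ : Set X)) (l' : ({c}ᶜ : Set X) → ℝ≥0), IsRay R ∧ Generates R l' := by
  classical
  have hsto := rayLT_sto hG c hdeg (WellOrderingRel (α := X))
  let _ : LinearOrder {x : X // x ≠ c} := linearOrderOfSTO (RayLT hG c (WellOrderingRel (α := X)))
  have hlt : ∀ x y : {x : X // x ≠ c}, x < y ↔ RayLT hG c (WellOrderingRel (α := X)) x y :=
    fun x y => Iff.rfl
  have hinf : Infinite {x : X // x ≠ c} := by
    have : ({c}ᶜ : Set X).Infinite := (Set.finite_singleton c).infinite_compl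
    exact this.to_subtype
  have hfin : ∀ x : {x : X // x ≠ c}, (Set.Iio x).Finite := by
    intro x
    have h1 : {z : X | dist x.1 c ≤ dist z c}.Finite :=
      finite_far hG hdeg _ (dist_pos.mpr x.2)
    refine Set.Finite.of_finite_image (f := Subtype.val) (h1.subset ?_) Subtype.val_injective.injOn
    rintro _ ⟨z, hz, rfl⟩
    have hz' : RayLT hG c (WellOrderingRel (α := X)) z x := hz
    rcases hz' with h | ⟨h, -⟩
    · exact h.le
    · exact h.ge
  obtain ⟨e, he, hes⟩ := exists_enum hfin
  have hbij : Function.Bijective e := ⟨he.injective, hes⟩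
  let e' : ℕ → ({c}ᶜ : Set X) := e
  have hbij' : Function.Bijective e' := hbij
  refine ⟨rayGraph e' hbij'.1, fun x => l x.1, ⟨e', hbij', fun a b => Iff.rfl⟩, ?_⟩
  refine generates_of_criterion (rayGraph_isTree e' hbij') ?_ ?_
  · -- edges
    have key : ∀ n, dist (e' n) (e' (n + 1)) = max (l (e' n).1 : ℝ) (l (e' (n + 1)).1) := by
      intro n
      refine consecutive_dist hG c hdeg (WellOrderingRel (α := X)) (e n) (e (n + 1))
        (he (Nat.lt_succ_self n)) ?_
      intro z h1 h2
      obtain ⟨m, rfl⟩ := hes z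
      have h1' : e n < e m := h1
      have h2' : e m < e (n + 1) := h2
      rw [he.lt_iff_lt] at h1' h2'
      omega
    rintro a b ⟨n, ⟨rfl, rfl⟩ | ⟨rfl, rfl⟩⟩
    · exact key n
    · rw [dist_comm, max_comm]; exact key n
  · -- walks
    have key : ∀ i j, i < j → ∃ p : (rayGraph e' hbij'.1).Walk (e' i) (e' j),
        ∀ w ∈ p.support, dist (e' i) w ≤ dist (e' i) (e' j) := by
      intro i j hij
      obtain ⟨n, rfl⟩ : ∃ n, j = i + n := ⟨j - i, by omega⟩
      obtain ⟨p, -, hs⟩ := exists_seq_path (R := rayGraph e' hbij'.1) hbij'.1 i n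
        fun k _ _ => ⟨k, Or.inl ⟨rfl, rfl⟩⟩
      refine ⟨p, fun w hw => ?_⟩
      obtain ⟨k, h1, h2, rfl⟩ := (hs w).mp hw
      rcases Nat.eq_or_lt_of_le h1 with h | h
      · rw [← h, dist_self]; exact dist_nonneg
      · rcases Nat.eq_or_lt_of_le h2 with h' | h'
        · rw [h']
        · exact dist_mono_order hG c hdeg (WellOrderingRel (α := X)) (e i) (e k) (e (i + n))
            (he h) (he h')
    intro u v
    obtain ⟨i, rfl⟩ := hbij'.2 u
    obtain ⟨j, rfl⟩ := hbij'.2 v
    rcases lt_trichotomy i j with h | rfl | h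
    · exact key i j h
    · exact ⟨Walk.nil, fun w hw => by simp at hw; rw [hw]⟩
    · obtain ⟨p, hp⟩ := key j i h
      refine ⟨p.reverse, fun w hw => ?_⟩
      rw [Walk.support_reverse, List.mem_reverse] at hw
      have h1 := hp w hw
      have h2 := dist_triangle_max (e' i) (e' j) w
      rw [dist_comm (e' i) (e' j)] at h2 ⊢
      exact h2.trans (max_le le_rfl h1)

end TreeToRay

/-- **The equivalence.** -/
theorem main_equiv {X : Type*} [MetricSpace X] [IsUltrametricDist X] [Infinite X] :
    (∃ X₀ : Set X, X₀ ≠ Set.univ ∧ TotallyBounded X₀ ∧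
      (∃ (R : SimpleGraph X₀) (l : X₀ → ℝ≥0), IsRay R ∧ Generates R l) ∧
      CompleteSpace X ∧ Dense X₀) ↔
    (CompactSpace X ∧ ∃ (T : SimpleGraph X) (l : X → ℝ≥0),
      IsStarlike T ∧ IsRayless T ∧ Generates T l) := by
  constructor
  · rintro ⟨X₀, -, htb, hray, hcomp, hdense⟩
    have hcompact : CompactSpace X := by
      refine ⟨isCompact_iff_totallyBounded_isComplete.mpr ⟨?_, completeSpace_iff_isComplete_univ.mp hcomp⟩⟩
      rw [← hdense.closure_eq]
      exact htb.closure
    obtain ⟨y, a, c, D⟩ := exists_rayData X₀ htb hray hcomp hdense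
    exact ⟨hcompact, D.tree, RayData.lab y a c, D.starlike, D.rayless, D.generates⟩
  · rintro ⟨hcompact, T, l, ⟨c, -, hc⟩, -, hG⟩
    have hdeg : ∀ x, x ≠ c → (T.neighborSet x).encard ≤ 2 := by
      intro x hx
      by_contra hcon
      exact hx (hc x (not_le.mp hcon))
    refine ⟨{c}ᶜ, ?_, ?_, exists_ray hG c hdeg, inferInstance, ?_⟩
    · intro h
      have : c ∈ ({c}ᶜ : Set X) := by rw [h]; trivial
      exact this rfl
    · exact isCompact_univ.totallyBounded.subset (Set.subset_univ _)
    · intro z
      rw [Metric.mem_closure_iff]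
      intro ε hε
      by_cases hz : z = c
      · obtain ⟨w, hw, hw'⟩ := exists_near hG hdeg ε hε
        exact ⟨w, hw, by rw [hz, dist_comm]; exact hw'⟩
      · exact ⟨z, hz, by rw [dist_self]; exact hε⟩

end Pool.Agent.Lib_helper36
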