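import Pool.Agent.Lib_helper36.TreeDefs

set_option autoImplicit false

open scoped NNReal
open SimpleGraph (Walk Reachable isAcyclic_iff_forall_adj_isBridge isBridge_iff_forall_walk_mem_edges)

namespace Pool.Agent.Lib_helper36

/-- A graph given by a parent function and a rank. -/
structure ParentData {V : Type*} (T : SimpleGraph V) (c : V) (par : V → V) (h : V → ℕ) : Prop where
  lt : ∀ v, v ≠ c → h (par v) < h v
  adj : ∀ u v, T.Adj u v ↔ (u ≠ c ∧ par u = v) ∨ (v ≠ c ∧ par v = u)

lemma ParentData.isTree {V : Type*} {T : SimpleGraph V} {c : V} {par : V → V} {h : V → ℕ}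
    (D : ParentData T c par h) : T.IsTree := by
  have hconn : ∀ n : ℕ, ∀ v, h v = n → T.Reachable v c := by
    intro n
    induction n using Nat.strong_induction_on with
    | _ n ih =>
      intro v hv
      by_cases hvc : v = c
      · subst hvc; exact Reachable.refl _
      · have h1 : T.Adj v (par v) := (D.adj _ _).mpr (Or.inl ⟨hvc, rfl⟩)
        have h2 := D.lt v hvc
        exact h1.reachable.trans (ih (h (par v)) (by omega) (par v) rfl)
  have hne : Nonempty V := ⟨c⟩
  have hpre : T.Preconnected := fun u v => (hconn _ u rfl).trans (hconn _ v rfl).symm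
  refine ⟨⟨hpre⟩, ?_⟩
  rw [isAcyclic_iff_forall_adj_isBridge]
  -- it suffices to treat an edge `v -- par v`
  have key : ∀ v, v ≠ c → T.IsBridge s(v, par v) := by
    intro v hvc
    rw [isBridge_iff_forall_walk_mem_edges]
    intro p
    -- descendants of `v`
    let S : Set V := {w | ∃ k : ℕ, (∀ j < k, par^[j] w ≠ c) ∧ par^[k] w = v}
    have hS : ∀ w ∈ S, h v ≤ h w := by
      rintro w ⟨k, hk, hkv⟩
      rw [← hkv]
      clear hkv
      induction k with
      | zero => simp
      | succ k ih =>
        have h1 := ih fun j hj => hk j (by omega)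
        rw [Function.iterate_succ_apply']
        have h2 := D.lt _ (hk k (by omega))
        omega
    have hvS : v ∈ S := ⟨0, by simp, rfl⟩
    have hpS : par v ∉ S := fun hcon => by
      have h1 := hS _ hcon
      have h2 := D.lt v hvc
      omega
    obtain ⟨d, hd, hd1, hd2⟩ := p.exists_boundary_dart S hvS hpS
    have hadj := (D.adj _ _).mp d.adj
    obtain ⟨k, hk, hkv⟩ := hd1
    rcases hadj with ⟨h1, h2⟩ | ⟨h1, h2⟩
    · -- `d.snd` is the parent of `d.fst`
      cases k with
      | zero =>
        simp only [Function.iterate_zero, id] at hkv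
        have : d.edge = s(v, par v) := by
          rw [← hkv, h2]
          rfl
        rw [← this]
        exact List.mem_map_of_mem hd
      | succ k =>
        exfalso
        apply hd2
        refine ⟨k, fun j hj => ?_, ?_⟩
        · rw [← h2, ← Function.iterate_succ_apply]
          exact hk (j + 1) (by omega)
        · rw [← h2, ← Function.iterate_succ_apply]
          exact hkv
    · -- `d.fst` is the parent of `d.snd`
      exfalso
      apply hd2
      refine ⟨k + 1, fun j hj => ?_, ?_⟩
      · cases j with
        | zero => simpa using h1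
        | succ j =>
          rw [Function.iterate_succ_apply, h2]
          exact hk j (by omega)
      · rw [Function.iterate_succ_apply, h2]
        exact hkv
  intro u v huv
  rcases (D.adj _ _).mp huv with ⟨h1, rfl⟩ | ⟨h1, rfl⟩
  · exact key u h1
  · rw [Sym2.eq_swap]
    exact key v h1

/-- Every vertex of a walk between distinct vertices has a neighbour on the walk. -/
lemma exists_adj_mem_support {V : Type*} {T : SimpleGraph V} {u v : V} (p : T.Walk u v)
    (huv : u ≠ v) : ∀ w ∈ p.support, ∃ w' ∈ p.support, T.Adj w w' := by
  induction p with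
  | nil => exact absurd rfl huv
  | @cons a b c hab q ih =>
    intro w hw
    rw [Walk.support_cons, List.mem_cons] at hw
    by_cases hbc : b = c
    · rcases hw with rfl | hw
      · exact ⟨b, by simp, hab⟩
      · subst hbc
        by_cases hwb : w = b
        · subst hwb
          exact ⟨a, by simp, hab.symm⟩
        · -- `w` lies on a closed walk at `b`
          have : ∀ {x : V} (r : T.Walk b x), ∀ w ∈ r.support, w ≠ b → ∃ w' ∈ r.support, T.Adj w w' := by
            intro x r
            have gen : ∀ {y x : V} (r : T.Walk y x), ∀ w ∈ r.support, w ≠ y →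
                ∃ w' ∈ r.support, T.Adj w w' := by
              intro y x r
              induction r with
              | nil =>
                intro w hw hne
                simp at hw
                exact absurd hw hne
              | @cons a' b' c' h' q' ih' =>
                intro w hw hne
                rw [Walk.support_cons, List.mem_cons] at hw
                rcases hw with hw | hw
                · exact absurd hw hne
                · by_cases hwb' : w = b'
                  · subst hwb'
                    exact ⟨a', by simp, h'.symm⟩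
                  · obtain ⟨w', hw', hadj⟩ := ih' w hw hwb'
                    exact ⟨w', by simp [hw'], hadj⟩
            exact gen r
          obtain ⟨w', hw', hadj⟩ := this q w hw hwb
          exact ⟨w', by simp [hw'], hadj⟩
    · rcases hw with rfl | hw
      · exact ⟨b, by simp, hab⟩
      · obtain ⟨w', hw', hadj⟩ := ih hbc w hw
        exact ⟨w', by simp [hw'], hadj⟩

section Ultra

variable {X : Type*} [MetricSpace X] [IsUltrametricDist X] {T : SimpleGraph X} {l : X → ℝ≥0}

/-- Criterion for a labeled tree to generate the metric. -/
lemma generates_of_criterion (hT : T.IsTree)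
    (hE : ∀ a b, T.Adj a b → dist a b = max (l a : ℝ) (l b))
    (hC : ∀ u v, ∃ p : T.Walk u v, ∀ w ∈ p.support, dist u w ≤ dist u v) : Generates T l := by
  classical
  refine ⟨hT, fun u v huv p hp => ?_⟩
  have hball : ∀ w ∈ p.support, dist u w ≤ dist u v := by
    obtain ⟨q, hq⟩ := hC u v
    have h1 : p = (q.toPath : T.Walk u v) :=
      (hT.existsUnique_path u v).unique hp q.toPath.2
    intro w hw
    rw [h1] at hw
    exact hq w (Walk.support_toPath_subset_support _ hw)
  have hlow : ∀ w ∈ p.support, (l w : ℝ) ≤ dist u v := by
    intro w hw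
    obtain ⟨w', hw', hadj⟩ := exists_adj_mem_support p huv w hw
    have h1 : (l w : ℝ) ≤ dist w w' := by rw [hE w w' hadj]; exact le_max_left _ _
    have h2 := dist_triangle_max w u w'
    have h3 := hball w hw
    have h4 := hball w' hw'
    rw [dist_comm w u] at h2
    exact h1.trans (h2.trans (max_le h3 h4))
  have hup : ∀ {a b : X} (q : T.Walk a b), a ≠ b → ∃ w ∈ q.support, dist a b ≤ l w := by
    intro a b q
    induction q with
    | nil => intro h; exact absurd rfl h
    | @cons x y z hxy r ih =>
      intro _
      have hmax : ∃ w ∈ (Walk.cons hxy r).support, dist x y ≤ l w := by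
        rw [hE x y hxy]
        rcases le_total (l x : ℝ) (l y) with h | h
        · exact ⟨y, by simp, by rw [max_eq_right h]⟩
        · exact ⟨x, by simp, by rw [max_eq_left h]⟩
      by_cases hyz : y = z
      · subst hyz
        exact hmax
      · obtain ⟨w1, hw1, hw1'⟩ := hmax
        obtain ⟨w2, hw2, hw2'⟩ := ih hyz
        have h2 := dist_triangle_max x y z
        rcases le_total (dist x y) (dist y z) with h | h
        · rw [max_eq_right h] at h2
          exact ⟨w2, by simp [hw2], h2.trans hw2'⟩
        · rw [max_eq_left h] at h2
          exact ⟨w1, hw1, h2.trans hw1'⟩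
  obtain ⟨w, hw, hw'⟩ := hup p huv
  refine ⟨⟨w, hw, le_antisymm hw' (hlow w hw)⟩, ?_⟩
  rintro r ⟨w, hw, rfl⟩
  exact hlow w hw

omit [IsUltrametricDist X] in
lemma Generates.adj_dist (hG : Generates T l) {a b : X} (hab : T.Adj a b) :
    dist a b = max (l a : ℝ) (l b) := by
  have hp : (Walk.cons hab Walk.nil).IsPath := by
    simp [hab.ne]
  obtain ⟨⟨w, hw, hw'⟩, h2⟩ := hG.2 a b hab.ne _ hp
  apply le_antisymm
  · rw [hw']
    simp at hw
    rcases hw with rfl | rfl
    · exact le_max_left _ _
    · exact le_max_right _ _
  · refine max_le (h2 ⟨a, by simp, rfl⟩) (h2 ⟨b, by simp, rfl⟩)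

omit [IsUltrametricDist X] in
lemma Generates.label_le (hG : Generates T l) {u v : X} (huv : u ≠ v) {p : T.Walk u v}
    (hp : p.IsPath) {w : X} (hw : w ∈ p.support) : (l w : ℝ) ≤ dist u v :=
  (hG.2 u v huv p hp).2 ⟨w, hw, rfl⟩

omit [IsUltrametricDist X] in
lemma Generates.dist_le_of_mem (hG : Generates T l) {u v : X} {p : T.Walk u v}
    (hp : p.IsPath) {w : X} (hw : w ∈ p.support) : dist u w ≤ dist u v := by
  classical
  by_cases huw : u = w
  · subst huw
    rw [dist_self]; exact dist_nonneg
  · have huv : u ≠ v := by
      rintro rfl
      have h1 := Walk.isPath_iff_nil.mp hp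
      have h2 : w ∈ ([u] : List X) := by
        rwa [Walk.nil_iff_support_eq.mp h1] at hw
      simp at h2
      exact huw h2.symm
    obtain ⟨⟨w', hw', hw''⟩, -⟩ := hG.2 u w huw _ (hp.takeUntil hw)
    rw [hw'']
    exact hG.label_le huv hp (Walk.support_takeUntil_subset_support p hw hw')

end Ultra

end Pool.Agent.Lib_helper36
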